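import Mathlib
import Pool.Agent.Helper22.LB.Root

/-!
# Peeling vertices

Relations between the coefficients of a multilinear identity of the matrix algebra, obtained by
evaluating on matrix units and removing one vertex at a time.
-/

set_option autoImplicit false
set_option linter.unusedSectionVars false

namespace Pool.Agent.Helper49.SL.Peel

open Finset Matrix Pool.Agent.Helper22.LB

variable {K : Type*} [Field K] {V : Type*} [DecidableEq V] {m : ℕ}

/-- block matrix with zero row and column `0` -/
def blk (A : Matrix (Fin m) (Fin m) K) : Matrix (Fin (m + 1)) (Fin (m + 1)) K :=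
  Matrix.of fun i j => Fin.cases 0 (fun i' => Fin.cases 0 (fun j' => A i' j') j) i

@[simp] theorem blk_zero (A : Matrix (Fin m) (Fin m) K) (j : Fin (m + 1)) : blk A 0 j = 0 := rfl

@[simp] theorem blk_succ_zero (A : Matrix (Fin m) (Fin m) K) (i : Fin m) : blk A i.succ 0 = 0 := rfl

@[simp] theorem blk_succ (A : Matrix (Fin m) (Fin m) K) (i j : Fin m) :
    blk A i.succ j.succ = A i j := rfl

theorem vecMul_blk (r : Fin m → K) (A : Matrix (Fin m) (Fin m) K) :
    (Fin.cons 0 r : Fin (m + 1) → K) ᵥ* blk A = Fin.cons 0 (r ᵥ* A) := by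
  funext j
  refine Fin.cases ?_ (fun j => ?_) j
  · simp [vecMul, dotProduct, Fin.sum_univ_succ]
  · simp [vecMul, dotProduct, Fin.sum_univ_succ]

/-- the first unit vector -/
def e0 (K : Type*) [Field K] (m : ℕ) : Fin (m + 1) → K := Fin.cons 1 0

theorem e0_blk (A : Matrix (Fin m) (Fin m) K) : e0 K m ᵥ* blk A = 0 := by
  funext j
  simp [e0, vecMul, dotProduct, Fin.sum_univ_succ]

/-- `E_00` -/
def loop (K : Type*) [Field K] (m : ℕ) : Matrix (Fin (m + 1)) (Fin (m + 1)) K :=
  Matrix.single 0 0 1

/-- `E_0j` -/
def exi (r : Fin m → K) : Matrix (Fin (m + 1)) (Fin (m + 1)) K :=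
  Matrix.of fun i j => Fin.cases (Fin.cases 0 (fun j' => r j') j) (fun _ => 0) i

/-- `E_i0` -/
def ent (s : Fin m → K) : Matrix (Fin (m + 1)) (Fin (m + 1)) K :=
  Matrix.of fun i j => Fin.cases 0 (fun i' => Fin.cases (s i') (fun _ => 0) j) i

theorem e0_loop : e0 K m ᵥ* loop K m = e0 K m := by
  funext j
  refine Fin.cases ?_ (fun j => ?_) j
  · simp [e0, loop, vecMul, dotProduct, Fin.sum_univ_succ]
  · simp [e0, loop, vecMul, dotProduct, (Fin.succ_ne_zero _).symm]

theorem cons_loop (r : Fin m → K) : (Fin.cons 0 r : Fin (m + 1) → K) ᵥ* loop K m = 0 := by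
  funext j
  simp [loop, vecMul, dotProduct, Fin.sum_univ_succ, Matrix.single_apply,
      (Fin.succ_ne_zero _).symm]

theorem e0_exi (r : Fin m → K) : e0 K m ᵥ* exi r = Fin.cons 0 r := by
  funext j
  refine Fin.cases ?_ (fun j => ?_) j
  · simp [e0, exi, vecMul, dotProduct, Fin.sum_univ_succ]
  · simp [e0, exi, vecMul, dotProduct, Fin.sum_univ_succ]

theorem cons_exi (r s : Fin m → K) : (Fin.cons 0 s : Fin (m + 1) → K) ᵥ* exi r = 0 := by
  funext j
  simp [exi, vecMul, dotProduct, Fin.sum_univ_succ]

theorem e0_ent (s : Fin m → K) : e0 K m ᵥ* ent s = 0 := by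
  funext j
  simp [e0, ent, vecMul, dotProduct, Fin.sum_univ_succ]

theorem cons_ent (r s : Fin m → K) :
    (Fin.cons 0 r : Fin (m + 1) → K) ᵥ* ent s = (r ⬝ᵥ s) • e0 K m := by
  funext j
  refine Fin.cases ?_ (fun j => ?_) j
  · simp [e0, ent, vecMul, dotProduct, Fin.sum_univ_succ]
  · simp [e0, ent, vecMul, dotProduct, Fin.sum_univ_succ]

/-- row vector times the value -/
def row {n : ℕ} (x : V → Matrix (Fin n) (Fin n) K) (k : ℕ) (S : Finset V) (c : List V → K)
    (r : Fin n → K) : Fin n → K := r ᵥ* evr x k S c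

theorem row_succ {n : ℕ} (x : V → Matrix (Fin n) (Fin n) K) (k : ℕ) (S : Finset V)
    (c : List V → K) (r : Fin n → K) :
    row x (k + 1) S c r = ∑ q ∈ S, row x k (S.erase q) (fun l => c (q :: l)) (r ᵥ* x q) := by
  simp only [row, evr]
  rw [vecMul_sum]
  exact sum_congr rfl fun q _ => (vecMul_vecMul _ _ _).symm

theorem row_zero {n : ℕ} (x : V → Matrix (Fin n) (Fin n) K) (S : Finset V)
    (c : List V → K) (r : Fin n → K) : row x 0 S c r = c [] • r := by
  simp only [row, evr]
  rw [vecMul_smul, vecMul_one]

theorem row_vec_zero {n : ℕ} (x : V → Matrix (Fin n) (Fin n) K) (k : ℕ) (S : Finset V)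
    (c : List V → K) : row x k S c 0 = 0 := by
  rw [row, zero_vecMul]

theorem row_vec_smul {n : ℕ} (x : V → Matrix (Fin n) (Fin n) K) (k : ℕ) (S : Finset V)
    (c : List V → K) (t : K) (r : Fin n → K) : row x k S c (t • r) = t • row x k S c r := by
  rw [row, row, smul_vecMul]

theorem row_blk (x : V → Matrix (Fin (m + 1)) (Fin (m + 1)) K) (x' : V → Matrix (Fin m) (Fin m) K)
    (k : ℕ) : ∀ (S : Finset V) (c : List V → K) (r : Fin m → K), (∀ q ∈ S, x q = blk (x' q)) →
      row x k S c (Fin.cons 0 r) = Fin.cons 0 (row x' k S c r) := by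
  induction k with
  | zero =>
    intro S c r _
    rw [row_zero, row_zero]
    funext j
    refine Fin.cases ?_ (fun j => ?_) j <;> simp
  | succ k ih =>
    intro S c r h
    rw [row_succ, row_succ]
    have h1 : ∀ q ∈ S, row x k (S.erase q) (fun l => c (q :: l)) ((Fin.cons 0 r : Fin (m + 1) → K) ᵥ* x q) =
        Fin.cons 0 (row x' k (S.erase q) (fun l => c (q :: l)) (r ᵥ* x' q)) := by
      intro q hq
      rw [h q hq, vecMul_blk, ih _ _ _ (fun q' hq' => h q' (mem_of_mem_erase hq'))]
    rw [sum_congr rfl h1]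
    funext j
    refine Fin.cases ?_ (fun j => ?_) j
    · simp
    · simp

/-- If a loop letter is left, the value in the block is zero. -/
theorem row_loop (x : V → Matrix (Fin (m + 1)) (Fin (m + 1)) K) (p : V) (hp : x p = loop K m)
    (k : ℕ) : ∀ (S : Finset V) (c : List V → K) (r : Fin m → K), p ∈ S → S.card = k →
      (∀ q ∈ S, q ≠ p → ∀ s : Fin m → K, ∃ s' : Fin m → K,
        (Fin.cons 0 s : Fin (m + 1) → K) ᵥ* x q = Fin.cons 0 s') →
      row x k S c (Fin.cons 0 r) = 0 := by
  induction k with
  | zero =>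
    intro S c r hpS hS _
    rw [card_eq_zero] at hS
    rw [hS] at hpS
    exact absurd hpS (notMem_empty _)
  | succ k ih =>
    intro S c r hpS hS h
    rw [row_succ]
    refine sum_eq_zero fun q hq => ?_
    by_cases hqp : q = p
    · rw [hqp, hp, cons_loop, row_vec_zero]
    · obtain ⟨s', hs'⟩ := h q hq hqp r
      rw [hs']
      refine ih _ _ _ (mem_erase.mpr ⟨Ne.symm hqp, hpS⟩) ?_ ?_
      · rw [card_erase_of_mem hq, hS]
        rfl
      · intro q' hq'
        exact h q' (mem_of_mem_erase hq')

theorem e0_row_blk (x : V → Matrix (Fin (m + 1)) (Fin (m + 1)) K)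
    (x' : V → Matrix (Fin m) (Fin m) K) (k : ℕ) (S : Finset V) (c : List V → K)
    (h : ∀ q ∈ S, x q = blk (x' q)) : row x (k + 1) S c (e0 K m) = 0 := by
  rw [row_succ]
  refine sum_eq_zero fun q hq => ?_
  rw [h q hq, e0_blk, row_vec_zero]

/-- Identities, with the set of letters given by a word. -/
def IdL (K : Type*) [Field K] {V : Type*} [DecidableEq V] (n : ℕ) (w : List V) (c : List V → K) :
    Prop := ∀ x : V → Matrix (Fin n) (Fin n) K, evr x w.length w.toFinset c = 0

theorem row_eq_zero {n : ℕ} {w : List V} {c : List V → K} (h : IdL K n w c)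
    (x : V → Matrix (Fin n) (Fin n) K) (r : Fin n → K) : row x w.length w.toFinset c r = 0 := by
  rw [row, h x, vecMul_zero]

theorem IdL_of_row {n : ℕ} {w : List V} {c : List V → K}
    (h : ∀ (x : V → Matrix (Fin n) (Fin n) K) (r : Fin n → K), row x w.length w.toFinset c r = 0) :
    IdL K n w c := by
  intro x
  refine ext_of_single_vecMul fun i => ?_
  have := h x (Pi.single i 1)
  rw [row] at this
  rw [this, vecMul_zero]

theorem toFinset_erase {a : V} {w : List V} (h : (a :: w).Nodup) :
    (a :: w).toFinset.erase a = w.toFinset := by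
  rw [List.toFinset_cons, erase_insert]
  rw [List.mem_toFinset]
  exact (List.nodup_cons.mp h).1

theorem card_toFinset {w : List V} (h : w.Nodup) : w.toFinset.card = w.length :=
  List.toFinset_card_of_nodup h

/-- (L2) -/
theorem L2 {p l : V} {w : List V} {c : List V → K} (hnd : (p :: l :: w).Nodup)
    (h : IdL K (m + 1) (p :: l :: w) c) : IdL K m w (fun s => c (p :: l :: s)) := by
  refine IdL_of_row fun x' r => ?_
  have hpl : p ≠ l := by
    rintro rfl
    simp at hnd
  have hpw : p ∉ w := fun h' => (List.nodup_cons.mp hnd).1 (List.mem_cons_of_mem _ h')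
  have hnd2 := (List.nodup_cons.mp hnd).2
  have hlw : l ∉ w := (List.nodup_cons.mp hnd2).1
  have hndw := (List.nodup_cons.mp hnd2).2
  let x : V → Matrix (Fin (m + 1)) (Fin (m + 1)) K := fun q =>
    if q = p then loop K m else if q = l then exi r else blk (x' q)
  have xp : x p = loop K m := by simp [x]
  have xl : x l = exi r := by simp [x, Ne.symm hpl]
  have xo : ∀ q, q ≠ p → q ≠ l → x q = blk (x' q) := by
    intro q h1 h2
    simp [x, h1, h2]
  have h0 := row_eq_zero h x (e0 K m)
  rw [show (p :: l :: w).length = w.length + 1 + 1 from rfl, row_succ] at h0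
  have hsub : ({p, l} : Finset V) ⊆ (p :: l :: w).toFinset := by
    intro q hq
    simp only [mem_insert, mem_singleton] at hq
    rw [List.mem_toFinset]
    rcases hq with rfl | rfl <;> simp
  rw [← sum_subset hsub, sum_pair hpl, xp, xl, e0_loop, e0_exi, toFinset_erase hnd] at h0
  · -- second term vanishes
    rw [row_loop x p xp (w.length + 1) _ _ r] at h0
    · rw [add_zero, row_succ, sum_eq_single l] at h0
      · rw [xl, e0_exi, toFinset_erase hnd2, row_blk x x'] at h0
        · have := congrArg Fin.tail h0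
          rw [Fin.tail_cons] at this
          exact this
        · intro q hq
          rw [List.mem_toFinset] at hq
          exact xo q (fun h' => hpw (h' ▸ hq)) (fun h' => hlw (h' ▸ hq))
      · intro q hq hql
        rw [List.mem_toFinset, List.mem_cons] at hq
        have hqw := hq.resolve_left hql
        rw [xo q (fun h' => hpw (h' ▸ hqw)) hql, e0_blk, row_vec_zero]
      · intro h'
        exact absurd (by simp) h'
    · rw [mem_erase]
      exact ⟨hpl, by simp⟩
    · rw [card_erase_of_mem (by simp), card_toFinset hnd]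
      rfl
    · intro q hq hqp s
      refine ⟨s ᵥ* x' q, ?_⟩
      rw [xo q hqp (ne_of_mem_erase hq), vecMul_blk]
  · intro q _ hq
    simp only [mem_insert, mem_singleton, not_or] at hq
    rw [xo q hq.1 hq.2, e0_blk, row_vec_zero]

/-- (L3) -/
theorem L3 {a b y : V} {w : List V} {c : List V → K} (hnd : (a :: b :: y :: w).Nodup)
    (h : IdL K (m + 1) (a :: b :: y :: w) c) :
    IdL K m w (fun s => c (a :: b :: y :: s) + c (b :: a :: y :: s)) := by
  refine IdL_of_row fun x' r => ?_
  have hnd2 := (List.nodup_cons.mp hnd).2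
  have hnd3 := (List.nodup_cons.mp hnd2).2
  have hab : a ≠ b := fun h' => (List.nodup_cons.mp hnd).1 (by simp [h'])
  have hay : a ≠ y := fun h' => (List.nodup_cons.mp hnd).1 (by simp [h'])
  have haw : a ∉ w := fun h' => (List.nodup_cons.mp hnd).1 (by simp [h'])
  have hby : b ≠ y := fun h' => (List.nodup_cons.mp hnd2).1 (by simp [h'])
  have hbw : b ∉ w := fun h' => (List.nodup_cons.mp hnd2).1 (by simp [h'])
  have hyw : y ∉ w := (List.nodup_cons.mp hnd3).1
  have hndb : (b :: a :: y :: w).Nodup := ((List.Perm.swap a b (y :: w)).nodup_iff).mpr hnd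
  have hndb2 := (List.nodup_cons.mp hndb).2
  have hset : (b :: a :: y :: w).toFinset = (a :: b :: y :: w).toFinset :=
    List.toFinset_eq_of_perm _ _ (List.Perm.swap a b (y :: w))
  let x : V → Matrix (Fin (m + 1)) (Fin (m + 1)) K := fun q =>
    if q = a then loop K m else if q = b then loop K m else if q = y then exi r else blk (x' q)
  have xa : x a = loop K m := by simp [x]
  have xb : x b = loop K m := by simp [x]
  have xy : x y = exi r := by simp [x, Ne.symm hay, Ne.symm hby]
  have xo : ∀ q, q ≠ a → q ≠ b → q ≠ y → x q = blk (x' q) := by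
    intro q h1 h2 h3
    simp [x, h1, h2, h3]
  have h0 := row_eq_zero h x (e0 K m)
  rw [show (a :: b :: y :: w).length = w.length + 1 + 1 + 1 from rfl, row_succ] at h0
  have hsub : ({a, b, y} : Finset V) ⊆ (a :: b :: y :: w).toFinset := by
    intro q hq
    simp only [mem_insert, mem_singleton] at hq
    rw [List.mem_toFinset]
    rcases hq with rfl | rfl | rfl <;> simp
  -- the value from vertex 0 with one loop letter `b` and the exit letter left
  have key : ∀ (b' : V) (d : List V → K), b' ≠ y → b' ∉ w → x b' = loop K m →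
      row x (w.length + 1 + 1) (b' :: y :: w).toFinset d (e0 K m) =
        Fin.cons 0 (row x' w.length w.toFinset (fun s => d (b' :: y :: s)) r) := by
    intro b' d hb'y hb'w xb'
    have hn : (b' :: y :: w).Nodup := by
      rw [List.nodup_cons]
      refine ⟨?_, hnd3⟩
      rw [List.mem_cons, not_or]
      exact ⟨hb'y, hb'w⟩
    have hw : ∀ q ∈ w, x q = blk (x' q) := fun q hq =>
      xo q (fun h' => haw (h' ▸ hq)) (fun h' => hbw (h' ▸ hq)) (fun h' => hyw (h' ▸ hq))
    rw [row_succ, ← sum_subset (s₁ := {b', y}), sum_pair hb'y, xb', xy, e0_loop, e0_exi,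
      toFinset_erase hn, row_loop x b' xb' (w.length + 1) _ _ r]
    · rw [add_zero, row_succ, sum_eq_single y]
      · rw [xy, e0_exi, toFinset_erase hnd3, row_blk x x']
        intro q hq
        rw [List.mem_toFinset] at hq
        exact hw q hq
      · intro q hq hqy
        rw [List.mem_toFinset, List.mem_cons] at hq
        rw [hw q (hq.resolve_left hqy), e0_blk, row_vec_zero]
      · intro h'
        exact absurd (by simp) h'
    · rw [mem_erase]
      exact ⟨hb'y, by simp⟩
    · rw [card_erase_of_mem (by simp), card_toFinset hn]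
      rfl
    · intro q hq hqb s
      have hqw : q ∈ w := by
        have h1 := mem_of_mem_erase hq
        rw [List.mem_toFinset, List.mem_cons, List.mem_cons] at h1
        exact (h1.resolve_left hqb).resolve_left (ne_of_mem_erase hq)
      refine ⟨s ᵥ* x' q, ?_⟩
      rw [hw q hqw, vecMul_blk]
    · intro q hq
      simp only [mem_insert, mem_singleton] at hq
      rw [List.mem_toFinset]
      rcases hq with rfl | rfl <;> simp
    · intro q hq hq'
      simp only [mem_insert, mem_singleton, not_or] at hq'
      rw [List.mem_toFinset, List.mem_cons, List.mem_cons] at hq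
      rw [hw q ((hq.resolve_left hq'.1).resolve_left hq'.2), e0_blk, row_vec_zero]
  rw [← sum_subset hsub, sum_insert (by simp [hab, hay]), sum_pair hby, xa, xb, xy, e0_loop, e0_exi,
    toFinset_erase hnd] at h0
  · rw [row_loop x a xa (w.length + 1 + 1) _ _ r, add_zero, ← hset, toFinset_erase hndb,
      key b _ hby hbw xb, key a _ hay haw xa] at h0
    · have := congrArg Fin.tail h0
      have e : Fin.tail ((Fin.cons 0 (row x' w.length w.toFinset (fun s => c (a :: b :: y :: s)) r) +
          Fin.cons 0 (row x' w.length w.toFinset (fun s => c (b :: a :: y :: s)) r) :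
          Fin (m + 1) → K)) = row x' w.length w.toFinset
            (fun s => c (a :: b :: y :: s) + c (b :: a :: y :: s)) r := by
        have e2 : row x' w.length w.toFinset
            (fun s => c (a :: b :: y :: s) + c (b :: a :: y :: s)) r =
            row x' w.length w.toFinset (fun s => c (a :: b :: y :: s)) r +
            row x' w.length w.toFinset (fun s => c (b :: a :: y :: s)) r := by
          have := evr_add x' w.length w.toFinset (fun s => c (a :: b :: y :: s))
            (fun s => c (b :: a :: y :: s))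
          rw [row, row, row, this, vecMul_add]
        rw [e2]
        funext j
        simp [Fin.tail]
      rw [e] at this
      exact this
    · rw [mem_erase]
      exact ⟨hay, by simp⟩
    · rw [card_erase_of_mem (by simp), card_toFinset hnd]
      rfl
    · intro q hq hqa s
      by_cases hqb : q = b
      · refine ⟨0, ?_⟩
        rw [hqb, xb, cons_loop]
        funext j
        refine Fin.cases ?_ (fun j => ?_) j <;> simp
      · refine ⟨s ᵥ* x' q, ?_⟩
        rw [xo q hqa hqb (ne_of_mem_erase hq), vecMul_blk]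
  · intro q _ hq
    simp only [mem_insert, mem_singleton, not_or] at hq
    rw [xo q hq.1 hq.2.1 hq.2.2, e0_blk, row_vec_zero]

/-- the last letter is the entry letter -/
theorem row_ent (x : V → Matrix (Fin (m + 1)) (Fin (m + 1)) K) (x' : V → Matrix (Fin m) (Fin m) K)
    (t : V) (s : Fin m → K) (xt : x t = ent s)
    (k : ℕ) : ∀ (S : Finset V) (c : List V → K) (r : Fin m → K), t ∈ S → S.card = k + 1 →
      (∀ q ∈ S, q ≠ t → x q = blk (x' q)) →
      row x (k + 1) S c (Fin.cons 0 r) 0 =
        row x' k (S.erase t) (fun w => c (w ++ [t])) r ⬝ᵥ s := by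
  induction k with
  | zero =>
    intro S c r ht hS h
    rw [card_eq_one] at hS
    obtain ⟨t', rfl⟩ := hS
    rw [mem_singleton] at ht
    subst ht
    rw [row_succ, sum_singleton, xt, cons_ent, row_zero, row_zero]
    simp [e0, smul_dotProduct]
  | succ k ih =>
    intro S c r ht hS h
    rw [row_succ, Finset.sum_apply, ← add_sum_erase S _ ht, xt, cons_ent, row_vec_smul,
      e0_row_blk x x' k (S.erase t), smul_zero, Pi.zero_apply, zero_add, row_succ, sum_dotProduct]
    · refine sum_congr rfl fun q hq => ?_
      have hqt := ne_of_mem_erase hq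
      have hqS := mem_of_mem_erase hq
      rw [h q hqS hqt, vecMul_blk, ih _ _ _ (mem_erase.mpr ⟨Ne.symm hqt, ht⟩), erase_right_comm]
      · rfl
      · rw [card_erase_of_mem hqS, hS]
        rfl
      · intro q' hq' h'
        exact h q' (mem_of_mem_erase hq') h'
    · intro q hq
      exact h q (mem_of_mem_erase hq) (ne_of_mem_erase hq)

/-- (LR) -/
theorem LR {y t : V} {w : List V} {c : List V → K} (hnd : (y :: (w ++ [t])).Nodup)
    (h : IdL K (m + 1) (y :: (w ++ [t])) c) : IdL K m w (fun s => c (y :: (s ++ [t]))) := by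
  refine IdL_of_row fun x' r => ?_
  have hyt : y ≠ t := fun h' => (List.nodup_cons.mp hnd).1 (by simp [h'])
  have hyw : y ∉ w := fun h' => (List.nodup_cons.mp hnd).1 (by simp [h'])
  have hnd2 := (List.nodup_cons.mp hnd).2
  have hperm : (w ++ [t]).Perm (t :: w) := List.perm_append_singleton t w
  have hnd3 := hperm.nodup_iff.mp hnd2
  have htw : t ∉ w := (List.nodup_cons.mp hnd3).1
  have hset : (w ++ [t]).toFinset = (t :: w).toFinset := List.toFinset_eq_of_perm _ _ hperm
  refine funext fun i => ?_
  let s : Fin m → K := Pi.single i 1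
  let x : V → Matrix (Fin (m + 1)) (Fin (m + 1)) K := fun q =>
    if q = y then exi r else if q = t then ent s else blk (x' q)
  have xy : x y = exi r := by simp [x]
  have xt : x t = ent s := by simp [x, Ne.symm hyt]
  have xo : ∀ q, q ≠ y → q ≠ t → x q = blk (x' q) := by
    intro q h1 h2
    simp [x, h1, h2]
  have h0 := row_eq_zero h x (e0 K m)
  rw [show (y :: (w ++ [t])).length = (w.length + 1) + 1 by simp, row_succ,
    sum_eq_single y] at h0
  · rw [xy, e0_exi, toFinset_erase hnd] at h0
    have h1 := congrFun h0 0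
    rw [row_ent x x' t s xt, hset, toFinset_erase hnd3] at h1
    · rw [dotProduct_single, mul_one] at h1
      exact h1
    · simp
    · rw [card_toFinset hnd2]
      simp
    · intro q hq hqt
      rw [List.mem_toFinset, hperm.mem_iff, List.mem_cons] at hq
      have hqw := hq.resolve_left hqt
      exact xo q (fun h' => hyw (h' ▸ hqw)) hqt
  · intro q hq hqy
    by_cases hqt : q = t
    · rw [hqt, xt, e0_ent, row_vec_zero]
    · rw [xo q hqy hqt, e0_blk, row_vec_zero]
  · intro h'
    exact absurd (by simp) h'

/-- (END) -/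
theorem END {p q : V} {c : List V → K} (hpq : p ≠ q) (h : IdL K 1 [p, q] c) :
    c [p, q] + c [q, p] = 0 := by
  have h0 := congrFun (row_eq_zero h (fun _ => 1) (fun _ => 1)) 0
  rw [show ([p, q] : List V).length = 0 + 1 + 1 from rfl, row_succ] at h0
  have e : ([p, q] : List V).toFinset = {p, q} := by simp
  rw [e, sum_pair hpq, vecMul_one, row_succ, row_succ] at h0
  have e1 : ({p, q} : Finset V).erase p = {q} := by
    rw [erase_insert]
    simpa using hpq
  have e2 : ({p, q} : Finset V).erase q = {p} := by
    rw [pair_comm, erase_insert]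
    simpa using Ne.symm hpq
  rw [e1, e2, sum_singleton, sum_singleton, row_zero, row_zero] at h0
  simpa using h0

/-- pairs of letters -/
theorem pairs (k : ℕ) : ∀ (v w : List V) (c : List V → K), (v ++ w).Nodup → v.length = 2 * k →
    IdL K (k + m) (v ++ w) c → IdL K m w (fun s => c (v ++ s)) := by
  induction k with
  | zero =>
    intro v w c hnd hv h
    have : v = [] := List.length_eq_zero_iff.mp (by omega)
    subst this
    rw [Nat.zero_add] at h
    exact h
  | succ k ih =>
    intro v w c hnd hv h
    match v, hv with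
    | p :: l :: v, hv =>
      rw [show k + 1 + m = (k + m) + 1 by ring] at h
      have h1 := L2 (K := K) (p := p) (l := l) (w := v ++ w) hnd h
      have hnd' : (v ++ w).Nodup := (List.nodup_cons.mp (List.nodup_cons.mp hnd).2).2
      exact ih v w (fun s => c (p :: l :: s)) hnd' (by simp at hv; omega) h1
    | [p], hv => simp at hv; omega
    | [], hv => simp at hv

theorem peel_odd {n : ℕ} {S : Finset V} {c : List V → K}
    (h : ∀ x : V → Matrix (Fin n) (Fin n) K, evr x S.card S c = 0)
    (v u : List V) (a b p q : V) (hnd : (v ++ a :: b :: (u ++ [p, q])).Nodup)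
    (hS : (v ++ a :: b :: (u ++ [p, q])).toFinset = S) (hv : v.length % 2 = 0)
    (hu : u.length % 2 = 1) (hn : v.length + u.length + 3 = 2 * n) :
    c (v ++ a :: b :: (u ++ [p, q])) + c (v ++ b :: a :: (u ++ [p, q])) +
      c (v ++ a :: b :: (u ++ [q, p])) + c (v ++ b :: a :: (u ++ [q, p])) = 0 := by
  match u, hu with
  | u1 :: u', hu =>
    obtain ⟨k, hk⟩ : ∃ k, v.length = 2 * k := ⟨v.length / 2, by omega⟩
    obtain ⟨j, hj⟩ : ∃ j, u'.length = 2 * j := ⟨u'.length / 2, by simp at hu; omega⟩
    obtain rfl : n = k + (j + 1 + 1) := by simp at hn; omega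
    have hI : IdL K (k + (j + 1 + 1)) (v ++ a :: b :: (u1 :: u' ++ [p, q])) c := by
      intro x
      rw [← h x, ← hS, card_toFinset hnd]
    have hnd1 := (List.nodup_append.mp hnd).2.1
    have h1 := pairs k v _ c hnd hk hI
    have h2 := L3 (K := K) (w := u' ++ [p, q]) hnd1 h1
    have hnd2 : (u' ++ [p, q]).Nodup := (List.nodup_cons.mp (List.nodup_cons.mp
      (List.nodup_cons.mp hnd1).2).2).2
    have h3 := pairs j u' [p, q] _ hnd2 hj h2
    have hpq : p ≠ q := by
      have := (List.nodup_append.mp hnd2).2.1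
      simpa using this
    have h4 := END hpq h3
    rw [← h4]
    simp only [List.cons_append]
    ring
  | [], hu => simp at hu

theorem peel_even {n : ℕ} {S : Finset V} {c : List V → K}
    (h : ∀ x : V → Matrix (Fin n) (Fin n) K, evr x S.card S c = 0)
    (v u : List V) (a b p q y : V) (hnd : (v ++ a :: b :: (u ++ [p, q, y])).Nodup)
    (hS : (v ++ a :: b :: (u ++ [p, q, y])).toFinset = S) (hv : v.length % 2 = 0)
    (hu : u.length % 2 = 0) (hu0 : u ≠ []) (hn : v.length + u.length + 4 = 2 * n) :
    c (v ++ a :: b :: (u ++ [p, q, y])) + c (v ++ b :: a :: (u ++ [p, q, y])) +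
      c (v ++ a :: b :: (u ++ [q, p, y])) + c (v ++ b :: a :: (u ++ [q, p, y])) = 0 := by
  match u, hu, hu0 with
  | u1 :: u2 :: u', hu, _ =>
    obtain ⟨k, hk⟩ : ∃ k, v.length = 2 * k := ⟨v.length / 2, by omega⟩
    obtain ⟨j, hj⟩ : ∃ j, u'.length = 2 * j := ⟨u'.length / 2, by simp at hu; omega⟩
    obtain rfl : n = k + (j + 1 + 1 + 1) := by simp at hn; omega
    have hI : IdL K (k + (j + 1 + 1 + 1)) (v ++ a :: b :: (u1 :: u2 :: u' ++ [p, q, y])) c := by
      intro x
      rw [← h x, ← hS, card_toFinset hnd]
    have hnd1 := (List.nodup_append.mp hnd).2.1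
    have h1 := pairs k v _ c hnd hk hI
    have h2 := L3 (K := K) (w := u2 :: u' ++ [p, q, y]) hnd1 h1
    have hnd2 : (u2 :: u' ++ [p, q, y]).Nodup := (List.nodup_cons.mp (List.nodup_cons.mp
      (List.nodup_cons.mp hnd1).2).2).2
    have e : u2 :: u' ++ [p, q, y] = u2 :: ((u' ++ [p, q]) ++ [y]) := by simp
    rw [e] at h2 hnd2
    have h3 := LR hnd2 h2
    have hnd3 : (u' ++ [p, q]).Nodup := (List.nodup_append.mp (List.nodup_cons.mp hnd2).2).1
    have h4 := pairs j u' [p, q] _ hnd3 hj h3
    have hpq : p ≠ q := by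
      have := (List.nodup_append.mp hnd3).2.1
      simpa using this
    have h5 := END hpq h4
    rw [← h5]
    simp only [List.cons_append, List.append_assoc, List.nil_append]
    ring
  | [_], hu, _ => simp at hu
  | [], _, h0 => exact absurd rfl h0

end Pool.Agent.Helper49.SL.Peel
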