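import Mathlib

/-!
Matrices over a commutative algebra of characteristic zero all of whose powers have trace zero.
-/

namespace Pool.Agent.Helper49.SL

open Polynomial Matrix

section

variable {R : Type*} [CommRing R] {m : Type*} [Fintype m] [DecidableEq m]

theorem derivative_charpoly_eq (T : Matrix m m R) :
    derivative T.charpoly = trace (adjugate (charmatrix T)) := by
  classical
  rw [Matrix.charpoly, Matrix.det_apply, trace]
  simp only [Matrix.diag_apply, Matrix.adjugate_apply, Matrix.det_apply, derivative_sum]
  have h1 : ∀ σ : Equiv.Perm m, derivative (Equiv.Perm.sign σ • ∏ i, charmatrix T (σ i) i) =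
      ∑ i, Equiv.Perm.sign σ • ∏ j, (charmatrix T).updateRow i (Pi.single i 1) (σ j) j := by
    intro σ
    have h2 : derivative (Equiv.Perm.sign σ • ∏ i, charmatrix T (σ i) i) =
        Equiv.Perm.sign σ • derivative (∏ i, charmatrix T (σ i) i) := by
      rcases Int.units_eq_one_or (Equiv.Perm.sign σ) with h | h
      · rw [h]; simp
      · rw [h]; simp
    rw [h2, derivative_prod_finset, Finset.smul_sum]
    refine Finset.sum_congr rfl fun i _ => ?_
    congr 1
    rw [← Finset.mul_prod_erase Finset.univ _ (Finset.mem_univ i), mul_comm]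
    by_cases hi : σ i = i
    · have h3 : derivative (charmatrix T (σ i) i) = 1 := by
        rw [hi, charmatrix_apply_eq]; simp
      have h4 : (charmatrix T).updateRow i (Pi.single i 1) (σ i) i = 1 := by
        rw [hi]; simp
      rw [h3, h4, one_mul, one_mul]
      refine Finset.prod_congr rfl fun j hj => ?_
      have hji : j ≠ i := (Finset.mem_erase.mp hj).1
      have : σ j ≠ i := fun h => hji (σ.injective (h.trans hi.symm))
      rw [updateRow_ne this]
    · have h3 : derivative (charmatrix T (σ i) i) = 0 := by
        rw [charmatrix_apply_ne _ _ _ hi]; simp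
      rw [h3, zero_mul]
      obtain ⟨j, hj⟩ : ∃ j, σ j = i := ⟨σ.symm i, by simp⟩
      have hji : j ≠ i := by
        rintro rfl
        exact hi hj
      symm
      rw [Finset.prod_eq_zero (i := j)]
      · simp
      · simp [hji]
      · rw [hj, updateRow_self, Pi.single_eq_of_ne hji]
  rw [Finset.sum_congr rfl fun σ _ => h1 σ, Finset.sum_comm]

/-- If all powers `T ^ k`, `k ≥ 1`, have trace zero, then the coefficients of the adjugate of
`X - T` have traces given by the characteristic polynomial. -/
theorem trace_coeff_adj (T : Matrix m m R) (hT : ∀ k, 1 ≤ k → trace (T ^ k) = 0) (k : ℕ) :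
    (trace (adjugate (charmatrix T))).coeff k = (Fintype.card m : R) * T.charpoly.coeff (k + 1) := by
  classical
  set Q := matPolyEquiv (adjugate (charmatrix T)) with hQ
  have hrec : ∀ k, Q.coeff k = (T.charpoly.coeff (k + 1)) • (1 : Matrix m m R) + T * Q.coeff (k + 1) := by
    intro k
    have h1 : matPolyEquiv (charmatrix T * adjugate (charmatrix T)) =
        matPolyEquiv (T.charpoly • (1 : Matrix m m R[X])) := by
      rw [mul_adjugate]; rfl
    rw [map_mul, matPolyEquiv_charmatrix, matPolyEquiv_smul_one, ← hQ] at h1
    have h2 := congrArg (fun p => p.coeff (k + 1)) h1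
    simp only [sub_mul, coeff_sub, coeff_X_mul, coeff_C_mul, coeff_map] at h2
    rw [sub_eq_iff_eq_add] at h2
    rw [h2, Algebra.algebraMap_eq_smul_one]
  have hz : ∀ N k j, Q.natDegree < k + N → 1 ≤ j → trace (T ^ j * Q.coeff k) = 0 := by
    intro N
    induction N with
    | zero =>
      intro k j hk hj
      rw [coeff_eq_zero_of_natDegree_lt (by simpa using hk), mul_zero, trace_zero]
    | succ N ih =>
      intro k j hk hj
      rw [hrec k, mul_add, mul_smul_comm, mul_one, trace_add, trace_smul, hT j hj, smul_zero,
        zero_add, ← mul_assoc, ← pow_succ]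
      exact ih (k + 1) (j + 1) (by omega) (by omega)
  have hc : (trace (adjugate (charmatrix T))).coeff k = trace (Q.coeff k) := by
    rw [trace, trace, finsetSum_coeff]
    refine Finset.sum_congr rfl fun i _ => ?_
    rw [Matrix.diag_apply, Matrix.diag_apply, hQ, matPolyEquiv_coeff_apply]
  rw [hc, hrec k, trace_add, trace_smul, trace_one, smul_eq_mul, mul_comm]
  have := hz (Q.natDegree + 1) (k + 1) 1 (by omega) le_rfl
  rw [pow_one] at this
  rw [this, add_zero]

/-- A matrix over a commutative algebra over a field of characteristic zero all of whose powers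
have trace zero satisfies `T ^ n = 0`. -/
theorem pow_card_eq_zero_of_trace (K : Type*) [Field K] [CharZero K] [Algebra K R]
    (T : Matrix m m R) (hT : ∀ k, 1 ≤ k → trace (T ^ k) = 0) : T ^ Fintype.card m = 0 := by
  classical
  have key : ∀ a : ℕ, 1 ≤ a → ∀ r : R, ((a : ℕ) : R) * r = 0 → r = 0 := by
    intro a ha r h
    have h1 : (algebraMap K R (a : K)) * r = 0 := by simpa using h
    have h2 := congrArg (fun z => algebraMap K R ((a : K)⁻¹) * z) h1
    simp only [← mul_assoc, ← map_mul, mul_zero] at h2
    rwa [inv_mul_cancel₀ (by exact_mod_cast (by omega : a ≠ 0)), map_one, one_mul] at h2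
  by_cases hm : Nonempty m
  swap
  · rw [not_nonempty_iff] at hm
    exact Subsingleton.elim _ _
  have hn : 1 ≤ Fintype.card m := Fintype.card_pos
  by_cases hR : Nontrivial R
  swap
  · rw [not_nontrivial_iff_subsingleton] at hR
    exact Subsingleton.elim _ _
  have hdeg : T.charpoly.natDegree = Fintype.card m := charpoly_natDegree_eq_dim T
  have hmonic : T.charpoly.coeff (Fintype.card m) = 1 := by
    rw [← hdeg]; exact charpoly_monic T
  have hmid : ∀ k, 1 ≤ k → k < Fintype.card m → T.charpoly.coeff k = 0 := by
    intro k hk1 hk2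
    obtain ⟨k, rfl⟩ : ∃ j, k = j + 1 := ⟨k - 1, by omega⟩
    have h := congrArg (fun p => p.coeff k) (derivative_charpoly_eq T)
    rw [trace_coeff_adj T hT k, coeff_derivative] at h
    refine key (Fintype.card m - (k + 1)) (by omega) _ ?_
    rw [Nat.cast_sub hk2.le, sub_mul, sub_eq_zero, ← h, mul_comm]
    push_cast
    ring
  have hCH := aeval_self_charpoly T
  rw [aeval_eq_sum_range, hdeg, Finset.sum_range_succ, hmonic, one_smul] at hCH
  have hsum : ∑ i ∈ Finset.range (Fintype.card m), T.charpoly.coeff i • T ^ i =
      T.charpoly.coeff 0 • (1 : Matrix m m R) := by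
    rw [Finset.sum_eq_single 0]
    · simp
    · intro i hi h0
      rw [hmid i (by omega) (Finset.mem_range.mp hi), zero_smul]
    · intro h
      exact absurd (Finset.mem_range.mpr hn) h
  rw [hsum] at hCH
  have htr := congrArg trace hCH
  rw [trace_add, trace_smul, trace_one, hT _ hn, add_zero, trace_zero, smul_eq_mul, mul_comm] at htr
  have h0 := key _ hn _ htr
  rwa [h0, zero_smul, zero_add] at hCH

end

end Pool.Agent.Helper49.SL
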