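import Mathlib
import Pool.Agent.Helper49.SL.Trace

/-!
Matrices over a supercommutative algebra: the theorem of Amitsur and Levitzki in Rosset's form and
its first and second order polarisations.
-/

set_option linter.unusedSectionVars false

namespace Pool.Agent.Helper49.SL

open Matrix Finset

/-- Even and odd parts of a supercommutative algebra. -/
structure Super (K Λ : Type*) [Field K] [Ring Λ] [Algebra K Λ] where
  ev : Submodule K Λ
  od : Submodule K Λ
  one_mem : (1 : Λ) ∈ ev
  ev_ev : ∀ a ∈ ev, ∀ b ∈ ev, a * b ∈ ev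
  ev_od : ∀ a ∈ ev, ∀ b ∈ od, a * b ∈ od
  od_od : ∀ a ∈ od, ∀ b ∈ od, a * b ∈ ev
  comm : ∀ a ∈ ev, ∀ b, a * b = b * a
  anti : ∀ a ∈ od, ∀ b ∈ od, a * b = -(b * a)

namespace Super

variable {K Λ : Type*} [Field K] [Ring Λ] [Algebra K Λ] (S : Super K Λ)
variable {m : Type*} [Fintype m] [DecidableEq m]

/-- Matrices with even entries. -/
def evM : Submodule K (Matrix m m Λ) where
  carrier := {M | ∀ i j, M i j ∈ S.ev}
  add_mem' := fun ha hb i j => S.ev.add_mem (ha i j) (hb i j)
  zero_mem' := fun _ _ => S.ev.zero_mem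
  smul_mem' := fun c _ ha i j => S.ev.smul_mem c (ha i j)

/-- Matrices with odd entries. -/
def odM : Submodule K (Matrix m m Λ) where
  carrier := {M | ∀ i j, M i j ∈ S.od}
  add_mem' := fun ha hb i j => S.od.add_mem (ha i j) (hb i j)
  zero_mem' := fun _ _ => S.od.zero_mem
  smul_mem' := fun c _ ha i j => S.od.smul_mem c (ha i j)

variable {S}
variable {M N : Matrix m m Λ}

theorem od_ev {a b : Λ} (ha : a ∈ S.od) (hb : b ∈ S.ev) : a * b ∈ S.od := by
  rw [← S.comm b hb a]; exact S.ev_od b hb a ha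

theorem one_memM : (1 : Matrix m m Λ) ∈ S.evM (m := m) := by
  intro i j
  rw [Matrix.one_apply]
  split_ifs
  · exact S.one_mem
  · exact S.ev.zero_mem

theorem ee (hM : M ∈ S.evM (m := m)) (hN : N ∈ S.evM (m := m)) : M * N ∈ S.evM (m := m) := fun i j => by
  rw [Matrix.mul_apply]
  exact S.ev.sum_mem fun k _ => S.ev_ev _ (hM i k) _ (hN k j)

theorem eo (hM : M ∈ S.evM (m := m)) (hN : N ∈ S.odM (m := m)) : M * N ∈ S.odM (m := m) := fun i j => by
  rw [Matrix.mul_apply]
  exact S.od.sum_mem fun k _ => S.ev_od _ (hM i k) _ (hN k j)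

theorem oe (hM : M ∈ S.odM (m := m)) (hN : N ∈ S.evM (m := m)) : M * N ∈ S.odM (m := m) := fun i j => by
  rw [Matrix.mul_apply]
  exact S.od.sum_mem fun k _ => od_ev (hM i k) (hN k j)

theorem oo (hM : M ∈ S.odM (m := m)) (hN : N ∈ S.odM (m := m)) : M * N ∈ S.evM (m := m) := fun i j => by
  rw [Matrix.mul_apply]
  exact S.ev.sum_mem fun k _ => S.od_od _ (hM i k) _ (hN k j)

theorem epow (hM : M ∈ S.evM (m := m)) (k : ℕ) : M ^ k ∈ S.evM (m := m) := by
  induction k with
  | zero => rw [pow_zero]; exact one_memM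
  | succ k ih => rw [pow_succ]; exact ee ih hM

theorem tr_e (hM : M ∈ S.evM (m := m)) : trace (M * N) = trace (N * M) := by
  simp only [trace, Matrix.diag_apply, Matrix.mul_apply]
  rw [Finset.sum_comm]
  exact sum_congr rfl fun i _ => sum_congr rfl fun j _ => S.comm _ (hM j i) _

theorem tr_e' (hN : N ∈ S.evM (m := m)) : trace (M * N) = trace (N * M) := (tr_e hN).symm

theorem tr_o (hM : M ∈ S.odM (m := m)) (hN : N ∈ S.odM (m := m)) : trace (M * N) = -trace (N * M) := by
  simp only [trace, Matrix.diag_apply, Matrix.mul_apply]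
  rw [Finset.sum_comm, ← Finset.sum_neg_distrib]
  refine sum_congr rfl fun i _ => ?_
  rw [← Finset.sum_neg_distrib]
  exact sum_congr rfl fun j _ => S.anti _ (hM j i) _ (hN i j)

theorem opow (hM : M ∈ S.odM (m := m)) (k : ℕ) : (M * M) ^ k * M ∈ S.odM (m := m) :=
  eo (epow (oo hM hM) k) hM

variable [CharZero K]

/-- Amitsur and Levitzki, in the form of Rosset: the square of an odd matrix is nilpotent of
order at most `n`. -/
theorem sq_pow_eq_zero (hM : M ∈ S.odM (m := m)) : (M * M) ^ Fintype.card m = 0 := by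
  classical
  have hT := oo hM hM
  have hc : ∀ i j, (M * M) i j ∈ Subalgebra.center K Λ := by
    intro i j
    rw [Subalgebra.mem_center_iff]
    intro b
    exact (S.comm _ (hT i j) b).symm
  set T' : Matrix m m (Subalgebra.center K Λ) := fun i j => ⟨(M * M) i j, hc i j⟩ with hT'
  have hmap : ∀ k, (T' ^ k).map (Subalgebra.center K Λ).val = (M * M) ^ k := by
    intro k
    have h1 : (T' ^ k).map (Subalgebra.center K Λ).val = (T'.map (Subalgebra.center K Λ).val) ^ k := by
      exact map_pow ((Subalgebra.center K Λ).val.toRingHom.mapMatrix) T' k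
    rw [h1]
    rfl
  have htr : ∀ k, 1 ≤ k → trace (T' ^ k) = 0 := by
    intro k hk
    obtain ⟨k, rfl⟩ : ∃ j, k = j + 1 := ⟨k - 1, by omega⟩
    apply Subtype.val_injective
    have h1 : ((trace (T' ^ (k + 1)) : Subalgebra.center K Λ) : Λ) = trace ((M * M) ^ (k + 1)) := by
      rw [← hmap (k + 1)]
      simp [trace]
    rw [h1]
    have h2 : (M * M) ^ (k + 1) = ((M * M) ^ k * M) * M := by rw [pow_succ]; noncomm_ring
    have h3 : (M * M) ^ (k + 1) = M * ((M * M) ^ k * M) := by
      have hcm : Commute M ((M * M) ^ k) := ((Commute.refl M).mul_right (Commute.refl M)).pow_right k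
      rw [pow_succ', mul_assoc, hcm.eq]
    have h4 := tr_o hM (opow hM k)
    rw [← h2, ← h3] at h4
    have h5 : (2 : K) • trace ((M * M) ^ (k + 1)) = 0 := by
      rw [two_smul]
      nth_rewrite 1 [h4]
      simp
    have := (smul_eq_zero.mp h5).resolve_left two_ne_zero
    simpa using this
  have h := pow_card_eq_zero_of_trace K T' htr
  rw [← hmap, h]
  ext i j
  simp

end Super

section Coef

variable {K A : Type*} [Field K] [Ring A] [Algebra K A] (T D E : A)

/-- Coefficients of `(T + t D + t ^ 2 E) ^ n`. -/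
def cf : ℕ → ℕ → A
  | 0, 0 => 1
  | 0, _ + 1 => 0
  | n + 1, 0 => T * cf n 0
  | n + 1, 1 => T * cf n 1 + D * cf n 0
  | n + 1, k + 2 => T * cf n (k + 2) + D * cf n (k + 1) + E * cf n k

theorem cf_zero (n : ℕ) : cf T D E n 0 = T ^ n := by
  induction n with
  | zero => simp [cf]
  | succ n ih => rw [cf, ih, pow_succ']

theorem cf_large (n : ℕ) : ∀ k, 2 * n < k → cf T D E n k = 0 := by
  induction n with
  | zero =>
    intro k hk
    obtain ⟨k, rfl⟩ : ∃ j, k = j + 1 := ⟨k - 1, by omega⟩
    rw [cf]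
  | succ n ih =>
    intro k hk
    obtain ⟨k, rfl⟩ : ∃ j, k = j + 2 := ⟨k - 2, by omega⟩
    rw [cf, ih _ (by omega), ih _ (by omega), ih _ (by omega)]
    simp

theorem pow_eq_sum_cf (t : K) (n : ℕ) :
    (T + t • D + (t * t) • E) ^ n = ∑ k ∈ range (2 * n + 1), t ^ k • cf T D E n k := by
  induction n with
  | zero => simp [cf]
  | succ n ih =>
    have e0 : ∑ k ∈ range (2 * (n + 1) + 1), t ^ k • cf T D E (n + 1) k =
        ∑ k ∈ range (2 * n + 1), t ^ (k + 2) • cf T D E (n + 1) (k + 2) +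
          t • cf T D E (n + 1) 1 + cf T D E (n + 1) 0 := by
      rw [show 2 * (n + 1) + 1 = (2 * n + 1) + 1 + 1 by ring, Finset.sum_range_succ',
        Finset.sum_range_succ']
      simp only [zero_add, pow_zero, one_smul, pow_one]
    rw [pow_succ', ih, e0]
    have e1 : T * ∑ k ∈ range (2 * n + 1), t ^ k • cf T D E n k =
        ∑ k ∈ range (2 * n + 1), t ^ (k + 2) • (T * cf T D E n (k + 2)) + t • (T * cf T D E n 1)
          + T * cf T D E n 0 := by
      have h : ∑ k ∈ range (2 * n + 1), t ^ k • cf T D E n k =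
          ∑ k ∈ range (2 * n + 1 + 1 + 1), t ^ k • cf T D E n k := by
        rw [Finset.sum_range_succ _ (2 * n + 1 + 1), Finset.sum_range_succ _ (2 * n + 1),
          cf_large _ _ _ _ _ (by omega), cf_large _ _ _ _ _ (by omega)]
        simp
      rw [h, Finset.sum_range_succ', Finset.sum_range_succ', mul_add, mul_add, mul_sum]
      simp only [mul_smul_comm, zero_add, pow_zero, one_smul, pow_one]
    have e2 : D * ∑ k ∈ range (2 * n + 1), t ^ k • cf T D E n k =
        ∑ k ∈ range (2 * n + 1), t ^ (k + 1) • (D * cf T D E n (k + 1)) + D * cf T D E n 0 := by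
      have h : ∑ k ∈ range (2 * n + 1), t ^ k • cf T D E n k =
          ∑ k ∈ range (2 * n + 1 + 1), t ^ k • cf T D E n k := by
        rw [Finset.sum_range_succ _ (2 * n + 1), cf_large _ _ _ _ _ (by omega)]
        simp
      rw [h, Finset.sum_range_succ', mul_add, mul_sum]
      simp only [mul_smul_comm, pow_zero, one_smul]
    rw [add_mul, add_mul, smul_mul_assoc, smul_mul_assoc, e1, e2, mul_sum, smul_add, smul_sum,
      smul_sum]
    simp only [cf, smul_add, Finset.sum_add_distrib, mul_smul_comm, smul_smul]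
    have e3 : ∀ k, t * t ^ (k + 1) = t ^ (k + 2) := fun k => by ring
    have e4 : ∀ k, t * t * t ^ k = t ^ (k + 2) := fun k => by ring
    simp only [e3, e4]
    abel

theorem cf_one (n : ℕ) : cf T D E (n + 1) 1 = ∑ p ∈ antidiagonal n, T ^ p.1 * D * T ^ p.2 := by
  induction n with
  | zero => simp [cf]
  | succ n ih =>
    rw [cf, ih, cf_zero, Finset.Nat.sum_antidiagonal_succ, mul_sum, add_comm]
    simp only [pow_zero, one_mul, pow_succ', mul_assoc]

theorem cf_two (n : ℕ) : cf T D E (n + 1) 2 =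
    ∑ p ∈ antidiagonal n, T ^ p.1 * (E * T ^ p.2 + D * cf T D E p.2 1) := by
  induction n with
  | zero => simp [cf]
  | succ n ih =>
    rw [cf, ih, cf_zero, Finset.Nat.sum_antidiagonal_succ, mul_sum]
    simp only [pow_zero, one_mul, pow_succ', mul_assoc]
    abel

theorem cf_two' (n : ℕ) : cf T D E (n + 2) 2 =
    ∑ p ∈ antidiagonal (n + 1), T ^ p.1 * E * T ^ p.2 +
    ∑ p ∈ antidiagonal n, ∑ q ∈ antidiagonal p.2, T ^ p.1 * D * T ^ q.1 * D * T ^ q.2 := by
  rw [cf_two]
  simp only [mul_add, Finset.sum_add_distrib, ← mul_assoc]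
  congr 1
  rw [Finset.Nat.sum_antidiagonal_succ', show cf T D E 0 1 = 0 from rfl, mul_zero, zero_add]
  refine sum_congr rfl fun p _ => ?_
  rw [cf_one, mul_sum]
  exact sum_congr rfl fun q _ => by simp only [mul_assoc]

theorem coef_eq_zero [CharZero K] {V : Type*} [AddCommGroup V] [Module K V] (N : ℕ) (c : ℕ → V)
    (h : ∀ t : K, ∑ k ∈ range N, t ^ k • c k = 0) : ∀ k < N, c k = 0 := by
  intro k hk
  rw [← Module.forall_dual_apply_eq_zero_iff K]
  intro φ
  have h1 : (∑ k ∈ range N, Polynomial.C (φ (c k)) * Polynomial.X ^ k : Polynomial K) = 0 := by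
    apply Polynomial.funext
    intro t
    have := congrArg φ (h t)
    simp only [map_sum, map_smul, smul_eq_mul, map_zero] at this
    rw [Polynomial.eval_finsetSum, Polynomial.eval_zero, ← this]
    exact sum_congr rfl fun i _ => by
      rw [Polynomial.eval_mul, Polynomial.eval_C, Polynomial.eval_pow, Polynomial.eval_X, mul_comm]
  have h2 := congrArg (fun p => p.coeff k) h1
  simp only [Polynomial.finsetSum_coeff, Polynomial.coeff_C_mul, Polynomial.coeff_X_pow,
    Polynomial.coeff_zero] at h2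
  rw [Finset.sum_eq_single k] at h2
  · simpa using h2
  · intro b _ hb
    simp [Ne.symm hb]
  · intro h
    exact absurd (mem_range.mpr hk) h

end Coef

namespace Super

variable {K Λ : Type*} [Field K] [CharZero K] [Ring Λ] [Algebra K Λ] {S : Super K Λ}
variable {m : Type*} [Fintype m] [DecidableEq m] {X Z : Matrix m m Λ}

theorem cf_eq_zero (hX : X ∈ S.odM (m := m)) (hZ : Z ∈ S.odM (m := m)) (k : ℕ)
    (hk : k < 2 * Fintype.card m + 1) :
    cf (X * X) (X * Z + Z * X) (Z * Z) (Fintype.card m) k = 0 := by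
  refine coef_eq_zero (K := K) (2 * Fintype.card m + 1) _ (fun t => ?_) k hk
  rw [← pow_eq_sum_cf]
  have h1 : X + t • Z ∈ S.odM (m := m) := S.odM.add_mem hX (S.odM.smul_mem t hZ)
  rw [← sq_pow_eq_zero h1]
  congr 1
  rw [mul_add, add_mul, add_mul, smul_mul_assoc, mul_smul_comm, smul_mul_assoc, mul_smul_comm,
    smul_smul, smul_add]
  abel

/-- First order polarisation. -/
theorem R1 {n : ℕ} (hn : Fintype.card m = n + 1) (hX : X ∈ S.odM (m := m))
    (hZ : Z ∈ S.odM (m := m)) :
    ∑ p ∈ antidiagonal n, (X * X) ^ p.1 * (X * Z + Z * X) * (X * X) ^ p.2 = 0 := by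
  have h := cf_eq_zero hX hZ 1 (by omega)
  rwa [hn, cf_one] at h

/-- Second order polarisation. -/
theorem R2 {n : ℕ} (hn : Fintype.card m = n + 2) (hX : X ∈ S.odM (m := m))
    (hZ : Z ∈ S.odM (m := m)) :
    ∑ p ∈ antidiagonal (n + 1), (X * X) ^ p.1 * (Z * Z) * (X * X) ^ p.2 +
    ∑ p ∈ antidiagonal n, ∑ q ∈ antidiagonal p.2, (X * X) ^ p.1 * (X * Z + Z * X) *
      (X * X) ^ q.1 * (X * Z + Z * X) * (X * X) ^ q.2 = 0 := by
  have h := cf_eq_zero hX hZ 2 (by omega)
  rwa [hn, cf_two'] at h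

end Super

end Pool.Agent.Helper49.SL
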