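import Mathlib
import Pool.Agent.Helper49.SL.Super

/-!
Reduction of Lie identities to multilinear ones: spanning by right-normed brackets and
polarisation in the free Lie algebra.
-/

set_option linter.unusedSectionVars false

namespace Pool.Agent.Helper49.SL

open Finset

attribute [local instance 100] LieRing.ofAssociativeRing

section General

variable {K : Type*} [Field K] {L : Type*} [LieRing L] [LieAlgebra K L]

/-- right-normed brackets of a list -/
def rn : List L → L
  | [] => 0
  | [a] => a
  | a :: b :: t => ⁅a, rn (b :: t)⁆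

theorem rn_cons (a : L) {t : List L} (ht : t ≠ []) : rn (a :: t) = ⁅a, rn t⁆ := by
  obtain ⟨b, t, rfl⟩ := List.exists_cons_of_ne_nil ht
  rfl

variable (K) in
/-- product of the adjoint operators of a list -/
def adp (l : List L) : Module.End K L := (l.map (LieAlgebra.ad K L)).prod

theorem adp_nil : adp K ([] : List L) = 1 := rfl

theorem adp_cons (a : L) (l : List L) : adp K (a :: l) = LieAlgebra.ad K L a * adp K l := by
  rw [adp, List.map_cons, List.prod_cons]; rfl

theorem adp_append (l l' : List L) : adp K (l ++ l') = adp K l * adp K l' := by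
  rw [adp, List.map_append, List.prod_append]; rfl

theorem adp_rn (l : List L) {t : List L} (ht : t ≠ []) : adp K l (rn t) = rn (l ++ t) := by
  induction l with
  | nil => rfl
  | cons a l ih =>
    rw [adp_cons, Module.End.mul_apply, ih, LieAlgebra.ad_apply, List.cons_append, rn_cons]
    simp [ht]

variable (K) in
/-- span of the products of adjoint operators over rearrangements -/
def PP (g : ℕ → L) (t : List ℕ) : Submodule K (Module.End K L) :=
  Submodule.span K {M | ∃ l : List ℕ, l.Perm t ∧ M = adp K (l.map g)}

theorem ad_rn_mem (g : ℕ → L) {t : List ℕ} (ht : t ≠ []) :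
    LieAlgebra.ad K L (rn (t.map g)) ∈ PP K g t := by
  induction t with
  | nil => exact absurd rfl ht
  | cons a t ih =>
    rcases eq_or_ne t [] with rfl | ht'
    · exact Submodule.subset_span ⟨[a], List.Perm.refl _, by simp [adp, rn]⟩
    · have hm : t.map g ≠ [] := by simpa using ht'
      rw [List.map_cons, rn_cons _ hm, LieHom.map_lie, Ring.lie_def]
      have h := ih ht'
      refine Submodule.sub_mem _ ?_ ?_
      · have : ∀ M ∈ PP K g t, LieAlgebra.ad K L (g a) * M ∈ PP K g (a :: t) := by
          intro M hM
          induction hM using Submodule.span_induction with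
          | mem M hM =>
            obtain ⟨l, hl, rfl⟩ := hM
            exact Submodule.subset_span ⟨a :: l, hl.cons a, by rw [List.map_cons, adp_cons]⟩
          | zero => rw [mul_zero]; exact Submodule.zero_mem _
          | add M M' _ _ h h' => rw [mul_add]; exact Submodule.add_mem _ h h'
          | smul c M _ h => rw [mul_smul_comm]; exact Submodule.smul_mem _ c h
        exact this _ h
      · have : ∀ M ∈ PP K g t, M * LieAlgebra.ad K L (g a) ∈ PP K g (a :: t) := by
          intro M hM
          induction hM using Submodule.span_induction with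
          | mem M hM =>
            obtain ⟨l, hl, rfl⟩ := hM
            refine Submodule.subset_span ⟨l ++ [a], ?_, ?_⟩
            · exact (List.perm_append_singleton a l).trans (hl.cons a)
            · rw [List.map_append, adp_append, List.map_cons, List.map_nil, adp_cons, adp_nil,
                mul_one]
          | zero => rw [zero_mul]; exact Submodule.zero_mem _
          | add M M' _ _ h h' => rw [add_mul]; exact Submodule.add_mem _ h h'
          | smul c M _ h => rw [smul_mul_assoc]; exact Submodule.smul_mem _ c h
        exact this _ h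

theorem PP_apply_mem {g : ℕ → L} {t : List ℕ} {M : Module.End K L} (hM : M ∈ PP K g t) (y : L) :
    M y ∈ Submodule.span K {z | ∃ l : List ℕ, l.Perm t ∧ z = adp K (l.map g) y} := by
  induction hM using Submodule.span_induction with
  | mem M hM =>
    obtain ⟨l, hl, rfl⟩ := hM
    exact Submodule.subset_span ⟨l, hl, rfl⟩
  | zero => exact Submodule.zero_mem _
  | add M M' _ _ h h' => exact Submodule.add_mem _ h h'
  | smul c M _ h => exact Submodule.smul_mem _ c h

/-- A right-normed bracket is a combination of right-normed brackets ending in a given letter. -/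
theorem rn_mem (g : ℕ → L) (u : List ℕ) : ∀ (y : ℕ) (l₀ : List ℕ), u.Perm (y :: l₀) →
    rn (u.map g) ∈ Submodule.span K {z | ∃ l : List ℕ, l.Perm l₀ ∧ z = adp K (l.map g) (g y)} := by
  induction u with
  | nil => intro y l₀ h; exact absurd h.symm (by simp)
  | cons a t ih =>
    intro y l₀ h
    by_cases hay : a = y
    · subst hay
      have ht : t.Perm l₀ := (List.perm_cons a).mp h
      rcases eq_or_ne t [] with rfl | ht'
      · refine Submodule.subset_span ⟨[], ht, ?_⟩
        rfl
      · have hm : t.map g ≠ [] := by simpa using ht'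
        rw [List.map_cons, rn_cons _ hm, ← lie_skew]
        refine Submodule.neg_mem _ ?_
        have h1 := PP_apply_mem (ad_rn_mem (K := K) g ht') (g a)
        rw [LieAlgebra.ad_apply] at h1
        refine Submodule.span_mono ?_ h1
        rintro z ⟨l, hl, rfl⟩
        exact ⟨l, hl.trans ht, rfl⟩
    · have hy : y ∈ t := by
        have : y ∈ a :: t := h.symm.subset (by simp)
        rcases List.mem_cons.mp this with h' | h'
        · exact absurd h'.symm hay
        · exact h'
      have ht : t.Perm (y :: t.erase y) := List.perm_cons_erase hy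
      have hl : (a :: t.erase y).Perm l₀ := by
        have h1 : (y :: (a :: t.erase y)).Perm (y :: l₀) :=
          ((List.Perm.swap a y (t.erase y)).trans (ht.symm.cons a)).trans h
        exact (List.perm_cons y).mp h1
      have hne : t ≠ [] := List.ne_nil_of_mem hy
      have hm : t.map g ≠ [] := by simpa using hne
      rw [List.map_cons, rn_cons _ hm]
      have h1 := ih y _ ht
      have : ∀ z ∈ Submodule.span K {z | ∃ l : List ℕ, l.Perm (t.erase y) ∧
          z = adp K (l.map g) (g y)}, ⁅g a, z⁆ ∈ Submodule.span K
            {z | ∃ l : List ℕ, l.Perm l₀ ∧ z = adp K (l.map g) (g y)} := by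
        intro z hz
        induction hz using Submodule.span_induction with
        | mem z hz =>
          obtain ⟨l, hl', rfl⟩ := hz
          refine Submodule.subset_span ⟨a :: l, (hl'.cons a).trans hl, ?_⟩
          rw [List.map_cons, adp_cons, Module.End.mul_apply, LieAlgebra.ad_apply]
        | zero => rw [lie_zero]; exact Submodule.zero_mem _
        | add M M' _ _ h h' => rw [lie_add]; exact Submodule.add_mem _ h h'
        | smul c M _ h => rw [lie_smul]; exact Submodule.smul_mem _ c h
      exact this _ h1

/-- span of the right-normed brackets of length `e` -/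
def RN (K : Type*) [Field K] {L : Type*} [LieRing L] [LieAlgebra K L] (g : ℕ → L) (e : ℕ) :
    Submodule K L :=
  Submodule.span K {z | ∃ u : List ℕ, u.length = e ∧ z = rn (u.map g)}

theorem adp_mem_RN (g : ℕ → L) {p q : ℕ} (hq : q ≠ 0) {h : L} (hh : h ∈ RN K g q)
    (l : List ℕ) (hl : l.length = p) : adp K (l.map g) h ∈ RN K g (p + q) := by
  induction hh using Submodule.span_induction with
  | mem h hh =>
    obtain ⟨v, hv, rfl⟩ := hh
    have hv' : v.map g ≠ [] := by
      intro h0
      apply hq
      rw [← hv, ← List.length_map (f := g), h0]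
      rfl
    refine Submodule.subset_span ⟨l ++ v, ?_, ?_⟩
    · rw [List.length_append, hl, hv]
    · rw [adp_rn _ hv', List.map_append]
  | zero => rw [map_zero]; exact Submodule.zero_mem _
  | add x y _ _ hx hy => rw [map_add]; exact Submodule.add_mem _ hx hy
  | smul c x _ hx => rw [map_smul]; exact Submodule.smul_mem _ c hx

theorem RN_lie (g : ℕ → L) {p q : ℕ} (hp : p ≠ 0) (hq : q ≠ 0) {f h : L} (hf : f ∈ RN K g p)
    (hh : h ∈ RN K g q) : ⁅f, h⁆ ∈ RN K g (p + q) := by
  induction hf using Submodule.span_induction with
  | mem f hf =>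
    obtain ⟨u, hu, rfl⟩ := hf
    have hu' : u ≠ [] := by
      rintro rfl
      exact hp (by simpa using hu.symm)
    have h1 := PP_apply_mem (ad_rn_mem (K := K) g hu') h
    rw [LieAlgebra.ad_apply] at h1
    refine (Submodule.span_le.mpr ?_) h1
    rintro z ⟨l, hl, rfl⟩
    exact adp_mem_RN g hq hh l (hl.length_eq.trans hu)
  | zero => rw [zero_lie]; exact Submodule.zero_mem _
  | add x y _ _ hx hy => rw [add_lie]; exact Submodule.add_mem _ hx hy
  | smul c x _ hx => rw [smul_lie]; exact Submodule.smul_mem _ c hx

/-- the right-normed bracket as a multilinear map -/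
noncomputable def RM (K : Type*) [Field K] (L : Type*) [LieRing L] [LieAlgebra K L] :
    (k : ℕ) → MultilinearMap K (fun _ : Fin (k + 1) => L) L
  | 0 => MultilinearMap.ofSubsingleton K L L (0 : Fin 1) LinearMap.id
  | k + 1 => LinearMap.uncurryLeft
      { toFun := fun x => (LieAlgebra.ad K L x).compMultilinearMap (RM K L k)
        map_add' := fun x y => by
          ext u
          simp
        map_smul' := fun c x => by
          ext u
          simp }

theorem RM_apply (k : ℕ) (u : Fin (k + 1) → L) : RM K L k u = rn (List.ofFn u) := by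
  induction k with
  | zero => simp [RM, rn]
  | succ k ih =>
    rw [List.ofFn_succ, rn_cons _ (by simp), ← ih]
    rfl

end General

section Polar

variable {K : Type*} [Field K] {L : Type*} [LieRing L] [LieAlgebra K L]

theorem sum_perm_eq {V : Type*} [AddCommMonoid V] {e : ℕ} (F : (Fin e → Fin e) → V) :
    ∑ σ : Equiv.Perm (Fin e), F σ =
      ∑ j : Fin e → Fin e, if (Finset.univ \ Finset.univ.image j) = ∅ then F j else 0 := by
  classical
  let emb : Equiv.Perm (Fin e) ↪ (Fin e → Fin e) := ⟨fun σ => σ, DFunLike.coe_injective⟩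
  have key : ∀ j : Fin e → Fin e, (Finset.univ \ Finset.univ.image j) = ∅ ↔ Function.Bijective j := by
    intro j
    rw [Finset.sdiff_eq_empty_iff_subset, Finite.injective_iff_bijective.symm,
      Finite.injective_iff_surjective]
    constructor
    · intro h b
      have := h (mem_univ b)
      rw [mem_image] at this
      obtain ⟨a, _, ha⟩ := this
      exact ⟨a, ha⟩
    · intro h b _
      obtain ⟨a, ha⟩ := h b
      rw [mem_image]
      exact ⟨a, mem_univ a, ha⟩
  rw [← Finset.sum_subset (Finset.subset_univ (Finset.univ.map emb)), Finset.sum_map]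
  · refine sum_congr rfl fun σ _ => ?_
    exact (if_pos ((key _).mpr σ.bijective)).symm
  · intro j _ hj
    rw [if_neg]
    intro h
    apply hj
    rw [Finset.mem_map]
    exact ⟨Equiv.ofBijective j ((key j).mp h), mem_univ _, rfl⟩

theorem incl_excl {V : Type*} [AddCommGroup V] {e : ℕ} (F : (Fin e → Fin e) → V)
    (h : ∀ S : Finset (Fin e), ∑ j : Fin e → Fin e, (if ∀ i, j i ∉ S then F j else 0) = 0) :
    ∑ σ : Equiv.Perm (Fin e), F σ = 0 := by
  classical
  rw [sum_perm_eq]
  have h1 : ∑ S : Finset (Fin e), (-1 : ℤ) ^ S.card •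
      ∑ j : Fin e → Fin e, (if ∀ i, j i ∉ S then F j else 0) = 0 := by
    refine sum_eq_zero fun S _ => ?_
    rw [h S, smul_zero]
  refine Eq.trans ?_ h1
  simp only [Finset.smul_sum]
  rw [Finset.sum_comm]
  refine sum_congr rfl fun j _ => ?_
  have h2 : ∑ S : Finset (Fin e), (-1 : ℤ) ^ S.card • (if ∀ i, j i ∉ S then F j else 0) =
      (∑ S ∈ (Finset.univ \ Finset.univ.image j).powerset, (-1 : ℤ) ^ S.card) • F j := by
    rw [Finset.sum_smul, ← Finset.sum_subset (Finset.subset_univ
      (Finset.univ \ Finset.univ.image j).powerset)]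
    · refine sum_congr rfl fun S hS => ?_
      rw [if_pos]
      intro i hi
      have := Finset.mem_powerset.mp hS hi
      rw [mem_sdiff] at this
      exact this.2 (mem_image_of_mem _ (mem_univ i))
    · intro S _ hS
      rw [if_neg, smul_zero]
      intro h'
      apply hS
      rw [Finset.mem_powerset]
      intro a ha
      rw [mem_sdiff]
      refine ⟨mem_univ a, fun hm => ?_⟩
      rw [mem_image] at hm
      obtain ⟨i, _, rfl⟩ := hm
      exact h' i ha
  rw [h2, Finset.sum_powerset_neg_one_pow_card]
  split_ifs <;> simp

theorem polar {k r : ℕ} (c : (Fin (k + 1) → Fin r) → K) (l : Fin (k + 1) → Fin r)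
    (w : Fin (k + 1) → L)
    (h : ∀ v : Fin r → L, ∑ u : Fin (k + 1) → Fin r, c u • RM K L k (v ∘ u) = 0) :
    ∑ σ : Equiv.Perm (Fin (k + 1)), c (l ∘ σ) • RM K L k (w ∘ σ) = 0 := by
  classical
  refine incl_excl (fun j => c (l ∘ j) • RM K L k (w ∘ j)) fun S => ?_
  refine Eq.trans ?_ (h (fun i => ∑ j : Fin (k + 1), if l j = i ∧ j ∉ S then w j else 0))
  have h1 : ∀ u : Fin (k + 1) → Fin r, RM K L k
      ((fun i => ∑ j : Fin (k + 1), if l j = i ∧ j ∉ S then w j else 0) ∘ u) =
      ∑ j : Fin (k + 1) → Fin (k + 1), if (∀ i, j i ∉ S) ∧ u = l ∘ j then RM K L k (w ∘ j) else 0 := by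
    intro u
    have e : ((fun i => ∑ j : Fin (k + 1), if l j = i ∧ j ∉ S then w j else 0) ∘ u) =
      fun p => ∑ j : Fin (k + 1), (fun p j => if l j = u p ∧ j ∉ S then w j else 0) p j := rfl
    rw [e, MultilinearMap.map_sum]
    refine sum_congr rfl fun j _ => ?_
    by_cases hc : (∀ i, j i ∉ S) ∧ u = l ∘ j
    · rw [if_pos hc]
      congr 1
      funext p
      have : l (j p) = u p ∧ j p ∉ S := ⟨by rw [hc.2]; rfl, hc.1 p⟩
      simp only [if_pos this]
      rfl
    · rw [if_neg hc]
      have : ∃ p, ¬ (l (j p) = u p ∧ j p ∉ S) := by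
        by_contra hn
        apply hc
        push Not at hn
        exact ⟨fun i => (hn i).2, funext fun p => ((hn p).1).symm⟩
      obtain ⟨p, hp⟩ := this
      apply MultilinearMap.map_coord_zero (i := p)
      simp only [if_neg hp]
  simp only [h1, Finset.smul_sum]
  rw [Finset.sum_comm]
  refine sum_congr rfl fun j _ => ?_
  by_cases hc : ∀ i, j i ∉ S
  · rw [if_pos hc, Finset.sum_eq_single (l ∘ j)]
    · rw [if_pos ⟨hc, rfl⟩]
    · intro u _ hu
      rw [if_neg (fun h => hu h.2), smul_zero]
    · intro h
      exact absurd (mem_univ _) h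
  · rw [if_neg hc]
    symm
    refine sum_eq_zero fun u _ => ?_
    rw [if_neg (fun h => hc h.1), smul_zero]

end Polar

end Pool.Agent.Helper49.SL
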