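import Mathlib
import Pool.Agent.Helper49.SL.Reduct

/-!
Reduction of Lie identities to multilinear ones.
-/

set_option linter.unusedSectionVars false

namespace Pool.Agent.Helper49.SL

open Finset

attribute [local instance 100] LieRing.ofAssociativeRing

/-- Injectivity of the multilinear evaluation with `k` operators. -/
def Inj (K : Type*) [Field K] (L : Type*) [LieRing L] [LieAlgebra K L] (k : ℕ) : Prop :=
  ∀ a : Equiv.Perm (Fin k) → K,
    (∀ (x : Fin k → L) (y : L), ∑ τ, a τ • (adp K (List.ofFn (x ∘ τ)) y) = 0) → a = 0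

section Nat

variable {K : Type*} [Field K] {L L' : Type*} [LieRing L] [LieAlgebra K L] [LieRing L']
  [LieAlgebra K L']

theorem map_rn (φ : L →ₗ⁅K⁆ L') (l : List L) : φ (rn l) = rn (l.map φ) := by
  induction l with
  | nil => simp [rn]
  | cons a t ih =>
    rcases eq_or_ne t [] with rfl | ht
    · rfl
    · rw [rn_cons _ ht, LieHom.map_lie, ih, List.map_cons, rn_cons]
      simpa using ht

theorem map_adp (φ : L →ₗ⁅K⁆ L') (l : List L) (y : L) :
    φ (adp K l y) = adp K (l.map φ) (φ y) := by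
  induction l with
  | nil => rfl
  | cons a t ih =>
    rw [adp_cons, Module.End.mul_apply, LieAlgebra.ad_apply, LieHom.map_lie, ih, List.map_cons,
      adp_cons, Module.End.mul_apply, LieAlgebra.ad_apply]

end Nat

section Main

variable (K : Type*) [Field K]

/-- right-normed bracket of generators -/
noncomputable def Rf (e r : ℕ) (u : Fin e → Fin r) : FreeLieAlgebra K ℕ :=
  rn (List.ofFn (fun i => FreeLieAlgebra.of K (u i : ℕ)))

/-- span of right-normed brackets of length at most `d` in the first `r` generators -/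
noncomputable def MM (d r : ℕ) : Submodule K (FreeLieAlgebra K ℕ) :=
  Submodule.span K (Set.range fun p : (Σ e : Fin (d + 1), (Fin (e : ℕ) → Fin r)) =>
    Rf K p.1 r p.2)

variable {K}

theorem MM_mono (d : ℕ) {r r' : ℕ} (h : r ≤ r') : MM K d r ≤ MM K d r' := by
  refine Submodule.span_mono ?_
  rintro _ ⟨⟨e, u⟩, rfl⟩
  exact ⟨⟨e, fun i => Fin.castLE h (u i)⟩, rfl⟩

theorem rn_mem_MM (d : ℕ) (u : List ℕ) (hu : u.length ≤ d) (r : ℕ) (hr : ∀ x ∈ u, x < r) :
    rn (u.map (FreeLieAlgebra.of K)) ∈ MM K d r := by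
  refine Submodule.subset_span ⟨⟨⟨u.length, by omega⟩, fun i => ⟨u.get i, hr _ (List.get_mem u i)⟩⟩,
    ?_⟩
  show rn (List.ofFn (fun i => FreeLieAlgebra.of K (u.get i))) = _
  congr 1
  rw [show (fun i => FreeLieAlgebra.of K (u.get i)) = (FreeLieAlgebra.of K) ∘ u.get from rfl,
    ← List.map_ofFn, List.ofFn_get]

theorem RN_le (d e : ℕ) (he : e ≤ d) :
    RN K (FreeLieAlgebra.of K) e ≤ ⨆ r, MM K d r := by
  refine Submodule.span_le.mpr ?_
  rintro _ ⟨u, hu, rfl⟩
  refine Submodule.mem_iSup_of_mem (u.sum + 1) (rn_mem_MM d u (by omega) _ ?_)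
  intro x hx
  have := List.single_le_sum (fun y _ => Nat.zero_le y) x hx
  omega

theorem exists_repr (d : ℕ) {f : FreeLieAlgebra K ℕ} (hf : f ∈ ⨆ r, MM K d r) :
    ∃ (r : ℕ) (c : (e : ℕ) → (Fin e → Fin r) → K),
      f = ∑ e ∈ range (d + 1), ∑ u : Fin e → Fin r, c e u • Rf K e r u := by
  rw [Submodule.mem_iSup_of_directed] at hf
  · obtain ⟨r, hf⟩ := hf
    rw [MM, Submodule.mem_span_range_iff_exists_fun] at hf
    obtain ⟨c, hc⟩ := hf
    refine ⟨r, fun e u => if h : e < d + 1 then c ⟨⟨e, h⟩, u⟩ else 0, ?_⟩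
    rw [← hc, Fintype.sum_sigma, ← Fin.sum_univ_eq_sum_range (fun e => ∑ u : Fin e → Fin r,
      (if h : e < d + 1 then c ⟨⟨e, h⟩, u⟩ else 0) • Rf K e r u)]
    refine sum_congr rfl fun e _ => sum_congr rfl fun u _ => ?_
    rw [dif_pos e.2]
  · intro i j
    exact ⟨max i j, MM_mono d (le_max_left _ _), MM_mono d (le_max_right _ _)⟩

variable {L : Type*} [LieRing L] [LieAlgebra K L]

theorem lift_Rf (e r : ℕ) (u : Fin e → Fin r) (v : ℕ → L) :
    FreeLieAlgebra.lift K v (Rf K e r u) = rn (List.ofFn (fun i => v (u i : ℕ))) := by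
  rw [Rf, map_rn, List.map_ofFn]
  congr 2
  funext i
  exact FreeLieAlgebra.lift_of_apply v _

theorem rn_smul (s : K) (l : List L) : rn (l.map (s • ·)) = s ^ l.length • rn l := by
  induction l with
  | nil => simp [rn]
  | cons a t ih =>
    rcases eq_or_ne t [] with rfl | ht
    · simp [rn]
    · rw [List.map_cons, rn_cons, ih, rn_cons _ ht, smul_lie, lie_smul, smul_smul,
        List.length_cons, pow_succ']
      simpa using ht

/-- permutations of `range k` as lists -/
theorem exists_perm_of_list {k : ℕ} {l : List ℕ} (hl : l.Perm (List.range k)) :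
    ∃ τ : Equiv.Perm (Fin k), l = List.ofFn (fun i => (τ i : ℕ)) := by
  have hlen : l.length = k := by rw [hl.length_eq, List.length_range]
  have hnd : l.Nodup := hl.nodup_iff.mpr List.nodup_range
  have hlt : ∀ x ∈ l, x < k := fun x hx => List.mem_range.mp (hl.subset hx)
  subst hlen
  let f : Fin l.length → Fin l.length := fun i => ⟨l.get i, hlt _ (List.get_mem l i)⟩
  have hf : Function.Injective f := by
    intro i j hij
    have h1 : l.get i = l.get j := congrArg Fin.val hij
    exact (List.nodup_iff_injective_get.mp hnd) h1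
  refine ⟨Equiv.ofBijective f (Finite.injective_iff_bijective.mp hf), ?_⟩
  have : (fun i => ((Equiv.ofBijective f (Finite.injective_iff_bijective.mp hf)) i : ℕ)) = l.get := by
    funext i
    rfl
  rw [this, List.ofFn_get]

theorem multilinear_mem (k : ℕ) (σ : Equiv.Perm (Fin (k + 1))) (g : ℕ → L) :
    rn (List.ofFn (fun i => g (σ i : ℕ))) ∈ Submodule.span K (Set.range fun τ : Equiv.Perm (Fin k) =>
      adp K (List.ofFn (fun i => g (τ i : ℕ))) (g k)) := by
  have hp : (List.ofFn (fun i => (σ i : ℕ))).Perm (k :: List.range k) := by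
    have h1 : (List.ofFn (fun i => (σ i : ℕ))).Perm (List.ofFn (fun i : Fin (k + 1) => (i : ℕ))) :=
      Equiv.Perm.ofFn_comp_perm σ (fun i : Fin (k + 1) => (i : ℕ))
    have h2 : List.ofFn (fun i : Fin (k + 1) => (i : ℕ)) = List.range (k + 1) := by
      refine List.ext_getElem (by simp) fun i h1 h2 => ?_
      rw [List.getElem_ofFn, List.getElem_range]
    rw [h2, List.range_succ] at h1
    exact h1.trans (List.perm_append_singleton k _)
  have h := rn_mem (K := K) g _ _ _ hp
  rw [List.map_ofFn] at h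
  refine Submodule.span_mono ?_ h
  rintro _ ⟨l, hl, rfl⟩
  obtain ⟨τ, rfl⟩ := exists_perm_of_list hl
  refine ⟨τ, ?_⟩
  simp only [List.map_ofFn]
  rfl

end Main

end Pool.Agent.Helper49.SL
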