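import Mathlib
import Pool.Agent.Helper49.SL.Reduct2

/-!
Reduction of Lie identities to multilinear ones: the main statement.
-/

set_option linter.unusedSectionVars false

namespace Pool.Agent.Helper49.SL

open Finset

attribute [local instance 100] LieRing.ofAssociativeRing

section Main

variable {K : Type*} [Field K] [CharZero K] {L : Type*} [LieRing L] [LieAlgebra K L]

theorem scale_part (d r : ℕ) (c : (e : ℕ) → (Fin e → Fin r) → K)
    (h : ∀ v : ℕ → L, FreeLieAlgebra.lift K v
      (∑ e ∈ range (d + 1), ∑ u : Fin e → Fin r, c e u • Rf K e r u) = 0)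
    (e : ℕ) (he : e ≤ d) (v : ℕ → L) :
    ∑ u : Fin e → Fin r, c e u • rn (List.ofFn (fun i => v (u i : ℕ))) = 0 := by
  refine coef_eq_zero (K := K) (d + 1)
    (fun e => ∑ u : Fin e → Fin r, c e u • rn (List.ofFn (fun i => v (u i : ℕ)))) ?_ e (by omega)
  intro t
  have h1 := h (fun i => t • v i)
  rw [map_sum] at h1
  rw [← h1]
  refine sum_congr rfl fun e _ => ?_
  rw [map_sum, Finset.smul_sum]
  refine sum_congr rfl fun u _ => ?_
  rw [map_smul, lift_Rf, smul_comm]
  congr 1
  have := rn_smul t (List.ofFn (fun i => v (u i : ℕ)))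
  rw [List.length_ofFn, List.map_ofFn] at this
  rw [← this]
  rfl

theorem restitute (k r : ℕ) (hI : Inj K L k) (c : (Fin (k + 1) → Fin r) → K)
    (h : ∀ v : ℕ → L, ∑ u : Fin (k + 1) → Fin r, c u • rn (List.ofFn (fun i => v (u i : ℕ))) = 0)
    (l : Fin (k + 1) → Fin r) :
    ∑ σ : Equiv.Perm (Fin (k + 1)), c (l ∘ σ) • Rf K (k + 1) r (l ∘ σ) = 0 := by
  classical
  have hX : ∑ σ : Equiv.Perm (Fin (k + 1)), c (l ∘ σ) •
      rn (List.ofFn (fun i => FreeLieAlgebra.of K (σ i : ℕ))) ∈
      Submodule.span K (Set.range fun τ : Equiv.Perm (Fin k) =>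
      adp K (List.ofFn (fun i => FreeLieAlgebra.of K (τ i : ℕ))) (FreeLieAlgebra.of K k)) :=
    Submodule.sum_mem _ fun σ _ => Submodule.smul_mem _ _
      (multilinear_mem k σ (FreeLieAlgebra.of K))
  rw [Submodule.mem_span_range_iff_exists_fun] at hX
  obtain ⟨a, ha⟩ := hX
  have ha0 : a = 0 := by
    refine hI a fun x y => ?_
    let v : ℕ → L := fun i => if h : i < k then x ⟨i, h⟩ else y
    have e1 := congrArg (FreeLieAlgebra.lift K v) ha
    rw [map_sum, map_sum] at e1
    have e2 : ∑ σ : Equiv.Perm (Fin (k + 1)), FreeLieAlgebra.lift K v (c (l ∘ σ) •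
        rn (List.ofFn (fun i => FreeLieAlgebra.of K (σ i : ℕ)))) = 0 := by
      have e3 := polar (K := K) (L := L) c l (fun i => v (i : ℕ)) (fun v' => by
        have := h (fun i => if h : i < r then v' ⟨i, h⟩ else 0)
        rw [← this]
        refine sum_congr rfl fun u _ => ?_
        rw [RM_apply]
        congr 3
        funext i
        simp)
      rw [← e3]
      refine sum_congr rfl fun σ _ => ?_
      rw [map_smul, map_rn, List.map_ofFn, RM_apply]
      congr 3
      funext i
      exact FreeLieAlgebra.lift_of_apply v _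
    rw [e2] at e1
    rw [← e1]
    refine sum_congr rfl fun τ _ => ?_
    rw [map_smul, map_adp, List.map_ofFn, FreeLieAlgebra.lift_of_apply]
    congr 2
    · congr 2
      funext i
      show x (τ i) = FreeLieAlgebra.lift K v (FreeLieAlgebra.of K (τ i : ℕ))
      rw [FreeLieAlgebra.lift_of_apply]
      simp [v]
    · simp [v]
  rw [ha0] at ha
  simp only [Pi.zero_apply, zero_smul, sum_const_zero] at ha
  have e4 := congrArg (FreeLieAlgebra.lift K
    (fun i => if h : i < k + 1 then FreeLieAlgebra.of K (l ⟨i, h⟩ : ℕ) else 0)) ha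
  rw [map_zero, map_sum] at e4
  rw [e4]
  refine sum_congr rfl fun σ _ => ?_
  rw [map_smul, map_rn, List.map_ofFn, Rf]
  congr 3
  funext i
  show _ = FreeLieAlgebra.lift K _ (FreeLieAlgebra.of K (σ i : ℕ))
  rw [FreeLieAlgebra.lift_of_apply, dif_pos (σ i).isLt]
  rfl

theorem part_eq_zero (k r : ℕ) (hI : Inj K L k) (c : (Fin (k + 1) → Fin r) → K)
    (h : ∀ v : ℕ → L, ∑ u : Fin (k + 1) → Fin r, c u • rn (List.ofFn (fun i => v (u i : ℕ))) = 0) :
    ∑ u : Fin (k + 1) → Fin r, c u • Rf K (k + 1) r u = 0 := by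
  classical
  have h1 : ∑ l : Fin (k + 1) → Fin r, ∑ σ : Equiv.Perm (Fin (k + 1)),
      c (l ∘ σ) • Rf K (k + 1) r (l ∘ σ) = 0 :=
    sum_eq_zero fun l _ => restitute k r hI c h l
  rw [Finset.sum_comm] at h1
  have h2 : ∀ σ : Equiv.Perm (Fin (k + 1)), ∑ l : Fin (k + 1) → Fin r,
      c (l ∘ σ) • Rf K (k + 1) r (l ∘ σ) = ∑ u : Fin (k + 1) → Fin r, c u • Rf K (k + 1) r u := by
    intro σ
    exact Fintype.sum_equiv (Equiv.arrowCongr σ.symm (Equiv.refl _)) _ _ (fun l => rfl)
  simp only [h2, sum_const, ← Nat.cast_smul_eq_nsmul K] at h1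
  refine (smul_eq_zero.mp h1).resolve_left ?_
  simp only [Finset.card_univ, Fintype.card_perm, Fintype.card_fin]
  exact_mod_cast (Nat.factorial_ne_zero (k + 1))

theorem eq_zero_of_inj (d : ℕ) (hI : ∀ k, k < d → Inj K L k) {f : FreeLieAlgebra K ℕ}
    (hf : f ∈ ⨆ r, MM K d r) (h : ∀ v : ℕ → L, FreeLieAlgebra.lift K v f = 0) : f = 0 := by
  obtain ⟨r, c, rfl⟩ := exists_repr d hf
  refine sum_eq_zero fun e he => ?_
  have he' : e ≤ d := by
    have := mem_range.mp he
    omega
  rcases e with _ | k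
  · refine sum_eq_zero fun u _ => ?_
    simp [Rf, rn]
  · exact part_eq_zero k r (hI k (by omega)) (c (k + 1)) (scale_part d r c h (k + 1) he')

end Main

end Pool.Agent.Helper49.SL
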