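import Mathlib
import Pool.Agent.Helper49.SL.Reduct3

/-!
Reduction of Lie identities of `sl_n` to multilinear identities of `gl_n`.
-/

set_option linter.unusedSectionVars false

namespace Pool.Agent.Helper49.SL

open Finset Equiv.Perm

attribute [local instance 100] LieRing.ofAssociativeRing

section Step

variable {K : Type*} [Field K] {L : Type*} [LieRing L] [LieAlgebra K L]

theorem inj_step (k : ℕ) (h : Inj K L (k + 1)) : Inj K L k := by
  classical
  intro a ha
  let a' : Equiv.Perm (Fin (k + 1)) → K := fun σ =>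
    if (decomposeFin σ).1 = 0 then a (decomposeFin σ).2 else 0
  have h0 : a' = 0 := by
    refine h a' fun x y => ?_
    rw [← Equiv.sum_comp decomposeFin.symm, Fintype.sum_prod_type, Fin.sum_univ_succ]
    have h1 : ∀ (i : Fin k) (τ : Equiv.Perm (Fin k)), a' (decomposeFin.symm (i.succ, τ)) = 0 := by
      intro i τ
      simp only [a', Equiv.apply_symm_apply]
      rw [if_neg (Fin.succ_ne_zero i)]
    have h2 : ∀ τ : Equiv.Perm (Fin k), a' (decomposeFin.symm (0, τ)) = a τ := by
      intro τ
      simp only [a', Equiv.apply_symm_apply, if_true]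
    simp only [h1, h2, zero_smul, sum_const_zero, add_zero]
    have h3 : ∀ τ : Equiv.Perm (Fin k), adp K (List.ofFn (x ∘ (decomposeFin.symm (0, τ)))) y =
        LieAlgebra.ad K L (x 0) (adp K (List.ofFn ((fun i => x (Fin.succ i)) ∘ τ)) y) := by
      intro τ
      rw [List.ofFn_succ, adp_cons, Module.End.mul_apply, Function.comp_apply,
        decomposeFin_symm_apply_zero]
      have e : (fun i : Fin k => (x ∘ (decomposeFin.symm (0, τ))) i.succ) =
          ((fun i => x (Fin.succ i)) ∘ τ) := by
        funext i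
        rw [Function.comp_apply, decomposeFin_symm_apply_succ, Equiv.swap_self]
        rfl
      rw [e]
    simp only [h3]
    have h4 := congrArg (LieAlgebra.ad K L (x 0)) (ha (fun i => x (Fin.succ i)) y)
    rw [map_sum, map_zero] at h4
    rw [← h4]
    exact sum_congr rfl fun τ _ => (map_smul _ _ _).symm
  funext τ
  have h5 := congrFun h0 (decomposeFin.symm (0, τ))
  simp only [a', Equiv.apply_symm_apply, if_true, Pi.zero_apply] at h5
  rw [h5]
  rfl

theorem inj_le {k k' : ℕ} (hk : k ≤ k') (h : Inj K L k') : Inj K L k := by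
  induction k', hk using Nat.le_induction with
  | base => exact h
  | succ k' _ ih => exact ih (inj_step k' h)

end Step

section Matrix

variable {K : Type*} [Field K] [CharZero K] {n : ℕ}

theorem adp_congr {L : Type*} [LieRing L] [LieAlgebra K L] {l l' : List L}
    (h : List.Forall₂ (fun a b => LieAlgebra.ad K L a = LieAlgebra.ad K L b) l l') :
    adp K l = adp K l' := by
  induction h with
  | nil => rfl
  | cons h1 _ ih => rw [adp_cons, adp_cons, h1, ih]

theorem ad_sub_scalar (x : Matrix (Fin n) (Fin n) K) (c : K) :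
    LieAlgebra.ad K (Matrix (Fin n) (Fin n) K) (x - c • (1 : Matrix (Fin n) (Fin n) K)) =
      LieAlgebra.ad K (Matrix (Fin n) (Fin n) K) x := by
  rw [map_sub, map_smul]
  have : LieAlgebra.ad K (Matrix (Fin n) (Fin n) K) 1 = 0 := by
    ext y : 1
    rw [LieAlgebra.ad_apply, Ring.lie_def, one_mul, mul_one, sub_self]
    rfl
  rw [this, smul_zero, sub_zero]

/-- trace-zero part -/
noncomputable def tz (hn : n ≠ 0) (x : Matrix (Fin n) (Fin n) K) :
    LieAlgebra.SpecialLinear.sl (Fin n) K :=
  ⟨x - (Matrix.trace x / n) • (1 : Matrix (Fin n) (Fin n) K), by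
    show (Matrix.trace (x - (Matrix.trace x / n) • (1 : Matrix (Fin n) (Fin n) K)) : K) = 0
    rw [Matrix.trace_sub, Matrix.trace_smul, Matrix.trace_one, Fintype.card_fin, smul_eq_mul,
      div_mul_cancel₀ _ (by exact_mod_cast hn), sub_self]⟩

theorem inj_sl (hn : n ≠ 0) (k : ℕ) (h : Inj K (Matrix (Fin n) (Fin n) K) (k + 1)) :
    Inj K (LieAlgebra.SpecialLinear.sl (Fin n) K) (k + 1) := by
  intro a ha
  refine h a fun x y => ?_
  have h1 := congrArg (LieAlgebra.SpecialLinear.sl (Fin n) K).incl
    (ha (fun i => tz hn (x i)) (tz hn y))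
  rw [map_sum, map_zero] at h1
  rw [← h1]
  refine sum_congr rfl fun τ _ => ?_
  rw [map_smul, map_adp, List.map_ofFn]
  congr 1
  have e1 : adp K (List.ofFn (x ∘ τ)) = adp K (List.ofFn
      ((LieAlgebra.SpecialLinear.sl (Fin n) K).incl ∘ ((fun i => tz hn (x i)) ∘ τ))) := by
    refine adp_congr ?_
    rw [List.forall₂_iff_get]
    refine ⟨by simp, fun i h1 h2 => ?_⟩
    rw [List.get_ofFn, List.get_ofFn]
    exact (ad_sub_scalar _ _).symm
  rw [← e1]
  have e2 : adp K (List.ofFn (x ∘ τ)) ((LieAlgebra.SpecialLinear.sl (Fin n) K).incl (tz hn y)) =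
      adp K (List.ofFn (x ∘ τ)) y := by
    show adp K (List.ofFn (x ∘ τ)) (y - (Matrix.trace y / n) • (1 : Matrix (Fin n) (Fin n) K)) = _
    rw [map_sub, map_smul]
    have : adp K (List.ofFn (x ∘ τ)) (1 : Matrix (Fin n) (Fin n) K) = 0 := by
      rw [List.ofFn_succ', List.concat_eq_append, adp_append, Module.End.mul_apply, adp_cons,
        adp_nil, mul_one, LieAlgebra.ad_apply, Ring.lie_def, mul_one, one_mul, sub_self, map_zero]
    rw [this, smul_zero, sub_zero]
  rw [e2]

theorem adp_foldr (l : List (Matrix (Fin n) (Fin n) K)) (y : Matrix (Fin n) (Fin n) K) :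
    adp K l y = l.foldr (fun p q => p * q - q * p) y := by
  induction l with
  | nil => rfl
  | cons a l ih =>
    rw [adp_cons, Module.End.mul_apply, ih, LieAlgebra.ad_apply, List.foldr_cons, Ring.lie_def]

end Matrix

end Pool.Agent.Helper49.SL
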