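import Mathlib

/-!
Complete homogeneous polynomials in two and three variables.
-/

set_option linter.unusedSectionVars false

namespace Pool.Agent.Helper49.SL

open Finset

section

variable {R : Type*} [CommRing R]

/-- complete homogeneous polynomial in two variables -/
def h2 (k : ℕ) (a b : R) : R := ∑ p ∈ antidiagonal k, a ^ p.1 * b ^ p.2

/-- complete homogeneous polynomial in three variables -/
def h3 (k : ℕ) (a b c : R) : R := ∑ p ∈ antidiagonal k, a ^ p.1 * h2 p.2 b c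

variable (a b c : R)

theorem h2_zero : h2 0 a b = 1 := by simp [h2]

theorem h3_zero : h3 0 a b c = 1 := by simp [h3, h2_zero]

theorem h2_succ (k : ℕ) : h2 (k + 1) a b = a * h2 k a b + b ^ (k + 1) := by
  rw [h2, Finset.Nat.sum_antidiagonal_succ, h2, mul_sum]
  simp only [pow_zero, one_mul, pow_succ' a, mul_assoc]
  rw [add_comm]

theorem h2_comm (k : ℕ) : h2 k a b = h2 k b a := by
  rw [h2, h2, ← Finset.Nat.sum_antidiagonal_swap]
  exact sum_congr rfl fun p _ => by simp [mul_comm]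

theorem h2_succ' (k : ℕ) : h2 (k + 1) a b = b * h2 k a b + a ^ (k + 1) := by
  rw [h2_comm, h2_succ, h2_comm]

theorem sub_mul_h2 (k : ℕ) : (a - b) * h2 k a b = a ^ (k + 1) - b ^ (k + 1) := by
  have h1 := h2_succ a b k
  have h2 := h2_succ' a b k
  rw [sub_mul]
  linear_combination h2 - h1

theorem h3_succ (k : ℕ) : h3 (k + 1) a b c = a * h3 k a b c + h2 (k + 1) b c := by
  rw [h3, Finset.Nat.sum_antidiagonal_succ, h3, mul_sum]
  simp only [pow_zero, one_mul, pow_succ' a, mul_assoc]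
  rw [add_comm]

theorem sub_mul_h3 (k : ℕ) : (a - b) * h3 k a b c = h2 (k + 1) a c - h2 (k + 1) b c := by
  induction k with
  | zero => rw [h3_zero, h2_succ', h2_succ', h2_zero, h2_zero]; ring
  | succ k ih =>
    rw [h3_succ, h2_succ a c (k + 1), h2_succ b c (k + 1)]
    linear_combination a * ih

theorem h3_swap (k : ℕ) : h3 k a b c = h3 k b a c := by
  induction k with
  | zero => rw [h3_zero, h3_zero]
  | succ k ih =>
    have h := sub_mul_h3 a b c k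
    rw [h3_succ, h3_succ b a c, ← ih]
    linear_combination h

theorem h3_swap' (k : ℕ) : h3 k a b c = h3 k a c b := by
  rw [h3, h3]
  exact sum_congr rfl fun p _ => by rw [h2_comm]

theorem h3_rot (k : ℕ) : h3 k a b c = h3 k c a b := by
  rw [h3_swap' a b c, h3_swap a c b]

theorem h3_succ_c (k : ℕ) : h3 (k + 1) a b c = c * h3 k a b c + h2 (k + 1) a b := by
  rw [h3_rot a b c (k + 1), h3_succ, ← h3_rot a b c k]

theorem h3_succ_b (k : ℕ) : h3 (k + 1) a b c = b * h3 k a b c + h2 (k + 1) a c := by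
  rw [h3_swap a b c (k + 1), h3_succ, ← h3_swap a b c k]

theorem h2_map {S : Type*} [CommRing S] (f : R →+* S) (k : ℕ) :
    f (h2 k a b) = h2 k (f a) (f b) := by
  simp [h2, map_sum]

theorem h3_map {S : Type*} [CommRing S] (f : R →+* S) (k : ℕ) :
    f (h3 k a b c) = h3 k (f a) (f b) (f c) := by
  simp [h3, map_sum, h2_map]

/-- the antisymmetric sums -/
theorem Q_eq (k : ℕ) : (b - c) * a ^ (k + 2) + (c - a) * b ^ (k + 2) + (a - b) * c ^ (k + 2) =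
    (a - b) * (b - c) * (a - c) * h3 k a b c := by
  have h1 : (a - c) * h3 k a b c = h2 (k + 1) a b - h2 (k + 1) b c := by
    have := sub_mul_h3 a c b k
    rw [h3_swap' a b c, this, h2_comm c b]
  have h4 := sub_mul_h2 a b (k + 1)
  have h5 := sub_mul_h2 b c (k + 1)
  rw [mul_assoc _ (a - c), h1]
  linear_combination -(b - c) * h4 + (a - b) * h5

end

section Binom

variable {R : Type*} [CommRing R]

theorem alt_pow (a b : R) (N : ℕ) :
    ∑ p ∈ antidiagonal N, ((-1) ^ p.2 * (N.choose p.2 : R)) * (a ^ p.1 * b ^ p.2) = (a - b) ^ N := by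
  rw [sub_eq_add_neg, Commute.add_pow' (Commute.all _ _)]
  refine sum_congr rfl fun p hp => ?_
  have h : p.1 + p.2 = N := by simpa using hp
  rw [neg_pow b, nsmul_eq_mul, ← Nat.choose_symm_of_eq_add (by omega : N = p.2 + p.1)]
  ring

/-- The even expansion. -/
theorem even_exp (a b c : R) (n : ℕ) :
    ((a - b) * (b - c) * (a - c)) ^ 2 * ∑ p ∈ antidiagonal (2 * n),
      ((-1) ^ p.2 * (((2 * n + 4).choose (p.2 + 2) : ℕ) : R)) * (h3 p.1 a b c * h3 p.2 a b c) =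
    2 * ((b - c) * (c - a) * (a - b) ^ (2 * n + 4) + (c - a) * (a - b) * (b - c) ^ (2 * n + 4) +
      (a - b) * (b - c) * (c - a) ^ (2 * n + 4)) := by
  set Q : ℕ → R := fun k => (b - c) * a ^ k + (c - a) * b ^ k + (a - b) * c ^ k with hQ
  have hQ0 : Q 0 = 0 := by simp only [hQ, pow_zero]; ring
  have hQ1 : Q 1 = 0 := by simp only [hQ, pow_one]; ring
  have hQ2 : ∀ k, Q (k + 2) = (a - b) * (b - c) * (a - c) * h3 k a b c := fun k => Q_eq a b c k
  have h1 : ∑ p ∈ antidiagonal (2 * n + 4), ((-1) ^ p.2 * (((2 * n + 4).choose p.2 : ℕ) : R)) *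
      (Q p.1 * Q p.2) = ((a - b) * (b - c) * (a - c)) ^ 2 * ∑ p ∈ antidiagonal (2 * n),
      ((-1) ^ p.2 * (((2 * n + 4).choose (p.2 + 2) : ℕ) : R)) * (h3 p.1 a b c * h3 p.2 a b c) := by
    rw [show 2 * n + 4 = 2 * n + 3 + 1 by ring, Finset.Nat.sum_antidiagonal_succ,
      Finset.Nat.sum_antidiagonal_succ, Finset.Nat.sum_antidiagonal_succ',
      Finset.Nat.sum_antidiagonal_succ']
    simp only [zero_add, hQ0, hQ1, zero_mul, mul_zero, add_assoc, Nat.reduceAdd, hQ2]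
    rw [mul_sum]
    refine sum_congr rfl fun p _ => ?_
    rw [pow_succ, pow_succ]
    ring
  rw [← h1]
  have h2 : ∀ x y : R, ∑ p ∈ antidiagonal (2 * n + 4),
      ((-1) ^ p.2 * (((2 * n + 4).choose p.2 : ℕ) : R)) * (x ^ p.1 * y ^ p.2) =
        (x - y) ^ (2 * n + 4) := fun x y => alt_pow x y _
  have h3 : ∀ p : ℕ × ℕ, ((-1) ^ p.2 * (((2 * n + 4).choose p.2 : ℕ) : R)) * (Q p.1 * Q p.2) =
      (b - c) * (b - c) * (((-1) ^ p.2 * (((2 * n + 4).choose p.2 : ℕ) : R)) * (a ^ p.1 * a ^ p.2)) +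
      (b - c) * (c - a) * (((-1) ^ p.2 * (((2 * n + 4).choose p.2 : ℕ) : R)) * (a ^ p.1 * b ^ p.2)) +
      (b - c) * (a - b) * (((-1) ^ p.2 * (((2 * n + 4).choose p.2 : ℕ) : R)) * (a ^ p.1 * c ^ p.2)) +
      (c - a) * (b - c) * (((-1) ^ p.2 * (((2 * n + 4).choose p.2 : ℕ) : R)) * (b ^ p.1 * a ^ p.2)) +
      (c - a) * (c - a) * (((-1) ^ p.2 * (((2 * n + 4).choose p.2 : ℕ) : R)) * (b ^ p.1 * b ^ p.2)) +
      (c - a) * (a - b) * (((-1) ^ p.2 * (((2 * n + 4).choose p.2 : ℕ) : R)) * (b ^ p.1 * c ^ p.2)) +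
      (a - b) * (b - c) * (((-1) ^ p.2 * (((2 * n + 4).choose p.2 : ℕ) : R)) * (c ^ p.1 * a ^ p.2)) +
      (a - b) * (c - a) * (((-1) ^ p.2 * (((2 * n + 4).choose p.2 : ℕ) : R)) * (c ^ p.1 * b ^ p.2)) +
      (a - b) * (a - b) * (((-1) ^ p.2 * (((2 * n + 4).choose p.2 : ℕ) : R)) * (c ^ p.1 * c ^ p.2)) := by
    intro p
    simp only [hQ]
    ring
  rw [sum_congr rfl fun p _ => h3 p]
  simp only [Finset.sum_add_distrib, ← mul_sum, h2, sub_self]
  have e : ∀ x y : R, (x - y) ^ (2 * n + 4) = (y - x) ^ (2 * n + 4) := by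
    intro x y
    have : Even (2 * n + 4) := ⟨n + 2, by ring⟩
    rw [← this.neg_pow, neg_sub]
  rw [e b a, e a c, e c b, zero_pow (by omega)]
  ring

/-- The odd expansion. -/
theorem odd_exp (a b c : R) (n : ℕ) :
    ((a - b) * (b - c) * (a - c)) ^ 2 * ∑ p ∈ antidiagonal (2 * n + 1),
      ((-1) ^ p.2 * (((2 * n + 4).choose (p.2 + 2) : ℕ) : R)) * (h3 p.1 a b c * h3 p.2 a b c) =
    (b - c) * (c - a) * (a + b) * (a - b) ^ (2 * n + 4) +
      (c - a) * (a - b) * (b + c) * (b - c) ^ (2 * n + 4) +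
      (a - b) * (b - c) * (c + a) * (c - a) ^ (2 * n + 4) := by
  set Q : ℕ → R := fun k => (b - c) * a ^ k + (c - a) * b ^ k + (a - b) * c ^ k with hQ
  have hQ0 : Q 0 = 0 := by simp only [hQ, pow_zero]; ring
  have hQ1 : Q 1 = 0 := by simp only [hQ, pow_one]; ring
  have hQ2 : ∀ k, Q (k + 2) = (a - b) * (b - c) * (a - c) * h3 k a b c := fun k => Q_eq a b c k
  have h1 : ∑ p ∈ antidiagonal (2 * n + 4), ((-1) ^ p.2 * (((2 * n + 4).choose p.2 : ℕ) : R)) *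
      (Q (p.1 + 1) * Q p.2) = ((a - b) * (b - c) * (a - c)) ^ 2 * ∑ p ∈ antidiagonal (2 * n + 1),
      ((-1) ^ p.2 * (((2 * n + 4).choose (p.2 + 2) : ℕ) : R)) * (h3 p.1 a b c * h3 p.2 a b c) := by
    rw [show 2 * n + 4 = 2 * n + 3 + 1 by ring, Finset.Nat.sum_antidiagonal_succ,
      Finset.Nat.sum_antidiagonal_succ', show 2 * n + 3 = 2 * n + 1 + 1 + 1 by ring,
      Finset.Nat.sum_antidiagonal_succ']
    simp only [zero_add, hQ0, hQ1, zero_mul, mul_zero, add_assoc, Nat.reduceAdd, hQ2]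
    rw [mul_sum]
    refine sum_congr rfl fun p _ => ?_
    rw [pow_succ, pow_succ]
    ring
  rw [← h1]
  have h2 : ∀ x y : R, ∑ p ∈ antidiagonal (2 * n + 4),
      ((-1) ^ p.2 * (((2 * n + 4).choose p.2 : ℕ) : R)) * (x ^ p.1 * y ^ p.2) =
        (x - y) ^ (2 * n + 4) := fun x y => alt_pow x y _
  have h3 : ∀ p : ℕ × ℕ, ((-1) ^ p.2 * (((2 * n + 4).choose p.2 : ℕ) : R)) * (Q (p.1 + 1) * Q p.2) =
      (b - c) * (b - c) * a * (((-1) ^ p.2 * (((2 * n + 4).choose p.2 : ℕ) : R)) * (a ^ p.1 * a ^ p.2)) +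
      (b - c) * (c - a) * a * (((-1) ^ p.2 * (((2 * n + 4).choose p.2 : ℕ) : R)) * (a ^ p.1 * b ^ p.2)) +
      (b - c) * (a - b) * a * (((-1) ^ p.2 * (((2 * n + 4).choose p.2 : ℕ) : R)) * (a ^ p.1 * c ^ p.2)) +
      (c - a) * (b - c) * b * (((-1) ^ p.2 * (((2 * n + 4).choose p.2 : ℕ) : R)) * (b ^ p.1 * a ^ p.2)) +
      (c - a) * (c - a) * b * (((-1) ^ p.2 * (((2 * n + 4).choose p.2 : ℕ) : R)) * (b ^ p.1 * b ^ p.2)) +
      (c - a) * (a - b) * b * (((-1) ^ p.2 * (((2 * n + 4).choose p.2 : ℕ) : R)) * (b ^ p.1 * c ^ p.2)) +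
      (a - b) * (b - c) * c * (((-1) ^ p.2 * (((2 * n + 4).choose p.2 : ℕ) : R)) * (c ^ p.1 * a ^ p.2)) +
      (a - b) * (c - a) * c * (((-1) ^ p.2 * (((2 * n + 4).choose p.2 : ℕ) : R)) * (c ^ p.1 * b ^ p.2)) +
      (a - b) * (a - b) * c * (((-1) ^ p.2 * (((2 * n + 4).choose p.2 : ℕ) : R)) * (c ^ p.1 * c ^ p.2)) := by
    intro p
    simp only [hQ]
    ring
  rw [sum_congr rfl fun p _ => h3 p]
  simp only [Finset.sum_add_distrib, ← mul_sum, h2, sub_self]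
  have e : ∀ x y : R, (x - y) ^ (2 * n + 4) = (y - x) ^ (2 * n + 4) := by
    intro x y
    have : Even (2 * n + 4) := ⟨n + 2, by ring⟩
    rw [← this.neg_pow, neg_sub]
  rw [e b a, e a c, e c b, zero_pow (by omega)]
  ring

/-- Coefficients of `Bs`. -/
def bc (n : ℕ) (p : ℕ × ℕ) : ℤ := ((2 * n + 2).choose (p.1 + 1) : ℤ) + (-1) ^ p.1

/-- Coefficients of `Gs`. -/
def gc (n : ℕ) (p : ℕ × ℕ) : ℤ :=
  ((2 * n + 2).choose p.1 : ℤ) - ((2 * n + 2).choose (p.1 + 1) : ℤ) + (-1) ^ p.1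

/-- `((u+v)^(2n+3) - u^(2n+3) - v^(2n+3)) / (u v (u+v))` -/
def Bs (n : ℕ) (u v : R) : R := ∑ p ∈ antidiagonal (2 * n), (bc n p : R) * (u ^ p.1 * v ^ p.2)

/-- The antisymmetric companion. -/
def Gs (n : ℕ) (u v : R) : R := ∑ p ∈ antidiagonal (2 * n + 1), (gc n p : R) * (u ^ p.1 * v ^ p.2)

theorem pow_exp (u v : R) (N : ℕ) :
    (u + v) ^ N = ∑ p ∈ antidiagonal N, (N.choose p.1 : R) * (u ^ p.1 * v ^ p.2) := by
  rw [Commute.add_pow' (Commute.all _ _)]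
  exact sum_congr rfl fun p _ => by rw [nsmul_eq_mul]

theorem alt_geom (u v : R) (N : ℕ) :
    (u + v) * ∑ p ∈ antidiagonal N, (-1) ^ p.1 * (u ^ p.1 * v ^ p.2) =
      v ^ (N + 1) - (-u) ^ (N + 1) := by
  have h := sub_mul_h2 (-u) v N
  rw [h2] at h
  have h' : ∑ p ∈ antidiagonal N, (-u) ^ p.1 * v ^ p.2 =
      ∑ p ∈ antidiagonal N, (-1) ^ p.1 * (u ^ p.1 * v ^ p.2) :=
    sum_congr rfl fun p _ => by rw [neg_pow u]; ring
  rw [h'] at h
  linear_combination -h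

theorem Bs_eq (n : ℕ) (u v : R) :
    u * v * (u + v) * Bs n u v = (u + v) ^ (2 * n + 3) - u ^ (2 * n + 3) - v ^ (2 * n + 3) := by
  have h1 : Bs n u v = ∑ p ∈ antidiagonal (2 * n), ((2 * n + 2).choose (p.1 + 1) : R) *
      (u ^ p.1 * v ^ p.2) + ∑ p ∈ antidiagonal (2 * n), (-1) ^ p.1 * (u ^ p.1 * v ^ p.2) := by
    rw [Bs, ← Finset.sum_add_distrib]
    refine sum_congr rfl fun p _ => ?_
    rw [bc]
    push_cast
    ring
  have h2 : u * v * ∑ p ∈ antidiagonal (2 * n), ((2 * n + 2).choose (p.1 + 1) : R) *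
      (u ^ p.1 * v ^ p.2) = (u + v) ^ (2 * n + 2) - u ^ (2 * n + 2) - v ^ (2 * n + 2) := by
    rw [pow_exp, show 2 * n + 2 = 2 * n + 1 + 1 by ring, Finset.Nat.sum_antidiagonal_succ,
      Finset.Nat.sum_antidiagonal_succ', mul_sum]
    have h5 : ∀ p : ℕ × ℕ, u * v * (((2 * n + 1 + 1).choose (p.1 + 1) : R) * (u ^ p.1 * v ^ p.2)) =
      ((2 * n + 1 + 1).choose (p.1 + 1) : R) * (u ^ (p.1 + 1) * v ^ (p.2 + 1)) := by
      intro p; ring
    rw [sum_congr rfl fun p _ => h5 p]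
    simp only [Nat.choose_zero_right, Nat.choose_self, Nat.cast_one, pow_zero, one_mul, mul_one]
    ring
  have h3 := alt_geom u v (2 * n)
  have h4 : (-u) ^ (2 * n + 1) = - u ^ (2 * n + 1) := by
    rw [Odd.neg_pow ⟨n, rfl⟩]
  rw [h4] at h3
  rw [h1]
  linear_combination (u + v) * h2 + u * v * h3

theorem Gs_eq (n : ℕ) (u v : R) :
    u * v * (u + v) * Gs n u v = (u + v) ^ (2 * n + 3) * (u - v) - u ^ (2 * n + 3) * (u + 2 * v)
      + v ^ (2 * n + 3) * (2 * u + v) := by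
  have h1 : Gs n u v = ∑ p ∈ antidiagonal (2 * n + 1), ((2 * n + 2).choose p.1 : R) *
      (u ^ p.1 * v ^ p.2) - ∑ p ∈ antidiagonal (2 * n + 1), ((2 * n + 2).choose (p.1 + 1) : R) *
      (u ^ p.1 * v ^ p.2) + ∑ p ∈ antidiagonal (2 * n + 1), (-1) ^ p.1 * (u ^ p.1 * v ^ p.2) := by
    rw [Gs, ← Finset.sum_sub_distrib, ← Finset.sum_add_distrib]
    refine sum_congr rfl fun p _ => ?_
    rw [gc]
    push_cast
    ring
  have h2 : v * ∑ p ∈ antidiagonal (2 * n + 1), ((2 * n + 2).choose p.1 : R) *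
      (u ^ p.1 * v ^ p.2) = (u + v) ^ (2 * n + 2) - u ^ (2 * n + 2) := by
    rw [pow_exp, mul_sum, show 2 * n + 2 = 2 * n + 1 + 1 by ring,
      Finset.Nat.sum_antidiagonal_succ' (n := 2 * n + 1)]
    have h5 : ∀ p : ℕ × ℕ, v * (((2 * n + 1 + 1).choose p.1 : R) * (u ^ p.1 * v ^ p.2)) =
      ((2 * n + 1 + 1).choose p.1 : R) * (u ^ p.1 * v ^ (p.2 + 1)) := by
      intro p; ring
    rw [sum_congr rfl fun p _ => h5 p]
    simp only [Nat.choose_self, Nat.cast_one, pow_zero, one_mul, mul_one]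
    ring
  have h2' : u * ∑ p ∈ antidiagonal (2 * n + 1), ((2 * n + 2).choose (p.1 + 1) : R) *
      (u ^ p.1 * v ^ p.2) = (u + v) ^ (2 * n + 2) - v ^ (2 * n + 2) := by
    rw [pow_exp, mul_sum, show 2 * n + 2 = 2 * n + 1 + 1 by ring,
      Finset.Nat.sum_antidiagonal_succ (n := 2 * n + 1)]
    have h5 : ∀ p : ℕ × ℕ, u * (((2 * n + 1 + 1).choose (p.1 + 1) : R) * (u ^ p.1 * v ^ p.2)) =
      ((2 * n + 1 + 1).choose (p.1 + 1) : R) * (u ^ (p.1 + 1) * v ^ p.2) := by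
      intro p; ring
    rw [sum_congr rfl fun p _ => h5 p]
    simp only [Nat.choose_zero_right, Nat.cast_one, pow_zero, one_mul]
    ring
  have h3 := alt_geom u v (2 * n + 1)
  have h4 : (-u) ^ (2 * n + 1 + 1) = u ^ (2 * n + 1 + 1) := by
    rw [Even.neg_pow ⟨n + 1, by ring⟩]
  rw [h4] at h3
  rw [h1]
  linear_combination (u + v) * u * h2 - (u + v) * v * h2' + u * v * h3

theorem bc_swap (n : ℕ) (p : ℕ × ℕ) (hp : p ∈ antidiagonal (2 * n)) : bc n p.swap = bc n p := by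
  have h : p.1 + p.2 = 2 * n := by simpa using hp
  rw [bc, bc, Prod.fst_swap,
    ← Nat.choose_symm_of_eq_add (by omega : 2 * n + 2 = (p.1 + 1) + (p.2 + 1))]
  congr 1
  have h1 : ((-1 : ℤ)) ^ p.1 * (-1) ^ p.2 = 1 := by
    rw [← pow_add, h, pow_mul]; simp
  have hs : (-1 : ℤ) ^ p.1 * (-1) ^ p.1 = 1 := by rw [← mul_pow]; simp
  linear_combination (-1 : ℤ) ^ p.1 * h1 - (-1 : ℤ) ^ p.2 * hs

theorem gc_swap (n : ℕ) (p : ℕ × ℕ) (hp : p ∈ antidiagonal (2 * n + 1)) :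
    gc n p.swap = - gc n p := by
  have h : p.1 + p.2 = 2 * n + 1 := by simpa using hp
  rw [gc, gc, Prod.fst_swap,
    ← Nat.choose_symm_of_eq_add (by omega : 2 * n + 2 = (p.1 + 1) + p.2),
    ← Nat.choose_symm_of_eq_add (by omega : 2 * n + 2 = p.1 + (p.2 + 1))]
  have h1 : ((-1 : ℤ)) ^ p.1 * (-1) ^ p.2 = -1 := by
    rw [← pow_add, h, pow_succ, pow_mul]; simp
  have hs : (-1 : ℤ) ^ p.1 * (-1) ^ p.1 = 1 := by rw [← mul_pow]; simp
  have h4 : (-1 : ℤ) ^ p.2 = - (-1) ^ p.1 := by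
    linear_combination (-1 : ℤ) ^ p.1 * h1 - (-1 : ℤ) ^ p.2 * hs
  rw [h4]
  ring

end Binom

end Pool.Agent.Helper49.SL
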