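import Mathlib
import Pool.Agent.Helper49.SL.Hom

/-!
Computations in quotient rings and binomial sums.
-/

set_option linter.unusedSectionVars false

namespace Pool.Agent.Helper49.SL

open Finset

section General

variable {R : Type*} [CommRing R]

theorem mul_h2_of {x a b : R} (h : x * a = x * b) (j : ℕ) :
    x * h2 j a b = (j + 1 : ℕ) * (x * b ^ j) := by
  induction j with
  | zero => simp [h2_zero]
  | succ j ih =>
    rw [h2_succ]
    push_cast at ih ⊢
    linear_combination (h2 j a b) * h + b * ih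

theorem mul_h3_of {x l m r : R} (hl : x * l = x * r) (hm : x * m = x * r) (j : ℕ) :
    x * h3 j l m r = ((j + 2).choose 2 : ℕ) * (x * r ^ j) := by
  induction j with
  | zero => simp [h3_zero]
  | succ j ih =>
    have h1 := mul_h2_of hm (j + 1)
    rw [h3_succ, show j + 1 + 2 = j + 2 + 1 by ring, Nat.choose_succ_succ' (j + 2) 1,
      Nat.choose_one_right]
    push_cast at ih h1 ⊢
    linear_combination (h3 j l m r) * hl + r * ih + h1

theorem kill_h2 {t l m : R} (hl : t * l = 0) (j : ℕ) : t * h2 j l m = t * m ^ j := by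
  cases j with
  | zero => simp [h2_zero]
  | succ j => rw [h2_succ]; linear_combination (h2 j l m) * hl

theorem kill_h3 {t l m r : R} (hl : t * l = 0) (hm : t * m = 0) (j : ℕ) :
    t * h3 j l m r = t * r ^ j := by
  cases j with
  | zero => simp [h3_zero]
  | succ j =>
    have := kill_h2 (m := r) hm (j + 1)
    rw [h3_succ]; linear_combination (h3 j l m r) * hl + this

theorem h2_zero_of {a b : R} {n : ℕ} (h : h2 n a b = 0) (hb : b ^ (n + 1) = 0) (s : ℕ) :
    h2 (n + s) a b = 0 := by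
  induction s with
  | zero => exact h
  | succ s ih =>
    rw [← add_assoc, h2_succ, ih, mul_zero, zero_add, show n + s + 1 = n + 1 + s by ring, pow_add,
      hb, zero_mul]

end General

section A1

variable {R : Type*} [CommRing R] {l m r : R} {k : ℕ} 

theorem A1_a (ha : h2 (k + 2) l m = 0) :
    (l - r) * h3 (k + 1) l m r = - h2 (k + 2) m r := by
  have := sub_mul_h3 l r m (k + 1)
  rw [← h3_swap' l m r, ha, h2_comm r m] at this
  linear_combination this

theorem A1_b (ha : h2 (k + 2) l m = 0) :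
    (m - r) * h3 (k + 1) l m r = - h2 (k + 2) l r := by
  have := sub_mul_h3 m r l (k + 1)
  rw [h2_comm m l, ha, h2_comm r l, h3_rot m r l] at this
  linear_combination this

theorem h2_flip {a b : R} {n : ℕ} (h : a * h2 n a b = 0) (ha : a ^ (n + 1) = 0)
    (hb : b ^ (n + 1) = 0) : b * h2 n a b = 0 := by
  have := sub_mul_h2 a b n
  linear_combination h - this - ha + hb

variable (hl : l ^ (k + 3) = 0) (hm : m ^ (k + 3) = 0) (hr : r ^ (k + 3) = 0)
  (ha : h2 (k + 2) l m = 0) (hb : l * h2 (k + 2) l r = 0) (hc : m * h2 (k + 2) m r = 0)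

include hm hr ha hc in
theorem A1_lr : r * h3 (k + 1) l m r * l = r * h3 (k + 1) l m r * r := by
  have h := A1_a (r := r) ha
  have h' := h2_flip hc hm hr
  linear_combination r * h - h'

include hl hr ha hb in
theorem A1_mr : r * h3 (k + 1) l m r * m = r * h3 (k + 1) l m r * r := by
  have h := A1_b (r := r) ha
  have h' := h2_flip hb hl hr
  linear_combination r * h - h'

include hl hr ha hb hc in
theorem A1_lm : l * m * h3 (k + 1) l m r = r * r * h3 (k + 1) l m r := by
  have h := A1_a (r := r) ha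
  have h' := A1_mr hl hr ha hb
  linear_combination m * h - hc + h'

include hm ha in
theorem A1_hj (s : ℕ) : h3 (k + 1 + s) l m r = r ^ s * h3 (k + 1) l m r := by
  induction s with
  | zero => simp
  | succ s ih =>
    rw [← add_assoc, h3_succ_c, ih, show k + 1 + s + 1 = k + 2 + s by ring,
      h2_zero_of ha hm s]
    ring

include hl hm hr ha hb hc in
theorem A1_prod (s i : ℕ) : h3 i l m r * h3 (k + 2 + s) l m r =
    ((i + 2).choose 2 : ℕ) * (r ^ (s + 1 + i) * h3 (k + 1) l m r) := by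
  rw [show k + 2 + s = k + 1 + (s + 1) by ring, A1_hj hm ha]
  have := mul_h3_of (A1_lr hm hr ha hc) (A1_mr hl hr ha hb) i
  rw [pow_succ, pow_add, pow_succ]
  linear_combination r ^ s * this

include hl hm hr ha hb hc in
theorem A1_HH : h3 (k + 1) l m r * h3 (k + 1) l m r =
    (((k + 2).choose 2 + k : ℕ) : R) * (r ^ (k + 1) * h3 (k + 1) l m r) +
      h3 (k + 1) l m r * l ^ (k + 1) + h3 (k + 1) l m r * m ^ (k + 1) := by
  have h1 : ∀ j, h3 (k + 1) l m r * l * h2 j l m =
      h3 (k + 1) l m r * l ^ (j + 1) + (j : R) * (r ^ (j + 1) * h3 (k + 1) l m r) := by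
    intro j
    cases j with
    | zero => simp [h2_zero]
    | succ j =>
      have h2' := A1_lm hl hr ha hb hc
      have hx : r * h3 (k + 1) l m r * r * h2 j l m = (j + 1 : ℕ) * (r * h3 (k + 1) l m r * r * r ^ j) := by
        have h3' : r * h3 (k + 1) l m r * r * l = r * h3 (k + 1) l m r * r * m := by
          linear_combination r * A1_lr hm hr ha hc - r * A1_mr hl hr ha hb
        have h4 := mul_h2_of h3' j
        have h5 : ∀ i : ℕ, r * h3 (k + 1) l m r * r * m ^ i = r * h3 (k + 1) l m r * r * r ^ i := by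
          intro i
          induction i with
          | zero => simp
          | succ i ih =>
            rw [pow_succ, pow_succ]
            linear_combination m * ih + r ^ (i + 1) * A1_mr hl hr ha hb
        rw [h4, h5]
      rw [h2_succ']
      push_cast at hx ⊢
      linear_combination (h2 j l m) * h2' + hx
  have e1 : h3 (k + 1) l m r * h3 (k + 1) l m r =
      r * h3 (k + 1) l m r * h3 k l m r + h3 (k + 1) l m r * l * h2 k l m +
        h3 (k + 1) l m r * m ^ (k + 1) := by
    conv_lhs => rw [h3_succ_c l m r k]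
    rw [h2_succ]
    rw [h3_succ_c l m r k, h2_succ]
    ring
  rw [e1, h1, mul_h3_of (A1_lr hm hr ha hc) (A1_mr hl hr ha hb)]
  push_cast
  ring

end A1

section A0

variable {R : Type*} [CommRing R] {l m r : R} {k : ℕ} 

theorem A0_x {x l m r W : R} (hxl : x * l = W) (hxm : x * m = W) (hWl : W * l = W * r)
    (hWm : W * m = W * r) (i : ℕ) :
    x * h2 (i + 1) l m = (i + 2 : ℕ) * (W * r ^ i) := by
  have h5 : ∀ i : ℕ, W * m ^ i = W * r ^ i := by
    intro i
    induction i with
    | zero => simp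
    | succ i ih =>
      rw [pow_succ, pow_succ]
      linear_combination m * ih + r ^ i * hWm
  induction i with
  | zero => rw [h2_succ, h2_zero]; push_cast; linear_combination hxl + hxm
  | succ i ih =>
    rw [h2_succ]
    have h6 : x * m ^ (i + 2) = W * r ^ (i + 1) := by
      rw [← h5, pow_succ' m (i + 1)]
      linear_combination m ^ (i + 1) * hxm
    have h7 : W * h2 (i + 1) l m = ((i + 2 : ℕ) : R) * (W * r ^ (i + 1)) := by
      have := mul_h2_of (hWl.trans hWm.symm) (i + 1)
      rw [this, h5]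
    push_cast at h7 ⊢
    linear_combination (h2 (i + 1) l m) * hxl + h7 + h6

theorem A0_x3 {x l m r W : R} (hxl : x * l = W) (hxm : x * m = W) (hWl : W * l = W * r)
    (hWm : W * m = W * r) (i : ℕ) :
    x * h3 (i + 1) l m r = x * r ^ (i + 1) + (((i + 3).choose 2 : ℕ) - 1 : R) * (W * r ^ i) := by
  induction i with
  | zero =>
    rw [h3_succ_c, h3_zero, h2_succ, h2_zero]
    have : ((0 + 3).choose 2 : ℕ) = 3 := by decide
    rw [this]
    push_cast
    linear_combination hxl + hxm
  | succ i ih =>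
    have h1 := A0_x hxl hxm hWl hWm (i + 1)
    rw [h3_succ_c, show i + 1 + 3 = i + 3 + 1 by ring, Nat.choose_succ_succ' (i + 3) 1,
      Nat.choose_one_right]
    push_cast at ih h1 ⊢
    linear_combination r * ih + h1

variable (hl : l ^ (k + 3) = 0) (hm : m ^ (k + 3) = 0) (hr : r ^ (k + 3) = 0)
  (ha : l * h2 (k + 2) l m = 0) (hb : m * h2 (k + 2) m r = 0) (hc : r * h2 (k + 2) r l = 0)

include hl hm hr ha hb in
theorem A0_W1 : l * m * h3 (k + 1) l m r = m * r * h3 (k + 1) l m r := by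
  have h1 := sub_mul_h3 l r m (k + 1)
  rw [← h3_swap' l m r, h2_comm r m] at h1
  have h2 := h2_flip ha hl hm
  linear_combination m * h1 + h2 - hb

include hl hm hr hb hc in
theorem A0_W2 : r * l * h3 (k + 1) l m r = m * r * h3 (k + 1) l m r := by
  have h1 := sub_mul_h3 l m r (k + 1)
  rw [h2_comm l r] at h1
  have h2 := h2_flip hb hm hr
  linear_combination r * h1 + hc - h2

include hl hm hr ha hb hc in
theorem A0_Wl : l * m * h3 (k + 1) l m r * l = l * m * h3 (k + 1) l m r * r := by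
  have h1 := A0_W1 hl hm hr ha hb
  have h2 := A0_W2 hl hm hr hb hc
  linear_combination l * h1

include hl hm hr ha hb hc in
theorem A0_Wm : l * m * h3 (k + 1) l m r * m = l * m * h3 (k + 1) l m r * r := by
  have h1 := A0_W1 hl hm hr ha hb
  have h2 := A0_W2 hl hm hr hb hc
  linear_combination m * h1 - m * h2

include hl hm ha in
theorem A0_hj (s : ℕ) : h3 (k + 2 + s) l m r =
    r ^ (s + 1) * h3 (k + 1) l m r + r ^ s * h2 (k + 2) l m := by
  induction s with
  | zero => rw [add_zero, h3_succ_c]; ring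
  | succ s ih =>
    rw [← add_assoc, h3_succ_c, ih]
    have h1 : h2 (k + 2 + s + 1) l m = 0 := by
      have h3 : h2 (k + 3) l m = 0 := by rw [h2_succ, ha, hm, add_zero]
      have h4 := h2_zero_of h3 (by rw [pow_succ, hm, zero_mul]) s
      rw [← h4]
      congr 1
      ring
    rw [h1]
    ring

include hl hm hr ha hb hc in
theorem A0_pure : r ^ (k + 2) * h3 (k + 1) l m r =
    l * m * h3 (k + 1) l m r * r ^ k - r ^ (k + 1) * h2 (k + 2) l m := by
  have h1 := sub_mul_h3 l r m (k + 1)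
  rw [← h3_swap' l m r, h2_comm r m] at h1
  have h2 := h2_flip hb hm hr
  have h3 := A0_W1 hl hm hr ha hb
  have h4 := A0_W2 hl hm hr hb hc
  rw [pow_succ, pow_succ]
  linear_combination - r ^ (k) * r * h1 + r ^ k * h2 + r ^ k * h4 - r ^ k * h3

include hl hm hr ha hb hc in
theorem A0_prod (s i : ℕ) (hsi : s + i = k + 1) :
    h3 i l m r * h3 (k + 2 + s) l m r =
      ((i + 2).choose 2 : ℕ) * (l * m * h3 (k + 1) l m r * r ^ k) := by
  have hp := A0_pure hl hm hr ha hb hc
  rw [A0_hj hl hm ha]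
  have hxl : r * h3 (k + 1) l m r * l = l * m * h3 (k + 1) l m r := by
    linear_combination A0_W2 hl hm hr hb hc - A0_W1 hl hm hr ha hb
  have hxm : r * h3 (k + 1) l m r * m = l * m * h3 (k + 1) l m r := by
    linear_combination - A0_W1 hl hm hr ha hb
  have hWl := A0_Wl hl hm hr ha hb hc
  have hWm := A0_Wm hl hm hr ha hb hc
  have ht : h2 (k + 2) l m * h3 i l m r = h2 (k + 2) l m * r ^ i :=
    kill_h3 (by rw [mul_comm]; exact ha) (by rw [mul_comm]; exact h2_flip ha hl hm) i
  cases i with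
  | zero =>
    have : s = k + 1 := by omega
    subst this
    rw [h3_zero]
    have h0 : ((0 + 2).choose 2 : ℕ) = 1 := by decide
    rw [h0]
    push_cast
    linear_combination hp
  | succ i =>
    have hx := A0_x3 hxl hxm hWl hWm i
    have hk : k = s + i := by omega
    have e1 : r ^ (k + 2) = r ^ s * (r * r ^ (i + 1)) := by rw [hk]; ring
    have e2 : r ^ (k + 1) = r ^ s * r ^ (i + 1) := by rw [hk]; ring
    have e3 : r ^ k = r ^ s * r ^ i := by rw [hk]; ring
    rw [e1, e2, e3] at hp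
    rw [e3, pow_succ r s]
    linear_combination r ^ s * hx + r ^ s * ht + hp

include hl hm hr ha hb hc in
theorem A0_e1prod (s i : ℕ) (hsi : s + i = k) :
    (l + m + r) * (h3 i l m r * h3 (k + 2 + s) l m r) =
      3 * ((i + 2).choose 2 : ℕ) * (l * m * h3 (k + 1) l m r * r ^ k) := by
  have hp := A0_pure hl hm hr ha hb hc
  rw [A0_hj hl hm ha]
  have hxl : r * h3 (k + 1) l m r * l = l * m * h3 (k + 1) l m r := by
    linear_combination A0_W2 hl hm hr hb hc - A0_W1 hl hm hr ha hb
  have hxm : r * h3 (k + 1) l m r * m = l * m * h3 (k + 1) l m r := by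
    linear_combination - A0_W1 hl hm hr ha hb
  have hWl := A0_Wl hl hm hr ha hb hc
  have hWm := A0_Wm hl hm hr ha hb hc
  have hWi := mul_h3_of hWl hWm i
  have htl : h2 (k + 2) l m * l = 0 := by rw [mul_comm]; exact ha
  have htm : h2 (k + 2) l m * m = 0 := by rw [mul_comm]; exact h2_flip ha hl hm
  have ht : h2 (k + 2) l m * h3 i l m r = h2 (k + 2) l m * r ^ i := kill_h3 htl htm i
  have e0 : (l + m + r) * (h3 i l m r * (r ^ (s + 1) * h3 (k + 1) l m r + r ^ s * h2 (k + 2) l m)) =
      2 * r ^ s * (l * m * h3 (k + 1) l m r * h3 i l m r) +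
        r ^ (s + 1) * (r * h3 (k + 1) l m r * h3 i l m r) +
        r ^ (s + 1) * (h2 (k + 2) l m * h3 i l m r) := by
    rw [pow_succ]
    linear_combination r ^ s * h3 i l m r * hxl + r ^ s * h3 i l m r * hxm +
      r ^ s * h3 i l m r * htl + r ^ s * h3 i l m r * htm
  rw [e0, hWi, ht]
  cases i with
  | zero =>
    have : s = k := by omega
    subst this
    rw [h3_zero]
    have h0 : ((0 + 2).choose 2 : ℕ) = 1 := by decide
    rw [h0]
    push_cast
    linear_combination hp
  | succ i =>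
    have hx := A0_x3 hxl hxm hWl hWm i
    rw [hx]
    have hk : k = s + (i + 1) := by omega
    have e1 : r ^ (k + 2) = r ^ (s + 1) * (r * r ^ (i + 1)) := by rw [hk]; ring
    have e2 : r ^ (k + 1) = r ^ (s + 1) * r ^ (i + 1) := by rw [hk]; ring
    have e3 : r ^ k = r ^ (s + 1) * r ^ i := by rw [hk]; ring
    rw [e1, e2, e3] at hp
    rw [e3]
    have e4 : r ^ s * r ^ (i + 1) = r ^ (s + 1) * r ^ i := by ring
    linear_combination hp + 2 * (((i + 3).choose 2 : ℕ) : R) * (l * m * h3 (k + 1) l m r) * e4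

include hl hm hr ha hb hc in
theorem A0_tau : r ^ (k + 1) * h2 (k + 2) l m + l ^ (k + 1) * h2 (k + 2) m r +
    m ^ (k + 1) * h2 (k + 2) r l = ((k + 3 : ℕ) : R) * (l * m * h3 (k + 1) l m r * r ^ k) := by
  have hW1 := A0_W1 hl hm hr ha hb
  have hW2 := A0_W2 hl hm hr hb hc
  have hWl := A0_Wl hl hm hr ha hb hc
  have hWm := A0_Wm hl hm hr ha hb hc
  set W := l * m * h3 (k + 1) l m r with hW
  have hxl : r * h3 (k + 1) l m r * l = W := by rw [hW]; linear_combination hW2 - hW1
  have hxm : r * h3 (k + 1) l m r * m = W := by rw [hW]; linear_combination - hW1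
  have hWlp : ∀ i : ℕ, W * l ^ i = W * r ^ i := by
    intro i
    induction i with
    | zero => simp
    | succ i ih => rw [pow_succ, pow_succ]; linear_combination l * ih + r ^ i * hWl
  have hWmp : ∀ i : ℕ, W * m ^ i = W * r ^ i := by
    intro i
    induction i with
    | zero => simp
    | succ i ih => rw [pow_succ, pow_succ]; linear_combination m * ih + r ^ i * hWm
  -- pure powers
  have pr := A0_pure hl hm hr ha hb hc
  have pl : l ^ (k + 2) * h3 (k + 1) l m r = W * r ^ k - l ^ (k + 1) * h2 (k + 2) m r := by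
    have h1 := sub_mul_h3 l r m (k + 1)
    rw [← h3_swap' l m r, h2_comm r m] at h1
    rw [← hWlp, pow_succ, pow_succ, hW]
    linear_combination l ^ k * l * h1 + l ^ k * ha + l ^ k * hW2 - l ^ k * hW1
  have pm : m ^ (k + 2) * h3 (k + 1) l m r = W * r ^ k - m ^ (k + 1) * h2 (k + 2) r l := by
    have h1 := sub_mul_h3 m r l (k + 1)
    rw [h3_rot m r l, h2_comm m l] at h1
    have h2' := h2_flip ha hl hm
    rw [← hWmp, pow_succ, pow_succ, hW]
    linear_combination m ^ k * m * h1 + m ^ k * h2' - m ^ k * hW1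
  -- count
  have hc2 : ∀ j, h3 (k + 1) l m r * h2 (j + 2) l m = h3 (k + 1) l m r * l ^ (j + 2) +
      h3 (k + 1) l m r * m ^ (j + 2) + ((j + 1 : ℕ) : R) * (W * r ^ j) := by
    intro j
    induction j with
    | zero => rw [h2_succ, h2_succ, h2_zero, hW]; push_cast; ring
    | succ j ih =>
      rw [h2_succ]
      have h8 : h3 (k + 1) l m r * l * m ^ (j + 2) = W * r ^ (j + 1) := by
        rw [← hWmp, hW]; ring
      have h9 : W * l * r ^ j = W * r * r ^ j := by rw [hWl]
      push_cast at ih ⊢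
      linear_combination l * ih + h8 + (j + 1) * h9
  have hc3 : ∀ j, h3 (k + 1) l m r * h3 (j + 2) l m r =
      ((((j + 4).choose 2 : ℕ) : R) - 3) * (W * r ^ j) + h3 (k + 1) l m r * l ^ (j + 2) +
      h3 (k + 1) l m r * m ^ (j + 2) + h3 (k + 1) l m r * r ^ (j + 2) := by
    intro j
    induction j with
    | zero =>
      have h0 : ((0 + 4).choose 2 : ℕ) = 6 := by decide
      have e : h3 (0 + 2) l m r = r * (r + (l + m)) + h2 (0 + 2) l m := by
        rw [show 0 + 2 = 0 + 1 + 1 by ring, h3_succ_c l m r (0 + 1), h3_succ_c l m r 0, h3_zero,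
          h2_succ l m 0, h2_zero]
        ring
      rw [e, h0]
      have := hc2 0
      push_cast at this ⊢
      linear_combination this + hxl + hxm
    | succ j ih =>
      have h10 := hc2 (j + 1)
      have e : h3 (j + 1 + 2) l m r = r * h3 (j + 2) l m r + h2 (j + 1 + 2) l m :=
        h3_succ_c l m r (j + 2)
      rw [e, show j + 1 + 4 = j + 4 + 1 by ring, Nat.choose_succ_succ' (j + 4) 1,
        Nat.choose_one_right]
      have h11 : r * h3 (k + 1) l m r * l ^ (j + 2) = W * r ^ (j + 1) := by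
        rw [← hWlp, pow_succ' l (j + 1)]
        linear_combination l ^ (j + 1) * hxl
      have h12 : r * h3 (k + 1) l m r * m ^ (j + 2) = W * r ^ (j + 1) := by
        rw [← hWmp, pow_succ' m (j + 1)]
        linear_combination m ^ (j + 1) * hxm
      push_cast at ih h10 ⊢
      linear_combination r * ih + h10 + h11 + h12
  have hcount := hc3 k
  have hprod := A0_prod hl hm hr ha hb hc 0 (k + 1) (by omega)
  rw [add_zero, ← hW] at hprod
  rw [hprod] at hcount
  have hch : ((k + 4).choose 2 : ℕ) = (k + 3).choose 2 + (k + 3) := by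
    rw [show k + 4 = k + 3 + 1 by ring, Nat.choose_succ_succ' (k + 3) 1, Nat.choose_one_right]
    ring
  rw [hch, show k + 1 + 2 = k + 3 by ring] at hcount
  push_cast at hcount ⊢
  rw [← hW] at pr
  linear_combination hcount + pr + pl + pm

include hl hm hr ha hb hc in
theorem A0_e1HH : (l + m + r) * (h3 (k + 1) l m r * h3 (k + 1) l m r) =
    (3 * ((k + 3).choose 2 : ℕ) - ((k + 3 : ℕ) : R)) * (l * m * h3 (k + 1) l m r * r ^ k) := by
  have h1 := A0_prod hl hm hr ha hb hc 0 (k + 1) (by omega)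
  have htau := A0_tau hl hm hr ha hb hc
  have e1 := h3_succ l m r (k + 1)
  have e2 := h3_succ_b l m r (k + 1)
  have e3 := h3_succ_c l m r (k + 1)
  have t1 : h2 (k + 2) l m * h3 (k + 1) l m r = h2 (k + 2) l m * r ^ (k + 1) :=
    kill_h3 (by rw [mul_comm]; exact ha) (by rw [mul_comm]; exact h2_flip ha hl hm) _
  have t2 : h2 (k + 2) m r * h3 (k + 1) l m r = h2 (k + 2) m r * l ^ (k + 1) := by
    rw [← h3_rot m r l]
    exact kill_h3 (by rw [mul_comm]; exact hb) (by rw [mul_comm]; exact h2_flip hb hm hr) _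
  have t3 : h2 (k + 2) r l * h3 (k + 1) l m r = h2 (k + 2) r l * m ^ (k + 1) := by
    rw [h3_rot l m r]
    exact kill_h3 (by rw [mul_comm]; exact hc) (by rw [mul_comm]; exact h2_flip hc hr hl) _
  rw [h2_comm l r] at e2
  rw [add_zero, show k + 1 + 2 = k + 3 by ring] at h1
  linear_combination 3 * h1 - htau - (h3 (k + 1) l m r) * (e1 + e2 + e3) - t1 - t2 - t3

end A0

section Sums

/-- The coefficients `(-1)^j C(2n+4, j+2)`. -/
def ce (n j : ℕ) : ℤ := (-1) ^ j * ((2 * n + 4).choose (j + 2) : ℕ)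

def Tsum (n m : ℕ) : ℤ := ∑ j ∈ range m, ce n j * ((j + 2).choose 2 : ℕ)

def S1 (n : ℕ) : ℤ := ∑ p ∈ antidiagonal (2 * n), ce n p.2 * ((min p.1 p.2 + 2).choose 2 : ℕ)

def S2 (n : ℕ) : ℤ := ∑ p ∈ antidiagonal (2 * n + 1), ce n p.2 * ((min p.1 p.2 + 2).choose 2 : ℕ)

theorem alt_partial (M m : ℕ) : ∑ j ∈ range (m + 1), (-1 : ℤ) ^ j * ((M + 1).choose j : ℕ) =
    (-1) ^ m * (M.choose m : ℕ) := by
  induction m with
  | zero => simp
  | succ m ih =>
    rw [Finset.sum_range_succ, ih, Nat.choose_succ_succ' M m]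
    push_cast
    ring

theorem Tsum_eq (n m : ℕ) : Tsum n (m + 1) =
    ((2 * n + 4).choose 2 : ℕ) * ((-1) ^ m * ((2 * n + 1).choose m : ℕ)) := by
  rw [← alt_partial, mul_sum, Tsum]
  refine sum_congr rfl fun j _ => ?_
  rw [ce]
  by_cases hj : j + 2 ≤ 2 * n + 4
  · have h := Nat.choose_mul (n := 2 * n + 4) (k := j + 2) (s := 2) (by omega)
    rw [show 2 * n + 4 - 2 = 2 * n + 1 + 1 by omega, show j + 2 - 2 = j by omega] at h
    have h' : (((2 * n + 4).choose (j + 2) : ℕ) : ℤ) * ((j + 2).choose 2 : ℕ) =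
      ((2 * n + 4).choose 2 : ℕ) * ((2 * n + 1 + 1).choose j : ℕ) := by exact_mod_cast h
    linear_combination (-1) ^ j * h'
  · rw [Nat.choose_eq_zero_of_lt (by omega : 2 * n + 4 < j + 2),
      Nat.choose_eq_zero_of_lt (by omega : 2 * n + 1 + 1 < j)]
    simp

theorem S1_eq (n : ℕ) : S1 n = Tsum n n + Tsum n (n + 1) := by
  rw [S1, ← Finset.Nat.sum_antidiagonal_swap, Finset.Nat.sum_antidiagonal_eq_sum_range_succ_mk,
    show (2 * n).succ = (n + 1) + n by omega, Finset.sum_range_add, add_comm, Tsum, Tsum]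
  congr 1
  · rw [← Finset.sum_range_reflect]
    refine sum_congr rfl fun j hj => ?_
    have hj' := mem_range.mp hj
    simp only [Prod.snd_swap, Prod.fst_swap]
    rw [show min (2 * n - (n + 1 + (n - 1 - j))) (n + 1 + (n - 1 - j)) = j by omega, ce, ce]
    rw [show n + 1 + (n - 1 - j) = 2 * n - j by omega]
    have h1 : (-1 : ℤ) ^ (2 * n - j) = (-1) ^ j := by
      have : (-1 : ℤ) ^ (2 * n - j) * (-1) ^ j = 1 := by
        rw [← pow_add, show 2 * n - j + j = 2 * n by omega, pow_mul]; simp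
      have hs : (-1 : ℤ) ^ j * (-1) ^ j = 1 := by rw [← mul_pow]; simp
      linear_combination (-1 : ℤ) ^ j * this - (-1 : ℤ) ^ (2 * n - j) * hs
    rw [h1, Nat.choose_symm_of_eq_add (by omega : 2 * n + 4 = (2 * n - j + 2) + (j + 2))]
  · refine sum_congr rfl fun j hj => ?_
    have hj' := mem_range.mp hj
    simp only [Prod.snd_swap, Prod.fst_swap]
    rw [show min (2 * n - j) j = j by omega]

theorem S2_eq (n : ℕ) : S2 n = Tsum n (n + 1) -
    ∑ j ∈ range (n + 1), (-1 : ℤ) ^ j * ((2 * n + 4).choose (j + 1) : ℕ) * ((j + 2).choose 2 : ℕ) := by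
  rw [S2, ← Finset.Nat.sum_antidiagonal_swap, Finset.Nat.sum_antidiagonal_eq_sum_range_succ_mk,
    show (2 * n + 1).succ = (n + 1) + (n + 1) by omega, Finset.sum_range_add, Tsum, sub_eq_add_neg]
  congr 1
  · refine sum_congr rfl fun j hj => ?_
    have hj' := mem_range.mp hj
    simp only [Prod.snd_swap, Prod.fst_swap]
    rw [show min (2 * n + 1 - j) j = j by omega]
  · rw [← Finset.sum_range_reflect, ← Finset.sum_neg_distrib]
    refine sum_congr rfl fun j hj => ?_
    have hj' := mem_range.mp hj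
    simp only [Prod.snd_swap, Prod.fst_swap]
    rw [show n + 1 - 1 - j = n - j by omega,
      show min (2 * n + 1 - (n + 1 + (n - j))) (n + 1 + (n - j)) = j by omega, ce,
      show n + 1 + (n - j) = 2 * n + 1 - j by omega]
    have h1 : (-1 : ℤ) ^ (2 * n + 1 - j) = - (-1) ^ j := by
      have : (-1 : ℤ) ^ (2 * n + 1 - j) * (-1) ^ j = -1 := by
        rw [← pow_add, show 2 * n + 1 - j + j = 2 * n + 1 by omega, pow_succ, pow_mul]; simp
      have hs : (-1 : ℤ) ^ j * (-1) ^ j = 1 := by rw [← mul_pow]; simp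
      linear_combination (-1 : ℤ) ^ j * this - (-1 : ℤ) ^ (2 * n + 1 - j) * hs
    rw [h1, Nat.choose_symm_of_eq_add (by omega : 2 * n + 4 = (2 * n + 1 - j + 2) + (j + 1))]
    ring

theorem sum_aux (n m : ℕ) :
    ∑ j ∈ range (m + 1), (-1 : ℤ) ^ j * ((2 * n + 4).choose (j + 1) : ℕ) * ((j + 2).choose 2 : ℕ) =
      (2 * n + 4) * ((-1) ^ m * ((2 * n + 2).choose m : ℕ)) - Tsum n m := by
  induction m with
  | zero => simp [Tsum]
  | succ m ih =>
    rw [Finset.sum_range_succ, ih, Tsum, Tsum, Finset.sum_range_succ, ce]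
    have h1 : (((m + 1 + 2).choose 2 : ℕ) : ℤ) = ((m + 2).choose 2 : ℕ) + (m + 2) := by
      rw [show m + 1 + 2 = m + 2 + 1 by ring, Nat.choose_succ_succ' (m + 2) 1, Nat.choose_one_right]
      push_cast; ring
    have h2 : (((2 * n + 4).choose (m + 2) : ℕ) : ℤ) * (m + 2) =
        (2 * n + 4) * ((2 * n + 3).choose (m + 1) : ℕ) := by
      have := Nat.add_one_mul_choose_eq (2 * n + 3) (m + 1)
      have h' : (((2 * n + 3 + 1) * (2 * n + 3).choose (m + 1) : ℕ) : ℤ) =
        ((2 * n + 3 + 1).choose (m + 1 + 1) * (m + 1 + 1) : ℕ) := by rw [this]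
      push_cast at h'
      linear_combination -h'
    have h3 : (((2 * n + 3).choose (m + 1) : ℕ) : ℤ) =
        ((2 * n + 2).choose m : ℕ) + ((2 * n + 2).choose (m + 1) : ℕ) := by
      rw [Nat.choose_succ_succ' (2 * n + 2) m]; push_cast; ring
    rw [show m + 1 + 1 = m + 2 by ring, h1, pow_succ]
    linear_combination -(-1) ^ m * h2 - (-1) ^ m * (2 * n + 4) * h3

/-- The first binomial identity. -/
theorem S1_val (n : ℕ) (hn : 1 ≤ n) :
    S1 n = (-1) ^ n * (2 * (2 * n + 3) * ((2 * n + 1).choose n : ℕ)) := by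
  obtain ⟨k, rfl⟩ : ∃ k, n = k + 1 := ⟨n - 1, by omega⟩
  rw [S1_eq, Tsum_eq, Tsum_eq]
  have h1 : (((2 * (k + 1) + 4).choose 2 : ℕ) : ℤ) = (k + 3) * (2 * k + 5) := by
    have := Nat.choose_two_right (2 * (k + 1) + 4)
    rw [this, show (2 * (k + 1) + 4) * (2 * (k + 1) + 4 - 1) = ((k + 3) * (2 * k + 5)) * 2 by
      rw [show 2 * (k + 1) + 4 - 1 = 2 * k + 5 by omega]; ring, Nat.mul_div_cancel _ (by norm_num)]
    push_cast; ring
  have h2 : (((2 * (k + 1) + 1).choose k : ℕ) : ℤ) * (k + 3) =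
      ((2 * (k + 1) + 1).choose (k + 1) : ℕ) * (k + 1) := by
    have := Nat.choose_succ_right_eq (2 * (k + 1) + 1) k
    have h' : (((2 * (k + 1) + 1).choose (k + 1) * (k + 1) : ℕ) : ℤ) =
      ((2 * (k + 1) + 1).choose k * (2 * (k + 1) + 1 - k) : ℕ) := by rw [this]
    rw [show 2 * (k + 1) + 1 - k = k + 3 by omega] at h'
    push_cast at h'
    linear_combination -h'
  rw [h1]
  push_cast
  rw [pow_succ]
  linear_combination (2 * k + 5) * (-1) ^ k * h2

theorem S2_val (n : ℕ) (hn : 1 ≤ n) :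
    S2 n = (-1) ^ n * (2 * ((2 * n + 1).choose n : ℕ)) := by
  have h1 := S1_val n hn
  rw [S1_eq] at h1
  rw [S2_eq, sum_aux]
  have h2 : (((2 * n + 2).choose n : ℕ) : ℤ) * (n + 2) = 2 * (n + 1) * ((2 * n + 1).choose n : ℕ) := by
    have e1 := Nat.choose_succ_right_eq (2 * n + 2) n
    have e1' : (((2 * n + 2).choose (n + 1) * (n + 1) : ℕ) : ℤ) =
      ((2 * n + 2).choose n * (2 * n + 2 - n) : ℕ) := by rw [e1]
    rw [show 2 * n + 2 - n = n + 2 by omega] at e1'
    have e2 := Nat.add_one_mul_choose_eq (2 * n + 1) n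
    have e2' : (((2 * n + 1 + 1) * (2 * n + 1).choose n : ℕ) : ℤ) =
      ((2 * n + 1 + 1).choose (n + 1) * (n + 1) : ℕ) := by rw [e2]
    push_cast at e1' e2'
    linear_combination -e1' - e2'
  linear_combination h1 - 2 * (-1) ^ n * h2

theorem S1_S2 (n : ℕ) (hn : 1 ≤ n) : S1 n = (2 * n + 3) * S2 n := by
  rw [S1_val n hn, S2_val n hn]; ring

theorem two_S1 (n : ℕ) (hn : 1 ≤ n) : 2 * S1 n = (n + 2) * ce n n := by
  rw [S1_val n hn, ce]
  have e2 := Nat.add_one_mul_choose_eq (2 * n + 1) n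
  have e2' : (((2 * n + 1 + 1) * (2 * n + 1).choose n : ℕ) : ℤ) =
    ((2 * n + 1 + 1).choose (n + 1) * (n + 1) : ℕ) := by rw [e2]
  have e3 := Nat.add_one_mul_choose_eq (2 * n + 2) (n + 1)
  have e3' : (((2 * n + 2 + 1) * (2 * n + 2).choose (n + 1) : ℕ) : ℤ) =
    ((2 * n + 2 + 1).choose (n + 1 + 1) * (n + 1 + 1) : ℕ) := by rw [e3]
  have e4 : ((2 * n + 4).choose (n + 2) : ℕ) = 2 * (2 * n + 3).choose (n + 2) := by
    rw [Nat.choose_succ_succ' (2 * n + 3) (n + 1),
      Nat.choose_symm_of_eq_add (by omega : 2 * n + 3 = (n + 1) + (n + 2))]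
    ring
  rw [e4]
  push_cast at e2' e3' ⊢
  have h5 : ((2 * n + 1 + 1).choose (n + 1) : ℤ) = 2 * ((2 * n + 1).choose n : ℕ) := by
    have : (n + 1 : ℤ) ≠ 0 := by positivity
    apply mul_right_cancel₀ this
    linear_combination -e2'
  rw [show 2 * n + 2 = 2 * n + 1 + 1 by ring, h5] at e3'
  linear_combination 2 * (-1) ^ n * e3'

end Sums

end Pool.Agent.Helper49.SL
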