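import Mathlib
import Pool.Agent.Helper49.SL.Alg

/-!
The polynomial part of the argument: two linear functionals on `K[L,M,R]` and their relations.
-/

set_option linter.unusedSectionVars false

namespace Pool.Agent.Helper49.SL

open Finset MvPolynomial

section Domain

variable {R : Type*} [CommRing R] [IsDomain R]

theorem Bs_h3 (a b c : R) (n : ℕ) (hd : (a - b) * (b - c) * (a - c) ≠ 0) :
    2 * Bs n (a - b) (b - c) = ∑ p ∈ antidiagonal (2 * n),
      ((-1) ^ p.2 * (((2 * n + 4).choose (p.2 + 2) : ℕ) : R)) * (h3 p.1 a b c * h3 p.2 a b c) := by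
  apply mul_left_cancel₀ (pow_ne_zero 2 hd)
  rw [even_exp]
  have h1 := Bs_eq n (a - b) (b - c)
  rw [show a - b + (b - c) = a - c by ring] at h1
  have h2 : (c - a) ^ (2 * n + 4) = (a - c) ^ (2 * n + 4) := by
    have : Even (2 * n + 4) := ⟨n + 2, by ring⟩
    rw [← this.neg_pow, neg_sub]
  rw [h2, show 2 * n + 4 = 2 * n + 3 + 1 by ring, pow_succ (a - b), pow_succ (b - c),
    pow_succ (a - c)]
  linear_combination 2 * ((a - b) * (b - c) * (a - c)) * h1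

theorem Gs_h3 (a b c : R) (n : ℕ) (hd : (a - b) * (b - c) * (a - c) ≠ 0) :
    Gs n (a - b) (b - c) = 3 * ∑ p ∈ antidiagonal (2 * n + 1),
      ((-1) ^ p.2 * (((2 * n + 4).choose (p.2 + 2) : ℕ) : R)) * (h3 p.1 a b c * h3 p.2 a b c) -
      2 * ((a + b + c) * Bs n (a - b) (b - c)) := by
  apply mul_left_cancel₀ (pow_ne_zero 2 hd)
  have h0 := odd_exp a b c n
  have h1 := Bs_eq n (a - b) (b - c)
  have h3 := Gs_eq n (a - b) (b - c)
  rw [show a - b + (b - c) = a - c by ring] at h1 h3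
  have h2 : (c - a) ^ (2 * n + 4) = (a - c) ^ (2 * n + 4) := by
    have : Even (2 * n + 4) := ⟨n + 2, by ring⟩
    rw [← this.neg_pow, neg_sub]
  rw [h2, show 2 * n + 4 = 2 * n + 3 + 1 by ring, pow_succ (a - b), pow_succ (b - c),
    pow_succ (a - c)] at h0
  rw [show 2 * n + 4 = 2 * n + 3 + 1 by ring]
  linear_combination ((a - b) * (b - c) * (a - c)) * h3 - 3 * h0 +
    2 * (a + b + c) * ((a - b) * (b - c) * (a - c)) * h1

end Domain

section Functional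

variable {K : Type*} [Field K] {V : Type*} [AddCommGroup V] [Module K V]

/-- The functional with prescribed values on monomials. -/
noncomputable def fn (φ : ℕ → ℕ → ℕ → V) : MvPolynomial (Fin 3) K →ₗ[K] V :=
  (MvPolynomial.basisMonomials (Fin 3) K).constr K fun s => φ (s 0) (s 1) (s 2)

theorem mon_eq (a b c : ℕ) : (X 0 ^ a * X 1 ^ b * X 2 ^ c : MvPolynomial (Fin 3) K) =
    monomial (Finsupp.single 0 a + Finsupp.single 1 b + Finsupp.single 2 c) 1 := by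
  rw [X_pow_eq_monomial, X_pow_eq_monomial, X_pow_eq_monomial, monomial_mul, monomial_mul,
    one_mul, one_mul]

theorem fn_mon (φ : ℕ → ℕ → ℕ → V) (a b c : ℕ) :
    fn (K := K) φ (X 0 ^ a * X 1 ^ b * X 2 ^ c) = φ a b c := by
  rw [mon_eq, fn]
  have : (monomial (Finsupp.single (0 : Fin 3) a + Finsupp.single 1 b + Finsupp.single 2 c)
      (1 : K)) = MvPolynomial.basisMonomials (Fin 3) K
        (Finsupp.single (0 : Fin 3) a + Finsupp.single 1 b + Finsupp.single 2 c) := by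
    rw [coe_basisMonomials]
  rw [this, Module.Basis.constr_basis]
  simp

theorem fn_ext {f g : MvPolynomial (Fin 3) K →ₗ[K] V}
    (h : ∀ a b c, f (X 0 ^ a * X 1 ^ b * X 2 ^ c) = g (X 0 ^ a * X 1 ^ b * X 2 ^ c)) : f = g := by
  apply (MvPolynomial.basisMonomials (Fin 3) K).ext
  intro s
  rw [coe_basisMonomials]
  have hs : s = Finsupp.single 0 (s 0) + Finsupp.single 1 (s 1) + Finsupp.single 2 (s 2) := by
    ext i
    fin_cases i <;> simp
  have := h (s 0) (s 1) (s 2)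
  rw [mon_eq, ← hs] at this
  exact this

/-- The annihilator of a functional. -/
def annI (E : MvPolynomial (Fin 3) K →ₗ[K] V) : Ideal (MvPolynomial (Fin 3) K) where
  carrier := {p | ∀ q, E (p * q) = 0}
  add_mem' := fun {a b} ha hb q => by rw [add_mul, map_add, ha, hb, add_zero]
  zero_mem' := fun q => by rw [zero_mul, map_zero]
  smul_mem' := fun c x hx q => by
    rw [smul_eq_mul, mul_comm c x, mul_assoc]; exact hx _

theorem mem_annI {E : MvPolynomial (Fin 3) K →ₗ[K] V} {p : MvPolynomial (Fin 3) K} :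
    p ∈ annI E ↔ ∀ q, E (p * q) = 0 := Iff.rfl

/-- It is enough to test on monomials. -/
theorem mem_annI_of {E : MvPolynomial (Fin 3) K →ₗ[K] V} {p : MvPolynomial (Fin 3) K}
    (h : ∀ a b c, E (p * (X 0 ^ a * X 1 ^ b * X 2 ^ c)) = 0) : p ∈ annI E := by
  have : E ∘ₗ LinearMap.mulLeft K p = 0 := by
    apply fn_ext
    intro a b c
    simpa using h a b c
  intro q
  have h2 := LinearMap.congr_fun this q
  simpa using h2

theorem congr_annI {E : MvPolynomial (Fin 3) K →ₗ[K] V} {p p' : MvPolynomial (Fin 3) K}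
    (h : Ideal.Quotient.mk (annI E) p = Ideal.Quotient.mk (annI E) p') : E p = E p' := by
  rw [Ideal.Quotient.eq] at h
  have := h 1
  rw [mul_one, map_sub, sub_eq_zero] at this
  exact this

/-- The rotation of the variables. -/
noncomputable def rho : MvPolynomial (Fin 3) K →ₐ[K] MvPolynomial (Fin 3) K :=
  aeval ![X 1, X 2, X 0]

@[simp] theorem rho_0 : rho (K := K) (X 0) = X 1 := by simp [rho]
@[simp] theorem rho_1 : rho (K := K) (X 1) = X 2 := by simp [rho]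
@[simp] theorem rho_2 : rho (K := K) (X 2) = X 0 := by simp [rho]

theorem rho_rho_rho (p : MvPolynomial (Fin 3) K) : rho (rho (rho p)) = p := by
  have : (rho.comp (rho.comp rho)) = AlgHom.id K (MvPolynomial (Fin 3) K) := by
    apply MvPolynomial.algHom_ext
    intro i
    fin_cases i <;> simp
  exact DFunLike.congr_fun this p

variable {E0 E1 : MvPolynomial (Fin 3) K →ₗ[K] V}

theorem rho_mem (h0 : ∀ p, E0 (rho p) = E0 p) {p : MvPolynomial (Fin 3) K} (hp : p ∈ annI E0) :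
    rho p ∈ annI E0 := by
  intro q
  have : rho p * q = rho (p * rho (rho q)) := by rw [map_mul, rho_rho_rho]
  rw [this, h0]
  exact hp _

theorem dne [CharZero K] : ((X 0 - X 1) * (X 1 - X 2) * (X 0 - X 2) : MvPolynomial (Fin 3) K) ≠ 0 := by
  intro h
  have := congrArg (MvPolynomial.eval fun i : Fin 3 => if i = 0 then (2 : K) else
    if i = 1 then 1 else 0) h
  have h10 : (1 : Fin 3) ≠ 0 := by decide
  have h20 : (2 : Fin 3) ≠ 0 := by decide
  have h21 : (2 : Fin 3) ≠ 1 := by decide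
  simp only [map_mul, map_sub, eval_X, map_zero, if_neg h10, if_neg h20, if_neg h21,
    if_true] at this
  norm_num at this

section E1

variable (k : ℕ)
    (h1l : (X 0 ^ (k + 3) : MvPolynomial (Fin 3) K) ∈ annI E1)
    (h1m : (X 1 ^ (k + 3) : MvPolynomial (Fin 3) K) ∈ annI E1)
    (h1r : (X 2 ^ (k + 3) : MvPolynomial (Fin 3) K) ∈ annI E1)
    (h1a : (h2 (k + 2) (X 0) (X 1) : MvPolynomial (Fin 3) K) ∈ annI E1)
    (h1b : (X 0 * h2 (k + 2) (X 0) (X 2) : MvPolynomial (Fin 3) K) ∈ annI E1)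
    (h1c : (X 1 * h2 (k + 2) (X 1) (X 2) : MvPolynomial (Fin 3) K) ∈ annI E1)
    (h1d : E1 (X 0 ^ k * h2 (k + 2) (X 1) (X 2)) = - E1 (X 1 ^ k * h2 (k + 2) (X 0) (X 2)))

theorem quot_pow {E : MvPolynomial (Fin 3) K →ₗ[K] V} {i : Fin 3} {j : ℕ}
    (h : (X i ^ j : MvPolynomial (Fin 3) K) ∈ annI E) :
    (Ideal.Quotient.mk (annI E) (X i)) ^ j = 0 := by
  rw [← map_pow]; exact Ideal.Quotient.eq_zero_iff_mem.mpr h

theorem quot_h2 {E : MvPolynomial (Fin 3) K →ₗ[K] V} {a b : MvPolynomial (Fin 3) K} {j : ℕ}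
    (h : h2 j a b ∈ annI E) :
    h2 j (Ideal.Quotient.mk (annI E) a) (Ideal.Quotient.mk (annI E) b) = 0 := by
  rw [← h2_map]; exact Ideal.Quotient.eq_zero_iff_mem.mpr h

theorem quot_mul_h2 {E : MvPolynomial (Fin 3) K →ₗ[K] V} {c a b : MvPolynomial (Fin 3) K} {j : ℕ}
    (h : c * h2 j a b ∈ annI E) :
    Ideal.Quotient.mk (annI E) c *
      h2 j (Ideal.Quotient.mk (annI E) a) (Ideal.Quotient.mk (annI E) b) = 0 := by
  rw [← h2_map, ← map_mul]; exact Ideal.Quotient.eq_zero_iff_mem.mpr h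

include h1l h1m h1r h1a h1b h1c

theorem E1_prod (s i : ℕ) (hsi : s + i = k) :
    E1 (h3 i (X 0) (X 1) (X 2) * h3 (k + 2 + s) (X 0) (X 1) (X 2)) =
      (((i + 2).choose 2 : ℕ) : K) • E1 (X 2 ^ (k + 1) * h3 (k + 1) (X 0) (X 1) (X 2)) := by
  rw [← map_smul]
  apply congr_annI
  have := A1_prod (quot_pow h1l) (quot_pow h1m) (quot_pow h1r) (quot_h2 h1a) (quot_mul_h2 h1b)
    (quot_mul_h2 h1c) s i
  rw [show s + 1 + i = k + 1 by omega] at this
  rw [Algebra.smul_def]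
  simp only [map_mul, map_pow, h3_map, map_natCast]
  exact this

theorem E1_x (j : ℕ) : E1 (X 2 * X 0 ^ j * h3 (k + 1) (X 0) (X 1) (X 2)) =
    E1 (X 2 ^ (j + 1) * h3 (k + 1) (X 0) (X 1) (X 2)) := by
  apply congr_annI
  simp only [map_mul, map_pow, h3_map]
  have h := A1_lr (quot_pow h1m) (quot_pow h1r) (quot_h2 h1a) (quot_mul_h2 h1c)
  induction j with
  | zero => ring
  | succ j ih =>
    rw [pow_succ, pow_succ (Ideal.Quotient.mk (annI E1) (X 2)) (j + 1)]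
    linear_combination (Ideal.Quotient.mk (annI E1) (X 0)) * ih +
      (Ideal.Quotient.mk (annI E1) (X 2)) ^ j * h

theorem E1_y (j : ℕ) : E1 (X 2 * X 1 ^ j * h3 (k + 1) (X 0) (X 1) (X 2)) =
    E1 (X 2 ^ (j + 1) * h3 (k + 1) (X 0) (X 1) (X 2)) := by
  apply congr_annI
  simp only [map_mul, map_pow, h3_map]
  have h := A1_mr (quot_pow h1l) (quot_pow h1r) (quot_h2 h1a) (quot_mul_h2 h1b)
  induction j with
  | zero => ring
  | succ j ih =>
    rw [pow_succ, pow_succ (Ideal.Quotient.mk (annI E1) (X 2)) (j + 1)]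
    linear_combination (Ideal.Quotient.mk (annI E1) (X 1)) * ih +
      (Ideal.Quotient.mk (annI E1) (X 2)) ^ j * h

theorem E1_z : E1 (h3 (k + 2) (X 0) (X 1) (X 2) * X 2 ^ k) =
    E1 (X 2 ^ (k + 1) * h3 (k + 1) (X 0) (X 1) (X 2)) := by
  apply congr_annI
  simp only [map_mul, map_pow, h3_map]
  rw [show k + 2 = k + 1 + 1 by ring, A1_hj (quot_pow h1m) (quot_h2 h1a) 1]
  ring

include h1d

theorem E1_HH : E1 (h3 (k + 1) (X 0) (X 1) (X 2) * h3 (k + 1) (X 0) (X 1) (X 2)) =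
    (((k + 3).choose 2 : ℕ) : K) • E1 (X 2 ^ (k + 1) * h3 (k + 1) (X 0) (X 1) (X 2)) := by
  have h1 : E1 (h3 (k + 1) (X 0) (X 1) (X 2) * h3 (k + 1) (X 0) (X 1) (X 2)) =
      (((k + 2).choose 2 + k : ℕ) : K) • E1 (X 2 ^ (k + 1) * h3 (k + 1) (X 0) (X 1) (X 2)) +
      E1 (h3 (k + 1) (X 0) (X 1) (X 2) * X 0 ^ (k + 1)) +
      E1 (h3 (k + 1) (X 0) (X 1) (X 2) * X 1 ^ (k + 1)) := by
    rw [← map_smul, ← map_add, ← map_add]
    apply congr_annI
    have := A1_HH (quot_pow h1l) (quot_pow h1m) (quot_pow h1r) (quot_h2 h1a) (quot_mul_h2 h1b)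
      (quot_mul_h2 h1c)
    rw [Algebra.smul_def]
    simp only [map_mul, map_add, map_pow, h3_map, map_natCast]
    exact this
  have h2' : E1 (h3 (k + 1) (X 0) (X 1) (X 2) * X 0 ^ (k + 1)) =
      E1 (X 2 * X 0 ^ k * h3 (k + 1) (X 0) (X 1) (X 2)) -
        E1 (X 0 ^ k * h2 (k + 2) (X 1) (X 2)) := by
    rw [← map_sub]
    apply congr_annI
    simp only [map_mul, map_pow, map_sub, h3_map, h2_map]
    have h := A1_a (r := Ideal.Quotient.mk (annI E1) (X 2)) (quot_h2 h1a)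
    rw [pow_succ]
    linear_combination (Ideal.Quotient.mk (annI E1) (X 0)) ^ k * h
  have h3' : E1 (h3 (k + 1) (X 0) (X 1) (X 2) * X 1 ^ (k + 1)) =
      E1 (X 2 * X 1 ^ k * h3 (k + 1) (X 0) (X 1) (X 2)) -
        E1 (X 1 ^ k * h2 (k + 2) (X 0) (X 2)) := by
    rw [← map_sub]
    apply congr_annI
    simp only [map_mul, map_pow, map_sub, h3_map, h2_map]
    have h := A1_b (r := Ideal.Quotient.mk (annI E1) (X 2)) (quot_h2 h1a)
    rw [pow_succ]
    linear_combination (Ideal.Quotient.mk (annI E1) (X 1)) ^ k * h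
  rw [h1, h2', h3', E1_x k h1l h1m h1r h1a h1b h1c, E1_y k h1l h1m h1r h1a h1b h1c, h1d]
  have hch : ((k + 3).choose 2 : ℕ) = (k + 2).choose 2 + k + 2 := by
    rw [Nat.choose_succ_succ' (k + 2) 1, Nat.choose_one_right]
    ring
  rw [hch]
  push_cast
  module

theorem E1_min (p : ℕ × ℕ) (hp : p ∈ antidiagonal (2 * (k + 1))) :
    E1 (h3 p.1 (X 0) (X 1) (X 2) * h3 p.2 (X 0) (X 1) (X 2)) =
      (((min p.1 p.2 + 2).choose 2 : ℕ) : K) •
        E1 (X 2 ^ (k + 1) * h3 (k + 1) (X 0) (X 1) (X 2)) := by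
  have h : p.1 + p.2 = 2 * (k + 1) := by simpa using hp
  rcases lt_trichotomy p.1 p.2 with h1 | h1 | h1
  · have := E1_prod k h1l h1m h1r h1a h1b h1c (p.2 - (k + 2)) p.1 (by omega)
    rw [show k + 2 + (p.2 - (k + 2)) = p.2 by omega] at this
    rw [min_eq_left h1.le, this]
  · have h4 : p.1 = k + 1 := by omega
    have h5 : p.2 = k + 1 := by omega
    rw [h4, h5, min_self, E1_HH k h1l h1m h1r h1a h1b h1c h1d]
  · have := E1_prod k h1l h1m h1r h1a h1b h1c (p.1 - (k + 2)) p.2 (by omega)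
    rw [show k + 2 + (p.1 - (k + 2)) = p.1 by omega, mul_comm] at this
    rw [min_eq_right h1.le, this]

end E1

section E0

variable (k : ℕ)
    (h0 : ∀ p, E0 (rho p) = E0 p)
    (h0n : (X 0 ^ (k + 3) : MvPolynomial (Fin 3) K) ∈ annI E0)
    (h0h : (X 0 * h2 (k + 2) (X 0) (X 1) : MvPolynomial (Fin 3) K) ∈ annI E0)

theorem rho_h2 (a b : MvPolynomial (Fin 3) K) (j : ℕ) : rho (h2 j a b) = h2 j (rho a) (rho b) :=
  h2_map a b (rho (K := K)).toRingHom j

include h0 h0n in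
theorem h0n1 : (X 1 ^ (k + 3) : MvPolynomial (Fin 3) K) ∈ annI E0 := by
  have := rho_mem h0 h0n
  simpa using this

include h0 h0n in
theorem h0n2 : (X 2 ^ (k + 3) : MvPolynomial (Fin 3) K) ∈ annI E0 := by
  have := rho_mem h0 (h0n1 k h0 h0n)
  simpa using this

include h0 h0h in
theorem h0h1 : (X 1 * h2 (k + 2) (X 1) (X 2) : MvPolynomial (Fin 3) K) ∈ annI E0 := by
  have := rho_mem h0 h0h
  rwa [map_mul, rho_h2, rho_0, rho_1] at this

include h0 h0h in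
theorem h0h2 : (X 2 * h2 (k + 2) (X 2) (X 0) : MvPolynomial (Fin 3) K) ∈ annI E0 := by
  have := rho_mem h0 (h0h1 k h0 h0h)
  rwa [map_mul, rho_h2, rho_2, rho_1] at this

include h0 h0n h0h

theorem E0_prod (s i : ℕ) (hsi : s + i = k + 1) :
    E0 (h3 i (X 0) (X 1) (X 2) * h3 (k + 2 + s) (X 0) (X 1) (X 2)) =
      (((i + 2).choose 2 : ℕ) : K) • E0 (X 0 * X 1 * h3 (k + 1) (X 0) (X 1) (X 2) * X 2 ^ k) := by
  rw [← map_smul]
  apply congr_annI
  have := A0_prod (quot_pow h0n) (quot_pow (h0n1 k h0 h0n)) (quot_pow (h0n2 k h0 h0n))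
    (quot_mul_h2 h0h) (quot_mul_h2 (h0h1 k h0 h0h)) (quot_mul_h2 (h0h2 k h0 h0h)) s i hsi
  rw [Algebra.smul_def]
  simp only [map_mul, map_pow, h3_map, map_natCast]
  exact this

theorem E0_e1 (s i : ℕ) (hsi : s + i = k) :
    E0 ((X 0 + X 1 + X 2) * (h3 i (X 0) (X 1) (X 2) * h3 (k + 2 + s) (X 0) (X 1) (X 2))) =
      (3 * ((i + 2).choose 2 : ℕ) : K) •
        E0 (X 0 * X 1 * h3 (k + 1) (X 0) (X 1) (X 2) * X 2 ^ k) := by
  rw [← map_smul]
  apply congr_annI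
  have := A0_e1prod (quot_pow h0n) (quot_pow (h0n1 k h0 h0n)) (quot_pow (h0n2 k h0 h0n))
    (quot_mul_h2 h0h) (quot_mul_h2 (h0h1 k h0 h0h)) (quot_mul_h2 (h0h2 k h0 h0h)) s i hsi
  rw [Algebra.smul_def]
  simp only [map_mul, map_add, map_pow, h3_map, map_natCast, map_ofNat]
  exact this

theorem E0_HH : E0 ((X 0 + X 1 + X 2) * (h3 (k + 1) (X 0) (X 1) (X 2) *
    h3 (k + 1) (X 0) (X 1) (X 2))) =
      (3 * ((k + 3).choose 2 : ℕ) - (k + 3) : K) •
        E0 (X 0 * X 1 * h3 (k + 1) (X 0) (X 1) (X 2) * X 2 ^ k) := by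
  rw [← map_smul]
  apply congr_annI
  have := A0_e1HH (quot_pow h0n) (quot_pow (h0n1 k h0 h0n)) (quot_pow (h0n2 k h0 h0n))
    (quot_mul_h2 h0h) (quot_mul_h2 (h0h1 k h0 h0h)) (quot_mul_h2 (h0h2 k h0 h0h))
  rw [Algebra.smul_def]
  simp only [map_mul, map_add, map_sub, map_pow, h3_map, map_natCast, map_ofNat]
  push_cast at this
  exact this

end E0

theorem hcast (k j : ℕ) (q : MvPolynomial (Fin 3) K) :
    ((-1) ^ j * (((2 * (k + 1) + 4).choose (j + 2) : ℕ) : MvPolynomial (Fin 3) K)) * q =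
      ((ce (k + 1) j : ℤ) : K) • q := by
  rw [ce, Algebra.smul_def]
  simp

variable [CharZero K]

/-- value of `E1` on `Bs` -/
theorem val1 (k : ℕ) {ω : V}
    (h : ∀ p ∈ antidiagonal (2 * (k + 1)),
      E1 (h3 p.1 (X 0) (X 1) (X 2) * h3 p.2 (X 0) (X 1) (X 2)) =
      (((min p.1 p.2 + 2).choose 2 : ℕ) : K) • ω) :
    (2 : K) • E1 (Bs (k + 1) (X 0 - X 1) (X 1 - X 2)) = ((S1 (k + 1) : ℤ) : K) • ω := by
  have hB := Bs_h3 (X 0 : MvPolynomial (Fin 3) K) (X 1) (X 2) (k + 1) dne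
  have : (2 : K) • E1 (Bs (k + 1) (X 0 - X 1) (X 1 - X 2)) =
      E1 (2 * Bs (k + 1) (X 0 - X 1) (X 1 - X 2)) := by
    rw [← map_smul, Algebra.smul_def, map_ofNat]
  rw [this, hB, map_sum, S1, Int.cast_sum, Finset.sum_smul]
  refine sum_congr rfl fun p hp => ?_
  rw [hcast, map_smul, h p hp, smul_smul]
  congr 1
  push_cast
  ring

/-- value of `E0` on `e1 * Bs` -/
theorem val2 (k : ℕ) {g : V}
    (h : ∀ s i : ℕ, s + i = k →
      E0 ((X 0 + X 1 + X 2) * (h3 i (X 0) (X 1) (X 2) * h3 (k + 2 + s) (X 0) (X 1) (X 2))) =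
      (3 * ((i + 2).choose 2 : ℕ) : K) • g)
    (h' : E0 ((X 0 + X 1 + X 2) * (h3 (k + 1) (X 0) (X 1) (X 2) * h3 (k + 1) (X 0) (X 1) (X 2))) =
      (3 * ((k + 3).choose 2 : ℕ) - (k + 3) : K) • g) :
    (2 : K) • E0 ((X 0 + X 1 + X 2) * Bs (k + 1) (X 0 - X 1) (X 1 - X 2)) =
      ((S1 (k + 1) : ℤ) : K) • g := by
  have hB := Bs_h3 (X 0 : MvPolynomial (Fin 3) K) (X 1) (X 2) (k + 1) dne
  have h0 : (2 : K) • E0 ((X 0 + X 1 + X 2) * Bs (k + 1) (X 0 - X 1) (X 1 - X 2)) =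
      E0 ((X 0 + X 1 + X 2) * (2 * Bs (k + 1) (X 0 - X 1) (X 1 - X 2))) := by
    have e : (2 : K) • ((X 0 + X 1 + X 2 : MvPolynomial (Fin 3) K) *
        Bs (k + 1) (X 0 - X 1) (X 1 - X 2)) =
        (X 0 + X 1 + X 2) * (2 * Bs (k + 1) (X 0 - X 1) (X 1 - X 2)) := by
      rw [Algebra.smul_def, map_ofNat]
      exact mul_left_comm _ _ _
    rw [← map_smul, e]
  rw [h0, hB, mul_sum, map_sum]
  have hterm : ∀ p ∈ antidiagonal (2 * (k + 1)),
      E0 ((X 0 + X 1 + X 2) * (((-1) ^ p.2 * (((2 * (k + 1) + 4).choose (p.2 + 2) : ℕ) :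
        MvPolynomial (Fin 3) K)) * (h3 p.1 (X 0) (X 1) (X 2) * h3 p.2 (X 0) (X 1) (X 2)))) =
      (((3 * (ce (k + 1) p.2 * ((min p.1 p.2 + 2).choose 2 : ℕ) : ℤ) : K)) • g) -
        (if p = (k + 1, k + 1) then ((k + 3 : K) * (ce (k + 1) (k + 1) : ℤ)) • g else 0) := by
    intro p hp
    have hps : p.1 + p.2 = 2 * (k + 1) := by simpa using hp
    have hcomm : (X 0 + X 1 + X 2) * (((-1) ^ p.2 * (((2 * (k + 1) + 4).choose (p.2 + 2) : ℕ) :
        MvPolynomial (Fin 3) K)) * (h3 p.1 (X 0) (X 1) (X 2) * h3 p.2 (X 0) (X 1) (X 2))) =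
        ((ce (k + 1) p.2 : ℤ) : K) • ((X 0 + X 1 + X 2) *
          (h3 p.1 (X 0) (X 1) (X 2) * h3 p.2 (X 0) (X 1) (X 2))) := by
      rw [← hcast]
      exact mul_left_comm _ _ _
    rw [hcomm, map_smul]
    rcases lt_trichotomy p.1 p.2 with h1 | h1 | h1
    · have hne : p ≠ (k + 1, k + 1) := by rintro rfl; simp at h1
      have := h (p.2 - (k + 2)) p.1 (by omega)
      rw [show k + 2 + (p.2 - (k + 2)) = p.2 by omega] at this
      rw [if_neg hne, this, min_eq_left h1.le, sub_zero, smul_smul]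
      congr 1
      push_cast
      ring
    · have h4 : p.1 = k + 1 := by omega
      have h5 : p.2 = k + 1 := by omega
      have hpe : p = (k + 1, k + 1) := Prod.ext h4 h5
      rw [if_pos hpe, h4, h5, min_self, h']
      push_cast
      module
    · have hne : p ≠ (k + 1, k + 1) := by rintro rfl; simp at h1
      have := h (p.1 - (k + 2)) p.2 (by omega)
      rw [show k + 2 + (p.1 - (k + 2)) = p.1 by omega, mul_comm (h3 p.2 _ _ _)] at this
      rw [if_neg hne, this, min_eq_right h1.le, sub_zero, smul_smul]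
      congr 1
      push_cast
      ring
  rw [sum_congr rfl hterm, Finset.sum_sub_distrib, ← Finset.sum_smul,
    Finset.sum_ite_eq' (antidiagonal (2 * (k + 1)))]
  rw [if_pos (by simp; ring)]
  have h3S : ∑ p ∈ antidiagonal (2 * (k + 1)),
      ((3 * (ce (k + 1) p.2 * ((min p.1 p.2 + 2).choose 2 : ℕ) : ℤ) : K)) =
      3 * ((S1 (k + 1) : ℤ) : K) := by
    rw [S1, Int.cast_sum, mul_sum]
  rw [h3S]
  have h2S : (2 : K) * ((S1 (k + 1) : ℤ) : K) = (k + 3) * ((ce (k + 1) (k + 1) : ℤ) : K) := by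
    have := two_S1 (k + 1) (by omega)
    have h'' : (((2 * S1 (k + 1) : ℤ)) : K) =
        ((((k + 1 : ℕ) + 2) * ce (k + 1) (k + 1) : ℤ) : K) := by
      rw [this]
    push_cast at h''
    rw [h'']
    ring
  rw [← h2S]
  module

/-- value of `E0` on `Gs` -/
theorem val3 (k : ℕ) {g : V}
    (h : ∀ s i : ℕ, s + i = k + 1 →
      E0 (h3 i (X 0) (X 1) (X 2) * h3 (k + 2 + s) (X 0) (X 1) (X 2)) =
      (((i + 2).choose 2 : ℕ) : K) • g)
    (v2 : (2 : K) • E0 ((X 0 + X 1 + X 2) * Bs (k + 1) (X 0 - X 1) (X 1 - X 2)) =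
      ((S1 (k + 1) : ℤ) : K) • g) :
    E0 (Gs (k + 1) (X 0 - X 1) (X 1 - X 2)) =
      (3 * (S2 (k + 1) : ℤ) - (S1 (k + 1) : ℤ) : K) • g := by
  have hG := Gs_h3 (X 0 : MvPolynomial (Fin 3) K) (X 1) (X 2) (k + 1) dne
  rw [hG, map_sub]
  have e1 : E0 (3 * ∑ p ∈ antidiagonal (2 * (k + 1) + 1),
    ((-1) ^ p.2 * (((2 * (k + 1) + 4).choose (p.2 + 2) : ℕ) : MvPolynomial (Fin 3) K)) *
      (h3 p.1 (X 0) (X 1) (X 2) * h3 p.2 (X 0) (X 1) (X 2))) =
      ((3 * (S2 (k + 1) : ℤ) : K) • g) := by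
    rw [mul_sum, map_sum, S2, Int.cast_sum, mul_sum, Finset.sum_smul]
    refine sum_congr rfl fun p hp => ?_
    have hps : p.1 + p.2 = 2 * (k + 1) + 1 := by simpa using hp
    have hcomm : 3 * (((-1) ^ p.2 * (((2 * (k + 1) + 4).choose (p.2 + 2) : ℕ) :
        MvPolynomial (Fin 3) K)) * (h3 p.1 (X 0) (X 1) (X 2) * h3 p.2 (X 0) (X 1) (X 2))) =
        (3 * ((ce (k + 1) p.2 : ℤ) : K)) • (h3 p.1 (X 0) (X 1) (X 2) *
          h3 p.2 (X 0) (X 1) (X 2)) := by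
      rw [mul_smul, ← hcast, Algebra.smul_def, map_ofNat]
    rw [hcomm, map_smul]
    rcases lt_or_ge p.1 p.2 with h1 | h1
    · have := h (p.2 - (k + 2)) p.1 (by omega)
      rw [show k + 2 + (p.2 - (k + 2)) = p.2 by omega] at this
      rw [this, min_eq_left h1.le, smul_smul]
      congr 1
      push_cast
      ring
    · have := h (p.1 - (k + 2)) p.2 (by omega)
      rw [show k + 2 + (p.1 - (k + 2)) = p.1 by omega, mul_comm (h3 p.2 _ _ _)] at this
      rw [this, min_eq_right h1, smul_smul]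
      congr 1
      push_cast
      ring
  have e2 : E0 (2 * ((X 0 + X 1 + X 2) * Bs (k + 1) (X 0 - X 1) (X 1 - X 2))) =
      ((S1 (k + 1) : ℤ) : K) • g := by
    rw [← v2, ← map_smul, Algebra.smul_def, map_ofNat]
  rw [e1, e2, sub_smul]

theorem core (k : ℕ)
    (h0 : ∀ p, E0 (rho p) = E0 p)
    (h0n : (X 0 ^ (k + 3) : MvPolynomial (Fin 3) K) ∈ annI E0)
    (h0h : (X 0 * h2 (k + 2) (X 0) (X 1) : MvPolynomial (Fin 3) K) ∈ annI E0)
    (h1l : (X 0 ^ (k + 3) : MvPolynomial (Fin 3) K) ∈ annI E1)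
    (h1m : (X 1 ^ (k + 3) : MvPolynomial (Fin 3) K) ∈ annI E1)
    (h1r : (X 2 ^ (k + 3) : MvPolynomial (Fin 3) K) ∈ annI E1)
    (h1a : (h2 (k + 2) (X 0) (X 1) : MvPolynomial (Fin 3) K) ∈ annI E1)
    (h1b : (X 0 * h2 (k + 2) (X 0) (X 2) : MvPolynomial (Fin 3) K) ∈ annI E1)
    (h1c : (X 1 * h2 (k + 2) (X 1) (X 2) : MvPolynomial (Fin 3) K) ∈ annI E1)
    (h1d : E1 (X 0 ^ k * h2 (k + 2) (X 1) (X 2)) = - E1 (X 1 ^ k * h2 (k + 2) (X 0) (X 2)))
    (h01 : E1 (h3 (k + 2) (X 0) (X 1) (X 2) * X 2 ^ k) +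
      E0 (X 0 * X 1 * h3 (k + 1) (X 0) (X 1) (X 2) * X 2 ^ k) +
      E1 (X 2 * X 1 ^ k * h3 (k + 1) (X 0) (X 1) (X 2)) -
      E1 (X 2 * X 0 ^ k * h3 (k + 1) (X 0) (X 1) (X 2)) = 0) :
    (18 * (k + 1) : K) • E1 (Bs (k + 1) (X 0 - X 1) (X 1 - X 2)) -
      (2 * (k + 1) : K) • E0 ((X 0 + X 1 + X 2) * Bs (k + 1) (X 0 - X 1) (X 1 - X 2)) -
      (5 * (2 * k + 5) : K) • E0 (Gs (k + 1) (X 0 - X 1) (X 1 - X 2)) = 0 := by
  have v1 := val1 k (E1_min k h1l h1m h1r h1a h1b h1c h1d)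
  have v2 := val2 k (E0_e1 k h0 h0n h0h) (E0_HH k h0 h0n h0h)
  have v3 := val3 k (E0_prod k h0 h0n h0h) v2
  rw [E1_x k h1l h1m h1r h1a h1b h1c, E1_y k h1l h1m h1r h1a h1b h1c,
    E1_z k h1l h1m h1r h1a h1b h1c] at h01
  set ω : V := E1 (X 2 ^ (k + 1) * h3 (k + 1) (X 0) (X 1) (X 2)) with hω
  set g : V := E0 (X 0 * X 1 * h3 (k + 1) (X 0) (X 1) (X 2) * X 2 ^ k) with hg
  have hgω : g = - ω := by
    have : g + ω = 0 := by rw [← h01]; abel
    exact eq_neg_of_add_eq_zero_left this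
  have two : ∀ (x : V) (y : V), (2 : K) • x = y → x = (2⁻¹ : K) • y := by
    intro x y h
    rw [← h, smul_smul, inv_mul_cancel₀ two_ne_zero, one_smul]
  have w1 := two _ _ v1
  have w2 := two _ _ v2
  have h12 : ((S1 (k + 1) : ℤ) : K) = (2 * k + 5) * ((S2 (k + 1) : ℤ) : K) := by
    have := S1_S2 (k + 1) (by omega)
    have h' : ((S1 (k + 1) : ℤ) : K) = (((2 * (k + 1 : ℕ) + 3) * S2 (k + 1) : ℤ) : K) := by rw [this]
    push_cast at h'
    rw [h']
    ring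
  rw [w1, w2, v3, h12, hgω]
  match_scalars
  field_simp
  ring

end Functional

end Pool.Agent.Helper49.SL
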