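import Mathlib
import Pool.Agent.Helper49.SL.Super
import Pool.Agent.Helper49.SL.Core

/-!
Relations between traces of words in an odd matrix `X` and an even matrix `y`.
-/

set_option linter.unusedSectionVars false

namespace Pool.Agent.Helper49.SL

open Finset Matrix Super

variable {K Λ : Type*} [Field K] [Ring Λ] [Algebra K Λ] {S : Super K Λ}
variable {m : Type*} [Fintype m] [DecidableEq m] {X y z t C : Matrix m m Λ}

/-- even block -/
def Ub (X : Matrix m m Λ) (a : ℕ) (y : Matrix m m Λ) : Matrix m m Λ := (X * X) ^ a * y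

/-- odd block -/
def Vb (X : Matrix m m Λ) (a : ℕ) (y : Matrix m m Λ) : Matrix m m Λ := X * (X * X) ^ a * y

theorem Ub_mem (hX : X ∈ S.odM (m := m)) (hy : y ∈ S.evM (m := m)) (a : ℕ) :
    Ub X a y ∈ S.evM (m := m) := ee (epow (oo hX hX) a) hy

theorem Vb_mem (hX : X ∈ S.odM (m := m)) (hy : y ∈ S.evM (m := m)) (a : ℕ) :
    Vb X a y ∈ S.odM (m := m) := oe (oe hX (epow (oo hX hX) a)) hy

theorem cXT (X : Matrix m m Λ) (a : ℕ) : X * (X * X) ^ a = (X * X) ^ a * X :=
  (((Commute.refl X).mul_right (Commute.refl X)).pow_right a).eq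

/-- If `trace (M * t) = 0` for all even `t` then `M = 0`. -/
theorem eq_zero_of_trace (S : Super K Λ) {M : Matrix m m Λ}
    (h : ∀ t ∈ S.evM (m := m), trace (M * t) = 0) : M = 0 := by
  ext i j
  have h1 := h (Matrix.single j i 1) (by
    intro a b
    rw [Matrix.single_apply]
    split_ifs
    · exact S.one_mem
    · exact S.ev.zero_mem)
  rw [Matrix.trace_mul_single] at h1
  simpa using h1

section Char

variable [CharZero K]

theorem smul_two_eq {V : Type*} [AddCommGroup V] [Module K V] {x : V} (h : x + x = 0) : x = 0 := by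
  have : (2 : K) • x = 0 := by rw [two_smul, h]
  exact (smul_eq_zero.mp this).resolve_left two_ne_zero

theorem T1_term (hX : X ∈ S.odM (m := m)) (hy : y ∈ S.evM (m := m)) (hC : C ∈ S.odM (m := m))
    (a b : ℕ) : trace (y * ((X * X) ^ a * (X * C + C * X) * (X * X) ^ b)) =
      - trace ((X * X) ^ b * (X * y - y * X) * (X * X) ^ a * C) := by
  have hT := fun k => epow (S := S) (oo hX hX) k
  have e1 : trace (y * ((X * X) ^ a * (X * C) * (X * X) ^ b)) =
      trace ((X * X) ^ b * (y * X) * (X * X) ^ a * C) := by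
    have : y * ((X * X) ^ a * (X * C) * (X * X) ^ b) = (y * (X * (X * X) ^ a) * C) * (X * X) ^ b := by
      rw [cXT]; simp only [mul_assoc]
    rw [this, tr_e' (hT b)]
    simp only [mul_assoc]
  have e2 : trace (y * ((X * X) ^ a * (C * X) * (X * X) ^ b)) =
      - trace ((X * X) ^ b * (X * y) * (X * X) ^ a * C) := by
    have : y * ((X * X) ^ a * (C * X) * (X * X) ^ b) = (y * (X * X) ^ a * C) * (X * (X * X) ^ b) := by
      simp only [mul_assoc]
    rw [this, tr_o (eo (ee hy (hT a)) hC) (oe hX (hT b)), cXT]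
    simp only [mul_assoc]
  rw [mul_add ((X * X) ^ a), add_mul, mul_add, trace_add, e1, e2, mul_sub ((X * X) ^ b), sub_mul,
    sub_mul, trace_sub]
  abel

/-- First order relation in trace form. -/
theorem T1 {n : ℕ} (hn : Fintype.card m = n + 1) (hX : X ∈ S.odM (m := m))
    (hy : y ∈ S.evM (m := m)) (hC : C ∈ S.odM (m := m)) :
    ∑ p ∈ antidiagonal n, trace ((X * X) ^ p.1 * (X * y - y * X) * (X * X) ^ p.2 * C) = 0 := by
  have h := congrArg (fun M => trace (y * M)) (R1 hn hX hC)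
  simp only [mul_sum, trace_sum, mul_zero, trace_zero] at h
  rw [sum_congr rfl fun p _ => T1_term hX hy hC p.1 p.2, sum_neg_distrib, neg_eq_zero] at h
  rw [← h, ← Finset.Nat.sum_antidiagonal_swap]
  exact sum_congr rfl fun p _ => rfl

theorem T2_pre {n : ℕ} (hn : Fintype.card m = n + 1) (hX : X ∈ S.odM (m := m))
    (hy : y ∈ S.evM (m := m)) :
    ∑ p ∈ antidiagonal n, (X * X) ^ p.1 * (X * X * y) * (X * X) ^ p.2 = 0 ∧
    ∑ p ∈ antidiagonal n, (X * X) ^ p.1 * (X * y * X) * (X * X) ^ p.2 = 0 := by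
  have hT := fun k => epow (S := S) (oo hX hX) k
  -- difference
  have hD : ∑ p ∈ antidiagonal n, (X * X) ^ p.1 * (X * X * y - X * y * X) * (X * X) ^ p.2 = 0 := by
    have e : ∑ p ∈ antidiagonal n, (X * X) ^ p.1 * (X * X * y - X * y * X) * (X * X) ^ p.2 =
        X * ∑ p ∈ antidiagonal n, (X * X) ^ p.1 * (X * y - y * X) * (X * X) ^ p.2 := by
      rw [mul_sum]
      refine sum_congr rfl fun p _ => ?_
      rw [← mul_assoc, ← mul_assoc, cXT, mul_assoc ((X * X) ^ p.1) X, mul_sub X]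
      simp only [mul_assoc]
    rw [e]
    refine eq_zero_of_trace S fun t ht => ?_
    have hS : ∑ p ∈ antidiagonal n, (X * X) ^ p.1 * (X * y - y * X) * (X * X) ^ p.2 ∈
        S.odM (m := m) := by
      refine S.odM.sum_mem fun p _ => ?_
      exact oe (eo (hT _) (S.odM.sub_mem (oe hX hy) (eo hy hX))) (hT _)
    rw [mul_assoc, tr_o hX (oe hS ht), mul_assoc, sum_mul, trace_sum, T1 hn hX hy (eo ht hX),
      neg_zero]
  have hE := R1 hn hX (oe hX hy : X * y ∈ S.odM (m := m))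
  have hE' : ∑ p ∈ antidiagonal n, (X * X) ^ p.1 * (X * X * y + X * y * X) * (X * X) ^ p.2 = 0 := by
    rw [← hE]
    exact sum_congr rfl fun p _ => by simp only [mul_assoc]
  have e3 : ∀ p : ℕ × ℕ, (X * X) ^ p.1 * (X * X * y - X * y * X) * (X * X) ^ p.2 =
      (X * X) ^ p.1 * (X * X * y) * (X * X) ^ p.2 - (X * X) ^ p.1 * (X * y * X) * (X * X) ^ p.2 :=
    fun p => by rw [mul_sub, sub_mul]
  have e4 : ∀ p : ℕ × ℕ, (X * X) ^ p.1 * (X * X * y + X * y * X) * (X * X) ^ p.2 =
      (X * X) ^ p.1 * (X * X * y) * (X * X) ^ p.2 + (X * X) ^ p.1 * (X * y * X) * (X * X) ^ p.2 :=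
    fun p => by rw [mul_add, add_mul]
  rw [sum_congr rfl fun p _ => e3 p, sum_sub_distrib] at hD
  rw [sum_congr rfl fun p _ => e4 p, sum_add_distrib] at hE'
  have hEO := sub_eq_zero.mp hD
  rw [hEO] at hE'
  have hO := smul_two_eq (K := K) hE'
  exact ⟨hEO.trans hO, hO⟩

theorem T2 {n : ℕ} (hn : Fintype.card m = n + 1) (hX : X ∈ S.odM (m := m))
    (hy : y ∈ S.evM (m := m)) :
    ∑ p ∈ antidiagonal n, (X * X) ^ (p.1 + 1) * y * (X * X) ^ p.2 = 0 := by
  rw [← (T2_pre hn hX hy).1]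
  exact sum_congr rfl fun p _ => by rw [pow_succ]; simp only [mul_assoc]

theorem T2' {n : ℕ} (hn : Fintype.card m = n + 1) (hX : X ∈ S.odM (m := m))
    (hy : y ∈ S.evM (m := m)) :
    ∑ p ∈ antidiagonal n, (X * X) ^ p.1 * (X * y * X) * (X * X) ^ p.2 = 0 := (T2_pre hn hX hy).2

theorem Tn {n : ℕ} (hn : Fintype.card m = n + 1) (hX : X ∈ S.odM (m := m)) :
    (X * X) ^ (n + 1) = 0 := by rw [← hn]; exact sq_pow_eq_zero hX

theorem T2r {n : ℕ} (hn : Fintype.card m = n + 1) (hX : X ∈ S.odM (m := m))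
    (hy : y ∈ S.evM (m := m)) :
    ∑ p ∈ antidiagonal n, (X * X) ^ p.1 * y * (X * X) ^ (p.2 + 1) = 0 := by
  have h1 : ∑ p ∈ antidiagonal (n + 1), (X * X) ^ p.1 * y * (X * X) ^ p.2 = 0 := by
    rw [Finset.Nat.sum_antidiagonal_succ, T2 hn hX hy, Tn hn hX]
    simp
  rw [Finset.Nat.sum_antidiagonal_succ', Tn hn hX] at h1
  simpa using h1

end Char

/-! Trace functionals. -/

section Func

variable (X) (K)

noncomputable def E000 (y z t : Matrix m m Λ) : MvPolynomial (Fin 3) K →ₗ[K] Λ :=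
  fn fun a b c => trace (Ub X a y * Ub X b z * Ub X c t)

noncomputable def E110 (y z t : Matrix m m Λ) : MvPolynomial (Fin 3) K →ₗ[K] Λ :=
  fn fun a b c => trace (Vb X a y * Vb X b z * Ub X c t)

noncomputable def E101 (y z t : Matrix m m Λ) : MvPolynomial (Fin 3) K →ₗ[K] Λ :=
  fn fun a b c => trace (Vb X a y * Ub X b z * Vb X c t)

noncomputable def E011 (y z t : Matrix m m Λ) : MvPolynomial (Fin 3) K →ₗ[K] Λ :=
  fn fun a b c => trace (Ub X a y * Vb X b z * Vb X c t)

end Func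

theorem rho_mon (a b c : ℕ) : rho (K := K)
    (MvPolynomial.X 0 ^ a * MvPolynomial.X 1 ^ b * MvPolynomial.X 2 ^ c) =
    MvPolynomial.X 0 ^ c * MvPolynomial.X 1 ^ a * MvPolynomial.X 2 ^ b := by
  simp only [map_mul, map_pow, rho_0, rho_1, rho_2]
  ring

theorem rot000 (hX : X ∈ S.odM (m := m)) (ht : t ∈ S.evM (m := m)) (p : MvPolynomial (Fin 3) K) :
    E000 K X y z t p = E000 K X t y z (rho p) := by
  have : E000 K X y z t = E000 K X t y z ∘ₗ (rho (K := K)).toLinearMap := by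
    apply fn_ext
    intro a b c
    rw [LinearMap.comp_apply, AlgHom.toLinearMap_apply, rho_mon, E000, E000, fn_mon, fn_mon,
      tr_e' (Ub_mem hX ht c), mul_assoc]
  rw [this]; rfl

theorem rot110 (hX : X ∈ S.odM (m := m)) (ht : t ∈ S.evM (m := m)) (p : MvPolynomial (Fin 3) K) :
    E110 K X y z t p = E011 K X t y z (rho p) := by
  have : E110 K X y z t = E011 K X t y z ∘ₗ (rho (K := K)).toLinearMap := by
    apply fn_ext
    intro a b c
    rw [LinearMap.comp_apply, AlgHom.toLinearMap_apply, rho_mon, E110, E011, fn_mon, fn_mon,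
      tr_e' (Ub_mem hX ht c), mul_assoc]
  rw [this]; rfl

theorem rot101 (hX : X ∈ S.odM (m := m)) (hy : y ∈ S.evM (m := m)) (hz : z ∈ S.evM (m := m))
    (ht : t ∈ S.evM (m := m)) (p : MvPolynomial (Fin 3) K) :
    E101 K X y z t p = - E110 K X t y z (rho p) := by
  have : E101 K X y z t = - (E110 K X t y z ∘ₗ (rho (K := K)).toLinearMap) := by
    apply fn_ext
    intro a b c
    rw [LinearMap.neg_apply, LinearMap.comp_apply, AlgHom.toLinearMap_apply, rho_mon, E101, E110,
      fn_mon, fn_mon, tr_o (oe (Vb_mem hX hy a) (Ub_mem hX hz b)) (Vb_mem hX ht c), mul_assoc]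
  rw [this]; rfl

theorem rot011 (hX : X ∈ S.odM (m := m)) (hy : y ∈ S.evM (m := m)) (hz : z ∈ S.evM (m := m))
    (ht : t ∈ S.evM (m := m)) (p : MvPolynomial (Fin 3) K) :
    E011 K X y z t p = - E101 K X t y z (rho p) := by
  have : E011 K X y z t = - (E101 K X t y z ∘ₗ (rho (K := K)).toLinearMap) := by
    apply fn_ext
    intro a b c
    rw [LinearMap.neg_apply, LinearMap.comp_apply, AlgHom.toLinearMap_apply, rho_mon, E011, E101,
      fn_mon, fn_mon, tr_o (eo (Ub_mem hX hy a) (Vb_mem hX hz b)) (Vb_mem hX ht c), mul_assoc]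
  rw [this]; rfl

end Pool.Agent.Helper49.SL
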