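import Mathlib
import Pool.Agent.Helper49.SL.Rel

/-!
The functionals attached to an odd matrix satisfy the hypotheses of `core`.
-/

set_option linter.unusedSectionVars false

namespace Pool.Agent.Helper49.SL

open Finset Matrix Super

variable {K Λ : Type*} [Field K] [Ring Λ] [Algebra K Λ] {S : Super K Λ}
variable {m : Type*} [Fintype m] [DecidableEq m] {X y z t C : Matrix m m Λ}

theorem h2_expand {R : Type*} [CommRing R] (j : ℕ) (a b : R) :
    h2 j a b = ∑ p ∈ antidiagonal j, a ^ p.1 * b ^ p.2 := rfl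

theorem h3_expand {R : Type*} [CommRing R] (j : ℕ) (a b c : R) :
    h3 j a b c = ∑ p ∈ antidiagonal j, ∑ q ∈ antidiagonal p.2, a ^ p.1 * b ^ q.1 * c ^ q.2 := by
  rw [h3]
  refine sum_congr rfl fun p _ => ?_
  rw [h2, mul_sum]
  exact sum_congr rfl fun q _ => by rw [mul_assoc]

theorem Ub_def (X : Matrix m m Λ) (a : ℕ) (y : Matrix m m Λ) : Ub X a y = (X * X) ^ a * y := rfl

theorem Vb_def (X : Matrix m m Λ) (a : ℕ) (y : Matrix m m Λ) : Vb X a y = X * (X * X) ^ a * y := rfl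

theorem sw {M : Type*} [AddCommMonoid M] (n : ℕ) (f : ℕ × ℕ → M) :
    ∑ p ∈ antidiagonal n, f p = ∑ p ∈ antidiagonal n, f (p.2, p.1) := by
  rw [← Finset.Nat.sum_antidiagonal_swap]
  exact sum_congr rfl fun p _ => rfl

variable [CharZero K] {k : ℕ}

theorem hyp0n (hn : Fintype.card m = (k + 2) + 1) (hX : X ∈ S.odM (m := m)) :
    (MvPolynomial.X 0 ^ (k + 3) : MvPolynomial (Fin 3) K) ∈ annI (E000 K X y y y) := by
  apply mem_annI_of
  intro a b c
  have e : (MvPolynomial.X 0 ^ (k + 3) * (MvPolynomial.X 0 ^ a * MvPolynomial.X 1 ^ b *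
      MvPolynomial.X 2 ^ c) : MvPolynomial (Fin 3) K) =
      MvPolynomial.X 0 ^ (k + 3 + a) * MvPolynomial.X 1 ^ b * MvPolynomial.X 2 ^ c := by ring
  rw [e, E000, fn_mon, Ub, pow_add, Tn hn hX]
  simp

theorem hyp0h (hn : Fintype.card m = (k + 2) + 1) (hX : X ∈ S.odM (m := m))
    (hy : y ∈ S.evM (m := m)) :
    (MvPolynomial.X 0 * h2 (k + 2) (MvPolynomial.X 0) (MvPolynomial.X 1) :
      MvPolynomial (Fin 3) K) ∈ annI (E000 K X y y y) := by
  apply mem_annI_of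
  intro a b c
  have e : (MvPolynomial.X 0 * h2 (k + 2) (MvPolynomial.X 0) (MvPolynomial.X 1) *
      (MvPolynomial.X 0 ^ a * MvPolynomial.X 1 ^ b * MvPolynomial.X 2 ^ c) :
      MvPolynomial (Fin 3) K) = ∑ p ∈ antidiagonal (k + 2),
      MvPolynomial.X 0 ^ (p.1 + 1 + a) * MvPolynomial.X 1 ^ (p.2 + b) * MvPolynomial.X 2 ^ c := by
    rw [h2_expand, mul_sum, sum_mul]
    exact sum_congr rfl fun p _ => by ring
  rw [e, map_sum, E000]
  simp only [fn_mon]
  have h := T2 hn hX hy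
  have h' := congrArg (fun M => trace ((X * X) ^ a * M * ((X * X) ^ b * y) * Ub X c y)) h
  simp only [mul_sum, sum_mul, trace_sum, mul_zero, zero_mul, trace_zero] at h'
  rw [← h']
  refine sum_congr rfl fun p _ => ?_
  congr 2
  rw [Ub, Ub, pow_add _ _ b, add_comm _ a, pow_add]
  simp only [mul_assoc]

theorem hyp1l (hn : Fintype.card m = (k + 2) + 1) (hX : X ∈ S.odM (m := m)) :
    (MvPolynomial.X 0 ^ (k + 3) : MvPolynomial (Fin 3) K) ∈ annI (E110 K X y y y) := by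
  apply mem_annI_of
  intro a b c
  have e : (MvPolynomial.X 0 ^ (k + 3) * (MvPolynomial.X 0 ^ a * MvPolynomial.X 1 ^ b *
      MvPolynomial.X 2 ^ c) : MvPolynomial (Fin 3) K) =
      MvPolynomial.X 0 ^ (k + 3 + a) * MvPolynomial.X 1 ^ b * MvPolynomial.X 2 ^ c := by ring
  rw [e, E110, fn_mon, Vb, pow_add, Tn hn hX]
  simp

theorem hyp1m (hn : Fintype.card m = (k + 2) + 1) (hX : X ∈ S.odM (m := m)) :
    (MvPolynomial.X 1 ^ (k + 3) : MvPolynomial (Fin 3) K) ∈ annI (E110 K X y y y) := by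
  apply mem_annI_of
  intro a b c
  have e : (MvPolynomial.X 1 ^ (k + 3) * (MvPolynomial.X 0 ^ a * MvPolynomial.X 1 ^ b *
      MvPolynomial.X 2 ^ c) : MvPolynomial (Fin 3) K) =
      MvPolynomial.X 0 ^ a * MvPolynomial.X 1 ^ (k + 3 + b) * MvPolynomial.X 2 ^ c := by ring
  rw [e, E110, fn_mon, Vb_def X (k + 3 + b), pow_add, Tn hn hX]
  simp

theorem hyp1r (hn : Fintype.card m = (k + 2) + 1) (hX : X ∈ S.odM (m := m)) :
    (MvPolynomial.X 2 ^ (k + 3) : MvPolynomial (Fin 3) K) ∈ annI (E110 K X y y y) := by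
  apply mem_annI_of
  intro a b c
  have e : (MvPolynomial.X 2 ^ (k + 3) * (MvPolynomial.X 0 ^ a * MvPolynomial.X 1 ^ b *
      MvPolynomial.X 2 ^ c) : MvPolynomial (Fin 3) K) =
      MvPolynomial.X 0 ^ a * MvPolynomial.X 1 ^ b * MvPolynomial.X 2 ^ (k + 3 + c) := by ring
  rw [e, E110, fn_mon, Ub, pow_add, Tn hn hX]
  simp

theorem hyp1a (hn : Fintype.card m = (k + 2) + 1) (hX : X ∈ S.odM (m := m))
    (hy : y ∈ S.evM (m := m)) :
    (h2 (k + 2) (MvPolynomial.X 0) (MvPolynomial.X 1) :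
      MvPolynomial (Fin 3) K) ∈ annI (E110 K X y y y) := by
  apply mem_annI_of
  intro a b c
  have e : (h2 (k + 2) (MvPolynomial.X 0) (MvPolynomial.X 1) *
      (MvPolynomial.X 0 ^ a * MvPolynomial.X 1 ^ b * MvPolynomial.X 2 ^ c) :
      MvPolynomial (Fin 3) K) = ∑ p ∈ antidiagonal (k + 2),
      MvPolynomial.X 0 ^ (p.1 + a) * MvPolynomial.X 1 ^ (p.2 + b) * MvPolynomial.X 2 ^ c := by
    rw [h2_expand, sum_mul]
    exact sum_congr rfl fun p _ => by ring
  rw [e, map_sum, E110]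
  simp only [fn_mon]
  have h := T2' hn hX hy
  have h' := congrArg (fun M => trace ((X * X) ^ a * M * ((X * X) ^ b * y) * Ub X c y)) h
  simp only [mul_sum, sum_mul, trace_sum, mul_zero, zero_mul, trace_zero] at h'
  rw [← h']
  refine sum_congr rfl fun p _ => ?_
  congr 2
  rw [Vb, Vb, cXT X (p.1 + a), pow_add _ _ b, add_comm _ a, pow_add]
  simp only [mul_assoc]

theorem hyp1b (hn : Fintype.card m = (k + 2) + 1) (hX : X ∈ S.odM (m := m))
    (hy : y ∈ S.evM (m := m)) :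
    (MvPolynomial.X 0 * h2 (k + 2) (MvPolynomial.X 0) (MvPolynomial.X 2) :
      MvPolynomial (Fin 3) K) ∈ annI (E110 K X y y y) := by
  apply mem_annI_of
  intro a b c
  have e : (MvPolynomial.X 0 * h2 (k + 2) (MvPolynomial.X 0) (MvPolynomial.X 2) *
      (MvPolynomial.X 0 ^ a * MvPolynomial.X 1 ^ b * MvPolynomial.X 2 ^ c) :
      MvPolynomial (Fin 3) K) = ∑ p ∈ antidiagonal (k + 2),
      MvPolynomial.X 0 ^ (p.1 + 1 + a) * MvPolynomial.X 1 ^ b * MvPolynomial.X 2 ^ (p.2 + c) := by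
    rw [h2_expand, mul_sum, sum_mul]
    exact sum_congr rfl fun p _ => by ring
  rw [e, map_sum, E110]
  simp only [fn_mon]
  have h := T2r hn hX hy
  rw [sw] at h
  have h' := congrArg (fun M => trace ((X * X) ^ c * M * (X * (X * X) ^ a * y) * Vb X b y)) h
  simp only [mul_sum, sum_mul, trace_sum, mul_zero, zero_mul, trace_zero] at h'
  rw [← h']
  refine sum_congr rfl fun p _ => ?_
  rw [tr_e' (Ub_mem hX hy _), ← mul_assoc]
  congr 2
  rw [Ub, Vb, cXT X (p.1 + 1 + a), cXT X a, pow_add _ _ a, add_comm _ c, pow_add]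
  simp only [mul_assoc]

theorem hyp1c (hn : Fintype.card m = (k + 2) + 1) (hX : X ∈ S.odM (m := m))
    (hy : y ∈ S.evM (m := m)) :
    (MvPolynomial.X 1 * h2 (k + 2) (MvPolynomial.X 1) (MvPolynomial.X 2) :
      MvPolynomial (Fin 3) K) ∈ annI (E110 K X y y y) := by
  apply mem_annI_of
  intro a b c
  have e : (MvPolynomial.X 1 * h2 (k + 2) (MvPolynomial.X 1) (MvPolynomial.X 2) *
      (MvPolynomial.X 0 ^ a * MvPolynomial.X 1 ^ b * MvPolynomial.X 2 ^ c) :
      MvPolynomial (Fin 3) K) = ∑ p ∈ antidiagonal (k + 2),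
      MvPolynomial.X 0 ^ a * MvPolynomial.X 1 ^ (p.1 + 1 + b) * MvPolynomial.X 2 ^ (p.2 + c) := by
    rw [h2_expand, mul_sum, sum_mul]
    exact sum_congr rfl fun p _ => by ring
  rw [e, map_sum, E110]
  simp only [fn_mon]
  have h := T2 hn hX hy
  have h' := congrArg (fun M => trace (Vb X a y * (X * (X * X) ^ b * M * ((X * X) ^ c * y)))) h
  simp only [mul_sum, sum_mul, trace_sum, mul_zero, zero_mul, trace_zero] at h'
  rw [← h']
  refine sum_congr rfl fun p _ => ?_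
  rw [mul_assoc (Vb X a y)]
  congr 2
  rw [Ub, Vb, add_comm _ b, pow_add, pow_add _ p.2]
  simp only [mul_assoc]

theorem hyp1d (hn : Fintype.card m = (k + 2) + 1) (hX : X ∈ S.odM (m := m))
    (hy : y ∈ S.evM (m := m)) :
    E110 K X y y y (MvPolynomial.X 0 ^ k * h2 (k + 2) (MvPolynomial.X 1) (MvPolynomial.X 2)) =
    - E110 K X y y y (MvPolynomial.X 1 ^ k * h2 (k + 2) (MvPolynomial.X 0) (MvPolynomial.X 2)) := by
  have e1 : (MvPolynomial.X 0 ^ k * h2 (k + 2) (MvPolynomial.X 1) (MvPolynomial.X 2) :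
      MvPolynomial (Fin 3) K) = ∑ p ∈ antidiagonal (k + 2),
      MvPolynomial.X 0 ^ k * MvPolynomial.X 1 ^ p.1 * MvPolynomial.X 2 ^ p.2 := by
    rw [h2_expand, mul_sum]
    exact sum_congr rfl fun p _ => by ring
  have e2 : (MvPolynomial.X 1 ^ k * h2 (k + 2) (MvPolynomial.X 0) (MvPolynomial.X 2) :
      MvPolynomial (Fin 3) K) = ∑ p ∈ antidiagonal (k + 2),
      MvPolynomial.X 0 ^ p.1 * MvPolynomial.X 1 ^ k * MvPolynomial.X 2 ^ p.2 := by
    rw [h2_expand, mul_sum]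
    exact sum_congr rfl fun p _ => by ring
  rw [e1, e2, map_sum, map_sum, E110]
  simp only [fn_mon]
  have hC : y * Vb X k y ∈ S.odM (m := m) := eo hy (Vb_mem hX hy k)
  have h := T1 hn hX hy hC
  have h1 : ∀ p : ℕ × ℕ, trace ((X * X) ^ p.1 * (X * y - y * X) * (X * X) ^ p.2 * (y * Vb X k y)) =
      - trace (Vb X k y * Vb X p.1 y * Ub X p.2 y) - trace (Vb X p.2 y * Vb X k y * Ub X p.1 y) := by
    intro p
    have t1 : (X * X) ^ p.1 * (X * y) * (X * X) ^ p.2 * (y * Vb X k y) =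
        Vb X p.1 y * Ub X p.2 y * Vb X k y := by
      rw [Vb_def X p.1, Ub_def, cXT X p.1]; simp only [mul_assoc]
    have t2 : (X * X) ^ p.1 * (y * X) * (X * X) ^ p.2 * (y * Vb X k y) =
        Ub X p.1 y * (Vb X p.2 y * Vb X k y) := by
      rw [Ub_def, Vb_def X p.2]; simp only [mul_assoc]
    rw [mul_sub, sub_mul, sub_mul, trace_sub, t1, t2,
      tr_o (oe (Vb_mem hX hy _) (Ub_mem hX hy _)) (Vb_mem hX hy _), tr_e (Ub_mem hX hy _),
      mul_assoc (Vb X k y)]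
  rw [sum_congr rfl fun p _ => h1 p, sum_sub_distrib, sum_neg_distrib] at h
  rw [sw (k + 2) (fun p => trace (Vb X p.2 y * Vb X k y * Ub X p.1 y))] at h
  have h2' := sub_eq_zero.mp h
  rw [← h2', neg_neg]

theorem hyp01 (hn : Fintype.card m = (k + 1) + 2) (hX : X ∈ S.odM (m := m))
    (hy : y ∈ S.evM (m := m)) :
    E110 K X y y y (h3 (k + 2) (MvPolynomial.X 0) (MvPolynomial.X 1) (MvPolynomial.X 2) *
      MvPolynomial.X 2 ^ k) +
    E000 K X y y y (MvPolynomial.X 0 * MvPolynomial.X 1 * h3 (k + 1) (MvPolynomial.X 0)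
      (MvPolynomial.X 1) (MvPolynomial.X 2) * MvPolynomial.X 2 ^ k) +
    E110 K X y y y (MvPolynomial.X 2 * MvPolynomial.X 1 ^ k * h3 (k + 1) (MvPolynomial.X 0)
      (MvPolynomial.X 1) (MvPolynomial.X 2)) -
    E110 K X y y y (MvPolynomial.X 2 * MvPolynomial.X 0 ^ k * h3 (k + 1) (MvPolynomial.X 0)
      (MvPolynomial.X 1) (MvPolynomial.X 2)) = 0 := by
  have e1 : (h3 (k + 2) (MvPolynomial.X 0) (MvPolynomial.X 1) (MvPolynomial.X 2) *
      MvPolynomial.X 2 ^ k : MvPolynomial (Fin 3) K) =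
      ∑ p ∈ antidiagonal (k + 2), MvPolynomial.X 0 ^ p.1 * MvPolynomial.X 1 ^ 0 *
        MvPolynomial.X 2 ^ (p.2 + k) +
      ∑ p ∈ antidiagonal (k + 1), ∑ q ∈ antidiagonal p.2, MvPolynomial.X 0 ^ p.1 *
        MvPolynomial.X 1 ^ (q.1 + 1) * MvPolynomial.X 2 ^ (q.2 + k) := by
    rw [h3_succ_b, h3_expand, h2_expand, mul_sum, add_mul, sum_mul, sum_mul, add_comm]
    refine congrArg₂ (· + ·) ?_ ?_
    · exact sum_congr rfl fun p _ => by ring
    · refine sum_congr rfl fun p _ => ?_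
      rw [mul_sum, sum_mul]
      exact sum_congr rfl fun q _ => by ring
  have e2 : (MvPolynomial.X 0 * MvPolynomial.X 1 * h3 (k + 1) (MvPolynomial.X 0)
      (MvPolynomial.X 1) (MvPolynomial.X 2) * MvPolynomial.X 2 ^ k : MvPolynomial (Fin 3) K) =
      ∑ p ∈ antidiagonal (k + 1), ∑ q ∈ antidiagonal p.2, MvPolynomial.X 0 ^ (p.1 + 1) *
        MvPolynomial.X 1 ^ (q.1 + 1) * MvPolynomial.X 2 ^ (q.2 + k) := by
    rw [h3_expand, mul_sum, sum_mul]
    refine sum_congr rfl fun p _ => ?_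
    rw [mul_sum, sum_mul]
    exact sum_congr rfl fun q _ => by ring
  have e3 : (MvPolynomial.X 2 * MvPolynomial.X 1 ^ k * h3 (k + 1) (MvPolynomial.X 0)
      (MvPolynomial.X 1) (MvPolynomial.X 2) : MvPolynomial (Fin 3) K) =
      ∑ p ∈ antidiagonal (k + 1), ∑ q ∈ antidiagonal p.2, MvPolynomial.X 0 ^ q.1 *
        MvPolynomial.X 1 ^ (q.2 + k) * MvPolynomial.X 2 ^ (p.1 + 1) := by
    rw [h3_rot, h3_expand, mul_sum]
    refine sum_congr rfl fun p _ => ?_
    rw [mul_sum]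
    exact sum_congr rfl fun q _ => by ring
  have e4 : (MvPolynomial.X 2 * MvPolynomial.X 0 ^ k * h3 (k + 1) (MvPolynomial.X 0)
      (MvPolynomial.X 1) (MvPolynomial.X 2) : MvPolynomial (Fin 3) K) =
      ∑ p ∈ antidiagonal (k + 1), ∑ q ∈ antidiagonal p.2, MvPolynomial.X 0 ^ (q.2 + k) *
        MvPolynomial.X 1 ^ p.1 * MvPolynomial.X 2 ^ (q.1 + 1) := by
    rw [h3_rot, h3_rot, h3_expand, mul_sum]
    refine sum_congr rfl fun p _ => ?_
    rw [mul_sum]
    exact sum_congr rfl fun q _ => by ring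
  rw [e1, e2, e3, e4]
  simp only [map_add, map_sum]
  rw [E110, E000]
  simp only [fn_mon]
  have hZ : X * y ∈ S.odM (m := m) := oe hX hy
  have h := congrArg (fun M => trace (M * Ub X k y)) (R2 hn hX hZ)
  simp only [add_mul, sum_mul, trace_add, trace_sum, zero_mul, trace_zero] at h
  rw [← h]
  have t1 : ∀ p : ℕ × ℕ, trace ((X * X) ^ p.1 * (X * y * (X * y)) * (X * X) ^ p.2 * Ub X k y) =
      trace (Vb X p.1 y * Vb X 0 y * Ub X (p.2 + k) y) := by
    intro p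
    have : (X * X) ^ p.1 * (X * y * (X * y)) * (X * X) ^ p.2 * Ub X k y =
        Vb X p.1 y * Vb X 0 y * Ub X (p.2 + k) y := by
      rw [Ub_def, Ub_def, Vb_def X p.1, Vb_def X 0, cXT X p.1, pow_zero, mul_one, pow_add]
      simp only [mul_assoc]
    rw [this]
  have f011 : ∀ a b c, trace (Ub X a y * Vb X b y * Vb X c y) =
      trace (Vb X b y * Vb X c y * Ub X a y) := by
    intro a b c
    rw [mul_assoc, tr_e (Ub_mem hX hy a)]
  have f101 : ∀ a b c, trace (Vb X a y * Ub X b y * Vb X c y) =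
      - trace (Vb X c y * Vb X a y * Ub X b y) := by
    intro a b c
    rw [tr_o (oe (Vb_mem hX hy a) (Ub_mem hX hy b)) (Vb_mem hX hy c), mul_assoc]
  have t2 : ∀ p q : ℕ × ℕ, trace ((X * X) ^ p.1 * (X * (X * y) + X * y * X) * (X * X) ^ q.1 *
      (X * (X * y) + X * y * X) * (X * X) ^ q.2 * Ub X k y) =
      trace (Vb X p.1 y * Vb X (q.1 + 1) y * Ub X (q.2 + k) y) +
      trace (Ub X (p.1 + 1) y * Ub X (q.1 + 1) y * Ub X (q.2 + k) y) +
      trace (Vb X q.1 y * Vb X (q.2 + k) y * Ub X (p.1 + 1) y) -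
      trace (Vb X (q.2 + k) y * Vb X p.1 y * Ub X (q.1 + 1) y) := by
    intro p q
    have b3 := f011 (p.1 + 1) q.1 (q.2 + k)
    have b4 := f101 p.1 (q.1 + 1) (q.2 + k)
    have a1 : (X * X) ^ p.1 * (X * (X * y)) * (X * X) ^ q.1 * (X * (X * y)) * (X * X) ^ q.2 *
        Ub X k y = Ub X (p.1 + 1) y * Ub X (q.1 + 1) y * Ub X (q.2 + k) y := by
      rw [Ub, Ub, Ub, Ub, pow_succ, pow_succ, pow_add]
      simp only [mul_assoc]
    have a2 : (X * X) ^ p.1 * (X * y * X) * (X * X) ^ q.1 * (X * (X * y)) * (X * X) ^ q.2 *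
        Ub X k y = Vb X p.1 y * Vb X (q.1 + 1) y * Ub X (q.2 + k) y := by
      rw [Vb, Vb, Ub, Ub, cXT X p.1, pow_succ, pow_add]
      simp only [mul_assoc]
    have a3 : (X * X) ^ p.1 * (X * (X * y)) * (X * X) ^ q.1 * (X * y * X) * (X * X) ^ q.2 *
        Ub X k y = Ub X (p.1 + 1) y * Vb X q.1 y * Vb X (q.2 + k) y := by
      rw [Vb, Vb, Ub, Ub, cXT X q.1, pow_succ, pow_add]
      simp only [mul_assoc]
    have a4 : (X * X) ^ p.1 * (X * y * X) * (X * X) ^ q.1 * (X * y * X) * (X * X) ^ q.2 *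
        Ub X k y = Vb X p.1 y * Ub X (q.1 + 1) y * Vb X (q.2 + k) y := by
      have : X * ((X * X) ^ q.1 * (X * (y * (X * ((X * X) ^ q.2 * ((X * X) ^ k * y)))))) =
          (X * X) ^ (q.1 + 1) * (y * (X * ((X * X) ^ q.2 * ((X * X) ^ k * y)))) := by
        rw [← mul_assoc, cXT, pow_succ]
        simp only [mul_assoc]
      rw [Vb, Vb, Ub, Ub, cXT X p.1, pow_add _ q.2]
      simp only [mul_assoc]
      rw [this]
    simp only [mul_add ((X * X) ^ p.1), add_mul, mul_add ((X * X) ^ p.1 * (X * (X * y)) *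
      (X * X) ^ q.1), mul_add ((X * X) ^ p.1 * (X * y * X) * (X * X) ^ q.1), trace_add]
    rw [a1, a2, a3, a4, b3, b4]
    abel
  rw [sum_congr rfl fun p _ => t1 p,
    sum_congr rfl fun p _ => sum_congr rfl fun q _ => t2 p q]
  simp only [sum_add_distrib, sum_sub_distrib]
  abel

end Pool.Agent.Helper49.SL
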