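import Mathlib
import Pool.Agent.Helper49.SL.Hyp

/-!
The identity: the quadratic expression `FF` vanishes.
-/

set_option linter.unusedSectionVars false

namespace Pool.Agent.Helper49.SL

open Finset Matrix Super

section Sym

variable {R : Type*} [CommRing R] [IsDomain R]

theorem Bs_rot (n : ℕ) (u v : R) (h : u * v * (u + v) ≠ 0) : Bs n v (-(u + v)) = Bs n u v := by
  apply mul_left_cancel₀ h
  have h1 := Bs_eq n u v
  have h2 := Bs_eq n v (-(u + v))
  have o : ∀ x : R, (-x) ^ (2 * n + 3) = - x ^ (2 * n + 3) := fun x => by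
    rw [Odd.neg_pow ⟨n + 1, by ring⟩]
  rw [show v + -(u + v) = -u by ring, o, o] at h2
  linear_combination h2 - h1

theorem Gs_rot (n : ℕ) (u v : R) (h : u * v * (u + v) ≠ 0) : Gs n v (-(u + v)) = Gs n u v := by
  apply mul_left_cancel₀ h
  have h1 := Gs_eq n u v
  have h2 := Gs_eq n v (-(u + v))
  have o : ∀ x : R, (-x) ^ (2 * n + 3) = - x ^ (2 * n + 3) := fun x => by
    rw [Odd.neg_pow ⟨n + 1, by ring⟩]
  rw [show v + -(u + v) = -u by ring, o, o] at h2
  linear_combination h2 - h1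

theorem Bs_map {R' : Type*} [CommRing R'] {R : Type*} [CommRing R] (f : R →+* R') (n : ℕ) (u v : R) :
    f (Bs n u v) = Bs n (f u) (f v) := by
  simp [Bs, map_sum]

theorem Gs_map {R' : Type*} [CommRing R'] {R : Type*} [CommRing R] (f : R →+* R') (n : ℕ) (u v : R) :
    f (Gs n u v) = Gs n (f u) (f v) := by
  simp [Gs, map_sum]

end Sym

section Poly

variable (K : Type*) [Field K]

noncomputable abbrev uu : MvPolynomial (Fin 3) K := MvPolynomial.X 0 - MvPolynomial.X 1
noncomputable abbrev vv : MvPolynomial (Fin 3) K := MvPolynomial.X 1 - MvPolynomial.X 2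

/-- the coefficient polynomial of `y₁ ⊗ y₁` -/
noncomputable def PB (k : ℕ) : MvPolynomial (Fin 3) K := (6 * (k + 1) : K) • Bs (k + 1) (uu K) (vv K)

/-- the symmetric part of the coefficient polynomial of `y ⊗ y` -/
noncomputable def PC (k : ℕ) : MvPolynomial (Fin 3) K :=
  -((2 * (k + 1) : K) • ((MvPolynomial.X 0 + MvPolynomial.X 1 + MvPolynomial.X 2) *
      Bs (k + 1) (uu K) (vv K))) - (5 * (2 * k + 5) : K) • Gs (k + 1) (uu K) (vv K)

/-- the coefficient polynomial of `y ⊗ y` -/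
noncomputable def PA (k : ℕ) : MvPolynomial (Fin 3) K :=
  -((2 * (k + 1) : K) • ((uu K - vv K) * Bs (k + 1) (uu K) (vv K))) -
    (5 * (2 * k + 5) : K) • Gs (k + 1) (uu K) (vv K)

theorem PA_eq (k : ℕ) : PA K k = PC K k + MvPolynomial.X 1 * PB K k := by
  rw [PA, PC, PB, mul_smul_comm]
  have : (uu K - vv K) * Bs (k + 1) (uu K) (vv K) =
      (MvPolynomial.X 0 + MvPolynomial.X 1 + MvPolynomial.X 2) * Bs (k + 1) (uu K) (vv K) -
        (3 : K) • (MvPolynomial.X 1 * Bs (k + 1) (uu K) (vv K)) := by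
    rw [Algebra.smul_def, map_ofNat, uu, vv]
    ring
  rw [this]
  module

variable {K} [CharZero K]

theorem uvne : uu K * vv K * (uu K + vv K) ≠ 0 := by
  have := dne (K := K)
  rwa [show uu K + vv K = MvPolynomial.X 0 - MvPolynomial.X 2 by rw [uu, vv]; ring]

theorem rho_Bs (n : ℕ) : rho (Bs n (uu K) (vv K)) = Bs n (uu K) (vv K) := by
  have h1 : rho (Bs n (uu K) (vv K)) = Bs n (rho (uu K)) (rho (vv K)) :=
    Bs_map (rho (K := K)).toRingHom n _ _
  rw [h1, map_sub, map_sub, rho_0, rho_1, rho_2, ← Bs_rot n (uu K) (vv K) uvne]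
  congr 1
  rw [uu, vv]
  ring

theorem rho_Gs (n : ℕ) : rho (Gs n (uu K) (vv K)) = Gs n (uu K) (vv K) := by
  have h1 : rho (Gs n (uu K) (vv K)) = Gs n (rho (uu K)) (rho (vv K)) :=
    Gs_map (rho (K := K)).toRingHom n _ _
  rw [h1, map_sub, map_sub, rho_0, rho_1, rho_2, ← Gs_rot n (uu K) (vv K) uvne]
  congr 1
  rw [uu, vv]
  ring

theorem rho_PB (k : ℕ) : rho (PB K k) = PB K k := by
  rw [PB, map_smul, rho_Bs]

theorem rho_PC (k : ℕ) : rho (PC K k) = PC K k := by
  rw [PC, map_sub, map_neg, map_smul, map_smul, map_mul, rho_Bs, rho_Gs, map_add, map_add,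
    rho_0, rho_1, rho_2]
  have : (MvPolynomial.X 1 + MvPolynomial.X 2 + MvPolynomial.X 0 : MvPolynomial (Fin 3) K) =
      MvPolynomial.X 0 + MvPolynomial.X 1 + MvPolynomial.X 2 := by ring
  rw [this]

end Poly

variable {K Λ : Type*} [Field K] [Ring Λ] [Algebra K Λ] {S : Super K Λ}
variable {m : Type*} [Fintype m] [DecidableEq m] {X y z t C : Matrix m m Λ}

/-- `p . (y ⊗ z)` -/
noncomputable def Y2 (X : Matrix m m Λ) (y z : Matrix m m Λ) :
    MvPolynomial (Fin 3) K →ₗ[K] Matrix m m Λ :=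
  fn fun a b c => (X * X) ^ a * y * (X * X) ^ b * z * (X * X) ^ c

theorem Y2_mon (a b c : ℕ) : Y2 (K := K) X y z
    (MvPolynomial.X 0 ^ a * MvPolynomial.X 1 ^ b * MvPolynomial.X 2 ^ c) =
    (X * X) ^ a * y * (X * X) ^ b * z * (X * X) ^ c := by rw [Y2, fn_mon]

theorem Y2_add_left (y y' z : Matrix m m Λ) (p : MvPolynomial (Fin 3) K) :
    Y2 X (y + y') z p = Y2 X y z p + Y2 X y' z p := by
  have : Y2 (K := K) X (y + y') z = Y2 X y z + Y2 X y' z := by
    apply fn_ext
    intro a b c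
    rw [LinearMap.add_apply, Y2_mon, Y2_mon, Y2_mon]
    simp only [mul_add, add_mul]
  rw [this]; rfl

theorem Y2_add_right (y z z' : Matrix m m Λ) (p : MvPolynomial (Fin 3) K) :
    Y2 X y (z + z') p = Y2 X y z p + Y2 X y z' p := by
  have : Y2 (K := K) X y (z + z') = Y2 X y z + Y2 X y z' := by
    apply fn_ext
    intro a b c
    rw [LinearMap.add_apply, Y2_mon, Y2_mon, Y2_mon]
    simp only [mul_add, add_mul]
  rw [this]; rfl

theorem Y2_neg_left (y z : Matrix m m Λ) (p : MvPolynomial (Fin 3) K) :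
    Y2 X (-y) z p = - Y2 X y z p := by
  have : Y2 (K := K) X (-y) z = - Y2 X y z := by
    apply fn_ext
    intro a b c
    rw [LinearMap.neg_apply, Y2_mon, Y2_mon]
    simp only [mul_neg, neg_mul]
  rw [this]; rfl

theorem Y2_neg_right (y z : Matrix m m Λ) (p : MvPolynomial (Fin 3) K) :
    Y2 X y (-z) p = - Y2 X y z p := by
  have : Y2 (K := K) X y (-z) = - Y2 X y z := by
    apply fn_ext
    intro a b c
    rw [LinearMap.neg_apply, Y2_mon, Y2_mon]
    simp only [mul_neg, neg_mul]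
  rw [this]; rfl

/-- The bilinear expression. -/
noncomputable def Psi (K : Type*) [Field K] [Algebra K Λ] (k : ℕ) (X y z : Matrix m m Λ) :
    Matrix m m Λ :=
  Y2 X y z (PA K k) + Y2 X (X * y - y * X) (X * z - z * X) (PB K k)

theorem Psi_add_left (k : ℕ) (y y' z : Matrix m m Λ) :
    Psi K k X (y + y') z = Psi K k X y z + Psi K k X y' z := by
  rw [Psi, Psi, Psi, Y2_add_left,
    show X * (y + y') - (y + y') * X = (X * y - y * X) + (X * y' - y' * X) by noncomm_ring,
    Y2_add_left]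
  abel

theorem Psi_add_right (k : ℕ) (y z z' : Matrix m m Λ) :
    Psi K k X y (z + z') = Psi K k X y z + Psi K k X y z' := by
  rw [Psi, Psi, Psi, Y2_add_right,
    show X * (z + z') - (z + z') * X = (X * z - z * X) + (X * z' - z' * X) by noncomm_ring,
    Y2_add_right]
  abel

theorem Psi_neg_left (k : ℕ) (y z : Matrix m m Λ) :
    Psi K k X (-y) z = - Psi K k X y z := by
  rw [Psi, Psi, Y2_neg_left,
    show X * (-y) - (-y) * X = -(X * y - y * X) by noncomm_ring, Y2_neg_left]
  abel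

theorem Psi_neg_right (k : ℕ) (y z : Matrix m m Λ) :
    Psi K k X y (-z) = - Psi K k X y z := by
  rw [Psi, Psi, Y2_neg_right,
    show X * (-z) - (-z) * X = -(X * z - z * X) by noncomm_ring, Y2_neg_right]
  abel

theorem tr_Y2 (t : Matrix m m Λ) (p : MvPolynomial (Fin 3) K) :
    trace (Y2 X y z p * t) = E000 K X y z t p := by
  have : (Matrix.traceLinearMap m K Λ) ∘ₗ (LinearMap.mulRight K t) ∘ₗ Y2 X y z = E000 K X y z t := by
    apply fn_ext
    intro a b c
    rw [E000, fn_mon]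
    simp only [LinearMap.comp_apply, LinearMap.mulRight_apply, Matrix.traceLinearMap_apply, Y2_mon]
    rw [Ub_def, Ub_def, Ub_def]
    simp only [mul_assoc]
  rw [← this]; rfl

theorem tr_Y2' (t : Matrix m m Λ) (p : MvPolynomial (Fin 3) K) :
    trace (Y2 X (X * y - y * X) (X * z - z * X) p * t) =
      E110 K X y z t p - E101 K X y z t p - E000 K X y z t (MvPolynomial.X 1 * p) +
        E011 K X y z t p := by
  have : (Matrix.traceLinearMap m K Λ) ∘ₗ (LinearMap.mulRight K t) ∘ₗ
      Y2 X (X * y - y * X) (X * z - z * X) = E110 K X y z t - E101 K X y z t -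
        E000 K X y z t ∘ₗ (LinearMap.mulLeft K (MvPolynomial.X 1)) + E011 K X y z t := by
    apply fn_ext
    intro a b c
    have e : (MvPolynomial.X 1 * (MvPolynomial.X 0 ^ a * MvPolynomial.X 1 ^ b *
        MvPolynomial.X 2 ^ c) : MvPolynomial (Fin 3) K) =
        MvPolynomial.X 0 ^ a * MvPolynomial.X 1 ^ (b + 1) * MvPolynomial.X 2 ^ c := by ring
    simp only [LinearMap.comp_apply, LinearMap.mulRight_apply, Matrix.traceLinearMap_apply, Y2_mon,
      LinearMap.add_apply, LinearMap.sub_apply, LinearMap.mulLeft_apply, e, E110, E101, E011,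
      E000, fn_mon]
    have a1 : Vb X a y * Vb X b z * Ub X c t =
        (X * X) ^ a * (X * y) * (X * X) ^ b * (X * z) * (X * X) ^ c * t := by
      rw [Vb_def, Vb_def, Ub_def, cXT, cXT]; simp only [mul_assoc]
    have a2 : Vb X a y * Ub X b z * Vb X c t =
        (X * X) ^ a * (X * y) * (X * X) ^ b * (z * X) * (X * X) ^ c * t := by
      rw [Vb_def X a, Vb_def X c, Ub_def, cXT X a]; simp only [mul_assoc]
    have a3 : Ub X a y * Ub X (b + 1) z * Ub X c t =
        (X * X) ^ a * (y * X) * (X * X) ^ b * (X * z) * (X * X) ^ c * t := by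
      rw [Ub_def, Ub_def, Ub_def, pow_succ, ← mul_assoc _ X X, ← cXT X b]; simp only [mul_assoc]
    have a4 : Ub X a y * Vb X b z * Vb X c t =
        (X * X) ^ a * (y * X) * (X * X) ^ b * (z * X) * (X * X) ^ c * t := by
      rw [Ub_def, Vb_def X b, Vb_def X c]; simp only [mul_assoc]
    rw [a1, a2, a3, a4, ← trace_sub, ← trace_sub, ← trace_add]
    congr 1
    simp only [mul_sub, sub_mul]
    abel
  have h := LinearMap.congr_fun this p
  exact h

theorem tr_Psi (k : ℕ) (t : Matrix m m Λ) : trace (Psi K k X y z * t) =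
    E000 K X y z t (PC K k) +
      (E110 K X y z t (PB K k) - E101 K X y z t (PB K k) + E011 K X y z t (PB K k)) := by
  rw [Psi, add_mul, trace_add, tr_Y2, tr_Y2', PA_eq, map_add]
  abel

variable [CharZero K]

/-- Cyclic invariance. -/
theorem tr_Psi_rot (k : ℕ) (hX : X ∈ S.odM (m := m)) (hy : y ∈ S.evM (m := m))
    (hz : z ∈ S.evM (m := m)) (ht : t ∈ S.evM (m := m)) :
    trace (Psi K k X y z * t) = trace (Psi K k X t y * z) := by
  rw [tr_Psi, tr_Psi, rot000 hX ht, rot110 hX ht, rot101 hX hy hz ht, rot011 hX hy hz ht, rho_PC,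
    rho_PB]
  abel

theorem tr_Psi_cube {k : ℕ} (hn : Fintype.card m = k + 3) (hX : X ∈ S.odM (m := m))
    (hy : y ∈ S.evM (m := m)) : trace (Psi K k X y y * y) = 0 := by
  have hcore := core (E0 := E000 K X y y y) (E1 := E110 K X y y y) k
    (fun p => (rot000 hX hy p).symm) (hyp0n hn hX) (hyp0h hn hX hy) (hyp1l hn hX) (hyp1m hn hX)
    (hyp1r hn hX) (hyp1a hn hX hy) (hyp1b hn hX hy) (hyp1c hn hX hy) (hyp1d hn hX hy)
    (hyp01 hn hX hy)
  have h101 : E101 K X y y y (PB K k) = - E110 K X y y y (PB K k) := by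
    rw [rot101 hX hy hy hy, rho_PB]
  have h011 : E011 K X y y y (PB K k) = E110 K X y y y (PB K k) := by
    rw [rot110 hX hy, rho_PB]
  rw [tr_Psi, h101, h011, ← hcore]
  rw [PC, PB, map_sub, map_neg, map_smul, map_smul, map_smul]
  module

theorem Psi_eq_zero {k : ℕ} (hn : Fintype.card m = k + 3) (hX : X ∈ S.odM (m := m))
    (hy : y ∈ S.evM (m := m)) : Psi K k X y y = 0 := by
  refine eq_zero_of_trace S fun t ht => ?_
  have c : ∀ {z}, z ∈ S.evM (m := m) → trace (Psi K k X z z * z) = 0 := fun hz => tr_Psi_cube hn hX hz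
  have h1 := c (S.evM.add_mem hy ht)
  have h2 := c (S.evM.add_mem hy (S.evM.neg_mem ht))
  have h3 := c ht
  have h4 := c hy
  simp only [Psi_add_left, Psi_add_right, Psi_neg_left, Psi_neg_right, add_mul, mul_add, mul_neg,
    neg_mul, trace_add, trace_neg, h3, h4] at h1 h2
  have r1 : trace (Psi K k X y y * t) = trace (Psi K k X t y * y) := tr_Psi_rot k hX hy hy ht
  have r2 : trace (Psi K k X t y * y) = trace (Psi K k X y t * y) := tr_Psi_rot k hX ht hy hy
  rw [← r2, ← r1] at h1 h2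
  set A := trace (Psi K k X y y * t)
  set B1 := trace (Psi K k X t t * y)
  set B2 := trace (Psi K k X t y * t)
  set B3 := trace (Psi K k X y t * t)
  have h5 : (6 : K) • A = 0 := by
    have e1 : A + A + A + (B1 + B2 + B3) = 0 := by rw [← h1]; abel
    have e2 : -(A + A + A) + (B1 + B2 + B3) = 0 := by rw [← h2]; abel
    have e3 : (6 : K) • A = (A + A + A + (B1 + B2 + B3)) - (-(A + A + A) + (B1 + B2 + B3)) := by
      module
    rw [e3, e1, e2, sub_zero]
  exact (smul_eq_zero.mp h5).resolve_left (by norm_num)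

end Pool.Agent.Helper49.SL
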