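import Mathlib
import Pool.Agent.Helper49.SL.Super

/-!
The exterior algebra is supercommutative.
-/

set_option linter.unusedSectionVars false

namespace Pool.Agent.Helper49.SL

open Finset Matrix

variable (K : Type*) [Field K] (V : Type*) [AddCommGroup V] [Module K V]

theorem ext_ι_mul (v : V) (b : ExteriorAlgebra K V) :
    ExteriorAlgebra.ι K v * b = CliffordAlgebra.involute b * ExteriorAlgebra.ι K v := by
  induction b using CliffordAlgebra.induction with
  | algebraMap r => rw [AlgHom.commutes, Algebra.commutes]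
  | ι w =>
    rw [CliffordAlgebra.involute_ι, neg_mul]
    exact eq_neg_of_add_eq_zero_left (ExteriorAlgebra.ι_add_mul_swap v w)
  | mul a b ha hb => rw [map_mul, ← mul_assoc, ha, mul_assoc, hb, mul_assoc]
  | add a b ha hb => rw [map_add, mul_add, add_mul, ha, hb]

theorem ext_comm (a : ExteriorAlgebra K V) (ha : a ∈ CliffordAlgebra.evenOdd (0 : QuadraticForm K V) 0)
    (b : ExteriorAlgebra K V) : a * b = b * a := by
  induction a, ha using CliffordAlgebra.even_induction with
  | algebraMap r => exact Algebra.commutes _ _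
  | add x y hx hy hx' hy' => rw [add_mul, mul_add, hx', hy']
  | ι_mul_ι_mul v w x hx ih =>
    have h1 : CliffordAlgebra.ι (0 : QuadraticForm K V) v * (CliffordAlgebra.ι _ w * b) =
        b * (CliffordAlgebra.ι _ v * CliffordAlgebra.ι _ w) := by
      have h2 := ext_ι_mul K V w b
      have h3 := ext_ι_mul K V v (CliffordAlgebra.involute b)
      rw [CliffordAlgebra.involute_involute] at h3
      rw [h2, ← mul_assoc, h3, mul_assoc]
    rw [mul_assoc, ih, ← mul_assoc, mul_assoc _ _ b, h1, mul_assoc]

theorem ext_anti (a : ExteriorAlgebra K V) (ha : a ∈ CliffordAlgebra.evenOdd (0 : QuadraticForm K V) 1)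
    (b : ExteriorAlgebra K V) (hb : b ∈ CliffordAlgebra.evenOdd (0 : QuadraticForm K V) 1) :
    a * b = -(b * a) := by
  induction a, ha using CliffordAlgebra.odd_induction with
  | ι v =>
    have h2 := ext_ι_mul K V v b
    rw [h2, CliffordAlgebra.involute_eq_of_mem_odd hb, neg_mul]
  | add x y hx hy hx' hy' => rw [add_mul, mul_add, hx', hy', neg_add]
  | ι_mul_ι_mul v w x hx ih =>
    have h1 : CliffordAlgebra.ι (0 : QuadraticForm K V) v * (CliffordAlgebra.ι _ w * b) =
        b * (CliffordAlgebra.ι _ v * CliffordAlgebra.ι _ w) := by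
      have h2 := ext_ι_mul K V w b
      have h3 := ext_ι_mul K V v (CliffordAlgebra.involute b)
      rw [CliffordAlgebra.involute_involute] at h3
      rw [h2, ← mul_assoc, h3, mul_assoc]
    rw [mul_assoc, ih, mul_neg, ← mul_assoc, mul_assoc _ _ b, h1, mul_assoc]

/-- The exterior algebra as a supercommutative algebra. -/
noncomputable def extSuper : Super K (ExteriorAlgebra K V) where
  ev := CliffordAlgebra.evenOdd (0 : QuadraticForm K V) 0
  od := CliffordAlgebra.evenOdd (0 : QuadraticForm K V) 1
  one_mem := CliffordAlgebra.one_le_evenOdd_zero _ (Submodule.mem_one.mpr ⟨1, map_one _⟩)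
  ev_ev := fun a ha b hb => by
    have := CliffordAlgebra.evenOdd_mul_le (0 : QuadraticForm K V) 0 0 (Submodule.mul_mem_mul ha hb)
    simpa using this
  ev_od := fun a ha b hb => by
    have := CliffordAlgebra.evenOdd_mul_le (0 : QuadraticForm K V) 0 1 (Submodule.mul_mem_mul ha hb)
    simpa using this
  od_od := fun a ha b hb => by
    have := CliffordAlgebra.evenOdd_mul_le (0 : QuadraticForm K V) 1 1 (Submodule.mul_mem_mul ha hb)
    have e : (1 : ZMod 2) + 1 = 0 := by decide
    rwa [e] at this
  comm := fun a ha b => ext_comm K V a ha b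
  anti := fun a ha b hb => ext_anti K V a ha b hb

theorem ι_mem_od (v : V) : ExteriorAlgebra.ι K v ∈ (extSuper K V).od :=
  CliffordAlgebra.ι_mem_evenOdd_one _ v

theorem algebraMap_mem_ev (r : K) : algebraMap K (ExteriorAlgebra K V) r ∈ (extSuper K V).ev := by
  rw [Algebra.algebraMap_eq_smul_one]
  exact (extSuper K V).ev.smul_mem r (extSuper K V).one_mem

end Pool.Agent.Helper49.SL
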