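import Mathlib
import Pool.Agent.Helper49.SL.Ext

/-!
Generic elements: sums over words with exterior coefficients.
-/

set_option linter.unusedSectionVars false

namespace Pool.Agent.Helper49.SL

open Finset Matrix

/-- the exterior algebra on `N` generators -/
abbrev LL (K : Type*) [Field K] (N : ℕ) := ExteriorAlgebra K (Fin N → K)

variable {K : Type*} [Field K] {N : ℕ} {m : Type*} [Fintype m] [DecidableEq m]

/-- generators of the exterior algebra -/
noncomputable def ee (K : Type*) [Field K] {N : ℕ} (i : Fin N) : LL K N := ExteriorAlgebra.ι K (Pi.single i 1)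

/-- scalar matrices -/
noncomputable def cM (N : ℕ) (a : Matrix m m K) : Matrix m m (LL K N) := a.map (algebraMap K (LL K N))

/-- sum over words of length `j` -/
noncomputable def TT : ℕ → (List (Fin N) → Matrix m m K) → Matrix m m (LL K N)
  | 0, φ => cM N (φ [])
  | j + 1, φ => ∑ i, ee K i • TT j (fun l => φ (i :: l))

theorem cM_mul (a b : Matrix m m K) : cM N (a * b) = cM N a * cM N b :=
  map_mul (algebraMap K (LL K N)).mapMatrix a b

theorem cM_add (a b : Matrix m m K) : cM N (a + b) = cM N a + cM N b :=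
  map_add (algebraMap K (LL K N)).mapMatrix a b

theorem cM_sub (a b : Matrix m m K) : cM N (a - b) = cM N a - cM N b :=
  map_sub (algebraMap K (LL K N)).mapMatrix a b

theorem cM_smul (c : K) (a : Matrix m m K) : cM N (c • a) = c • cM N a := by
  ext i j
  rw [cM, cM, Matrix.map_apply, Matrix.smul_apply, Matrix.smul_apply, Matrix.map_apply,
    smul_eq_mul, map_mul, Algebra.smul_def]

theorem cM_mul_smul (a : Matrix m m K) (l : LL K N) (M : Matrix m m (LL K N)) :
    cM N a * (l • M) = l • (cM N a * M) := by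
  ext i j
  simp only [Matrix.mul_apply, Matrix.smul_apply, smul_eq_mul, mul_sum, cM, Matrix.map_apply]
  exact sum_congr rfl fun k _ => by rw [← mul_assoc, Algebra.commutes, mul_assoc]

theorem TT_add (j : ℕ) (φ ψ : List (Fin N) → Matrix m m K) :
    TT j (fun l => φ l + ψ l) = TT j φ + TT j ψ := by
  induction j generalizing φ ψ with
  | zero => exact cM_add _ _
  | succ j ih =>
    simp only [TT]
    rw [← Finset.sum_add_distrib]
    refine sum_congr rfl fun i _ => ?_
    rw [ih, smul_add]

theorem TT_smul (j : ℕ) (c : K) (φ : List (Fin N) → Matrix m m K) :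
    TT j (fun l => c • φ l) = c • TT j φ := by
  induction j generalizing φ with
  | zero => exact cM_smul _ _
  | succ j ih =>
    simp only [TT]
    rw [Finset.smul_sum]
    refine sum_congr rfl fun i _ => ?_
    rw [ih, smul_comm]

/-- `TT` as a linear map -/
noncomputable def TTl (j : ℕ) : (List (Fin N) → Matrix m m K) →ₗ[K] Matrix m m (LL K N) where
  toFun := TT j
  map_add' := fun φ ψ => TT_add j φ ψ
  map_smul' := fun c φ => TT_smul j c φ

theorem cM_mul_TT (j : ℕ) (a : Matrix m m K) (φ : List (Fin N) → Matrix m m K) :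
    cM N a * TT j φ = TT j (fun l => a * φ l) := by
  induction j generalizing φ with
  | zero => exact (cM_mul _ _).symm
  | succ j ih =>
    simp only [TT]
    rw [Finset.mul_sum]
    refine sum_congr rfl fun i _ => ?_
    rw [cM_mul_smul, ih]

theorem TT_mul_cM (j : ℕ) (a : Matrix m m K) (φ : List (Fin N) → Matrix m m K) :
    TT j φ * cM N a = TT j (fun l => φ l * a) := by
  induction j generalizing φ with
  | zero => exact (cM_mul _ _).symm
  | succ j ih =>
    simp only [TT]
    rw [Finset.sum_mul]
    refine sum_congr rfl fun i _ => ?_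
    rw [Matrix.smul_mul, ih]

theorem ee_smul_comm (i k : Fin N) (M : Matrix m m (LL K N)) :
    ee K i • ee K k • M = -(ee K k • ee K i • M) := by
  rw [smul_smul, smul_smul, ← neg_smul]
  congr 1
  exact eq_neg_of_add_eq_zero_left (ExteriorAlgebra.ι_add_mul_swap _ _)

theorem TT_mul_smul (j : ℕ) (φ : List (Fin N) → Matrix m m K) (i : Fin N)
    (M : Matrix m m (LL K N)) :
    TT j φ * (ee K i • M) = (-1 : K) ^ j • ee K i • (TT j φ * M) := by
  induction j generalizing φ with
  | zero => rw [pow_zero, one_smul]; exact cM_mul_smul _ _ _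
  | succ j ih =>
    simp only [TT]
    rw [Finset.sum_mul, Finset.sum_mul, Finset.smul_sum, Finset.smul_sum]
    refine sum_congr rfl fun k _ => ?_
    rw [Matrix.smul_mul, Matrix.smul_mul, ih, smul_comm _ ((-1 : K) ^ j), ee_smul_comm, pow_succ,
      mul_smul, neg_one_smul]

theorem TT_mul (j l : ℕ) (φ ψ : List (Fin N) → Matrix m m K) :
    TT j φ * TT l ψ = TT (j + l) (fun L => φ (L.take j) * ψ (L.drop j)) := by
  induction j generalizing φ with
  | zero =>
    rw [zero_add]
    exact cM_mul_TT l _ _
  | succ j ih =>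
    rw [show j + 1 + l = (j + l) + 1 by ring]
    simp only [TT]
    rw [Finset.sum_mul]
    refine sum_congr rfl fun i _ => ?_
    rw [Matrix.smul_mul, ih]
    simp only [List.take_succ_cons, List.drop_succ_cons]

theorem TT_mul' (j l : ℕ) (φ ψ : List (Fin N) → Matrix m m K) :
    TT l ψ * TT j φ = (-1 : K) ^ (l * j) • TT (j + l) (fun L => ψ (L.drop j) * φ (L.take j)) := by
  induction j generalizing φ with
  | zero =>
    rw [zero_add, mul_zero, pow_zero, one_smul]
    exact TT_mul_cM l _ _
  | succ j ih =>
    rw [show j + 1 + l = (j + l) + 1 by ring]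
    simp only [TT]
    rw [Finset.mul_sum, Finset.smul_sum]
    refine sum_congr rfl fun i _ => ?_
    rw [TT_mul_smul, ih, smul_comm (ee K i), smul_smul, ← pow_add]
    simp only [List.take_succ_cons, List.drop_succ_cons]
    rw [show l + l * j = l * (j + 1) by ring]

/-- the generic odd element -/
noncomputable def XX (x : Fin N → Matrix m m K) : Matrix m m (LL K N) := ∑ i, ee K i • cM N (x i)

/-- iterated commutators -/
def adl (x : Fin N → Matrix m m K) (y : Matrix m m K) (l : List (Fin N)) : Matrix m m K :=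
  l.foldr (fun i z => x i * z - z * x i) y

/-- super commutators -/
noncomputable def yk (x : Fin N → Matrix m m K) (y : Matrix m m K) (j : ℕ) : Matrix m m (LL K N) :=
  TT j (adl x y)

theorem yk_zero (x : Fin N → Matrix m m K) (y : Matrix m m K) : yk x y 0 = cM N y := rfl

theorem yk_succ (x : Fin N → Matrix m m K) (y : Matrix m m K) (j : ℕ) :
    yk x y (j + 1) = XX x * yk x y j - (-1 : K) ^ j • (yk x y j * XX x) := by
  have h1 : XX x * yk x y j = ∑ i, ee K i • TT j (fun l => x i * adl x y l) := by
    rw [XX, Finset.sum_mul]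
    refine sum_congr rfl fun i _ => ?_
    rw [Matrix.smul_mul, yk, cM_mul_TT]
  have h2 : (-1 : K) ^ j • (yk x y j * XX x) = ∑ i, ee K i • TT j (fun l => adl x y l * x i) := by
    rw [XX, Finset.mul_sum, Finset.smul_sum]
    refine sum_congr rfl fun i _ => ?_
    rw [yk, TT_mul_smul, TT_mul_cM, smul_smul, ← mul_pow]
    simp
  rw [h1, h2, ← Finset.sum_sub_distrib, yk]
  simp only [TT]
  refine sum_congr rfl fun i _ => ?_
  rw [← smul_sub]
  congr 1
  rw [← sub_eq_zero]
  have h3 : (fun l => adl x y (i :: l)) = (fun l => x i * adl x y l + (-1 : K) • (adl x y l * x i)) := by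
    funext l
    rw [neg_one_smul, ← sub_eq_add_neg]
    rfl
  rw [h3, TT_add, TT_smul, neg_one_smul]
  abel

theorem yk_add_two (x : Fin N → Matrix m m K) (y : Matrix m m K) (j : ℕ) :
    yk x y (j + 2) = (XX x * XX x) * yk x y j - yk x y j * (XX x * XX x) := by
  rw [yk_succ, yk_succ]
  simp only [mul_sub, sub_mul, smul_sub, mul_smul_comm, smul_mul_assoc, smul_smul]
  have h : (-1 : K) ^ (j + 1) * (-1) ^ j = -1 := by
    rw [pow_succ, mul_right_comm, ← mul_pow]; simp
  rw [h, pow_succ]
  simp only [mul_neg, mul_one, neg_smul, one_smul, mul_assoc]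
  abel

/-- the full exterior element -/
noncomputable def omg (K : Type*) [Field K] (N : ℕ) : LL K N :=
  ExteriorAlgebra.ιMulti K N (fun i : Fin N => (Pi.single i 1 : Fin N → K))

theorem omg_ne_zero : omg K N ≠ 0 := by
  intro h
  have h1 := ExteriorAlgebra.liftAlternating_apply_ιMulti (R := K) (M := Fin N → K) (N := K)
    (n := N) (Pi.single (M := fun i => (Fin N → K) [⋀^Fin i]→ₗ[K] K) N Matrix.detRowAlternating)
    (fun i : Fin N => (Pi.single i 1 : Fin N → K))
  rw [show ExteriorAlgebra.ιMulti K N (fun i : Fin N => (Pi.single i 1 : Fin N → K)) = omg K N from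
    rfl, h, map_zero, Pi.single_eq_same] at h1
  have h2 : Matrix.detRowAlternating (R := K) (fun i : Fin N => (Pi.single i 1 : Fin N → K)) = 1 := by
    have : (fun i : Fin N => (Pi.single i 1 : Fin N → K)) = (1 : Matrix (Fin N) (Fin N) K) := by
      funext i j
      rw [Matrix.one_apply, Pi.single_apply]
      simp only [eq_comm]
    rw [this]
    exact Matrix.det_one
  rw [h2] at h1
  exact zero_ne_one h1

theorem TT_eq_sum (j : ℕ) (φ : List (Fin N) → Matrix m m K) :
    TT j φ = ∑ f : Fin j → Fin N, ExteriorAlgebra.ιMulti K j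
      (fun a => (Pi.single (f a) 1 : Fin N → K)) • cM N (φ (List.ofFn f)) := by
  induction j generalizing φ with
  | zero =>
    rw [Fintype.sum_unique]
    simp [TT]
  | succ j ih =>
    rw [← (Fin.consEquiv (fun _ : Fin (j + 1) => Fin N)).sum_comp, Fintype.sum_prod_type]
    simp only [TT]
    refine sum_congr rfl fun i _ => ?_
    rw [ih, Finset.smul_sum]
    refine sum_congr rfl fun f _ => ?_
    rw [smul_smul]
    congr 1
    · rw [ExteriorAlgebra.ιMulti_succ_apply]
      rfl
    · congr 1
      simp [Fin.consEquiv]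

theorem TT_full (φ : List (Fin N) → Matrix m m K) :
    TT N φ = omg K N • cM N (∑ σ : Equiv.Perm (Fin N), (Equiv.Perm.sign σ : ℤ) • φ (List.ofFn σ)) := by
  rw [TT_eq_sum]
  have h1 : ∑ f : Fin N → Fin N, ExteriorAlgebra.ιMulti K N
      (fun a => (Pi.single (f a) 1 : Fin N → K)) • cM N (φ (List.ofFn f)) =
      ∑ σ : Equiv.Perm (Fin N), ExteriorAlgebra.ιMulti K N
      (fun a => (Pi.single (σ a) 1 : Fin N → K)) • cM N (φ (List.ofFn σ)) := by
    let emb : Equiv.Perm (Fin N) ↪ (Fin N → Fin N) := ⟨fun σ => σ, DFunLike.coe_injective⟩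
    rw [← Finset.sum_subset (Finset.subset_univ (Finset.univ.map emb)), Finset.sum_map]
    · rfl
    · intro f _ hf
      have : ¬ Function.Injective f := by
        intro hinj
        apply hf
        rw [Finset.mem_map]
        exact ⟨Equiv.ofBijective f (Finite.injective_iff_bijective.mp hinj), mem_univ _, rfl⟩
      rw [ExteriorAlgebra.ιMulti_eq_zero_of_not_inj, zero_smul]
      intro hinj
      apply this
      intro a b hab
      exact hinj (by simp only [hab])
  rw [h1]
  have h2 : ∀ σ : Equiv.Perm (Fin N), ExteriorAlgebra.ιMulti K N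
      (fun a => (Pi.single (σ a) 1 : Fin N → K)) = (Equiv.Perm.sign σ : ℤ) • omg K N := by
    intro σ
    have := AlternatingMap.map_perm (ExteriorAlgebra.ιMulti K N)
      (fun i : Fin N => (Pi.single i 1 : Fin N → K)) σ
    exact this
  have h3 : cM N (∑ σ : Equiv.Perm (Fin N), (Equiv.Perm.sign σ : ℤ) • φ (List.ofFn σ)) =
      ∑ σ : Equiv.Perm (Fin N), (Equiv.Perm.sign σ : ℤ) • cM N (φ (List.ofFn σ)) := by
    have h := map_sum (algebraMap K (LL K N)).mapMatrix
      (fun σ : Equiv.Perm (Fin N) => (Equiv.Perm.sign σ : ℤ) • φ (List.ofFn σ)) Finset.univ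
    refine h.trans ?_
    exact sum_congr rfl fun σ _ => map_zsmul (algebraMap K (LL K N)).mapMatrix _ _
  rw [h3, Finset.smul_sum]
  refine sum_congr rfl fun σ _ => ?_
  rw [h2, smul_assoc, smul_comm]

theorem cM_eq_zero (A : Matrix m m K) (h : omg K N • cM N A = 0) : A = 0 := by
  ext i j
  have h1 := congrFun (congrFun h i) j
  rw [Matrix.smul_apply, cM, Matrix.map_apply, smul_eq_mul, ← Algebra.commutes, ← Algebra.smul_def,
    Matrix.zero_apply] at h1
  exact (smul_eq_zero.mp h1).resolve_right omg_ne_zero

theorem XX_mem (x : Fin N → Matrix m m K) : XX x ∈ (extSuper K (Fin N → K)).odM (m := m) := by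
  refine Submodule.sum_mem _ fun i _ => ?_
  intro a b
  rw [Matrix.smul_apply, cM, Matrix.map_apply, smul_eq_mul, ← Algebra.commutes, ← Algebra.smul_def]
  exact (extSuper K (Fin N → K)).od.smul_mem _ (ι_mem_od K _ _)

theorem cM_mem (y : Matrix m m K) : cM N y ∈ (extSuper K (Fin N → K)).evM (m := m) := by
  intro a b
  exact algebraMap_mem_ev K _ _

end Pool.Agent.Helper49.SL
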