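import Mathlib
import Pool.Agent.Helper49.SL.TT
import Pool.Agent.Helper49.SL.Grad

/-!
The alternating sum vanishes on matrices.
-/

set_option linter.unusedSectionVars false

namespace Pool.Agent.Helper49.SL

open Finset Matrix

/-- The combination of the coefficients. -/
def comb {V : Type*} [AddCommGroup V] (k : ℕ) (f : ℕ → V) : V :=
  -((4 * (k + 1) : ℤ) • ∑ p ∈ antidiagonal (2 * (k + 1)), bc (k + 1) p • f (2 * p.1 + 2))
    - (5 * (2 * k + 5) : ℤ) • ∑ p ∈ antidiagonal (2 * (k + 1) + 1), gc (k + 1) p • f (2 * p.1)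
    + (6 * (k + 1) : ℤ) • ∑ p ∈ antidiagonal (2 * (k + 1)), bc (k + 1) p • f (2 * p.1 + 1)

theorem comb_map {V W F : Type*} [AddCommGroup V] [AddCommGroup W] [FunLike F V W]
    [AddMonoidHomClass F V W] (g : F) (k : ℕ) (f : ℕ → V) :
    g (comb k f) = comb k (fun p => g (f p)) := by
  simp only [comb, map_add, map_sub, map_neg, map_zsmul, map_sum]

theorem comb_congr {V : Type*} [AddCommGroup V] (k : ℕ) {f g : ℕ → V}
    (h : ∀ p, p ≤ 4 * k + 6 → f p = g p) : comb k f = comb k g := by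
  rw [comb, comb]
  have h1 : ∑ p ∈ antidiagonal (2 * (k + 1)), bc (k + 1) p • f (2 * p.1 + 2) =
      ∑ p ∈ antidiagonal (2 * (k + 1)), bc (k + 1) p • g (2 * p.1 + 2) := by
    refine sum_congr rfl fun p hp => ?_
    have : p.1 + p.2 = 2 * (k + 1) := by simpa using hp
    rw [h _ (by omega)]
  have h2 : ∑ p ∈ antidiagonal (2 * (k + 1) + 1), gc (k + 1) p • f (2 * p.1) =
      ∑ p ∈ antidiagonal (2 * (k + 1) + 1), gc (k + 1) p • g (2 * p.1) := by
    refine sum_congr rfl fun p hp => ?_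
    have : p.1 + p.2 = 2 * (k + 1) + 1 := by simpa using hp
    rw [h _ (by omega)]
  have h3 : ∑ p ∈ antidiagonal (2 * (k + 1)), bc (k + 1) p • f (2 * p.1 + 1) =
      ∑ p ∈ antidiagonal (2 * (k + 1)), bc (k + 1) p • g (2 * p.1 + 1) := by
    refine sum_congr rfl fun p hp => ?_
    have : p.1 + p.2 = 2 * (k + 1) := by simpa using hp
    rw [h _ (by omega)]
  rw [h1, h2, h3]

section Y2

variable {K Λ : Type*} [Field K] [Ring Λ] [Algebra K Λ]
variable {m : Type*} [Fintype m] [DecidableEq m] {X y z : Matrix m m Λ}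

/-- commutator with the square -/
def adT (X : Matrix m m Λ) (w : Matrix m m Λ) : Matrix m m Λ := X * X * w - w * (X * X)

theorem Y2_uu (p : MvPolynomial (Fin 3) K) : Y2 X y z (uu K * p) = Y2 X (adT X y) z p := by
  have : (Y2 (K := K) X y z) ∘ₗ LinearMap.mulLeft K (uu K) = Y2 X (adT X y) z := by
    apply fn_ext
    intro a b c
    have e1 : (uu K * (MvPolynomial.X 0 ^ a * MvPolynomial.X 1 ^ b * MvPolynomial.X 2 ^ c)) =
        (MvPolynomial.X 0 ^ (a + 1) * MvPolynomial.X 1 ^ b * MvPolynomial.X 2 ^ c) -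
        (MvPolynomial.X 0 ^ a * MvPolynomial.X 1 ^ (b + 1) * MvPolynomial.X 2 ^ c) := by
      rw [uu]; ring
    rw [LinearMap.comp_apply, LinearMap.mulLeft_apply, e1, map_sub, Y2_mon, Y2_mon, Y2_mon, adT,
      pow_succ (X * X) a, pow_succ' (X * X) b]
    simp only [mul_sub, sub_mul, mul_assoc]
  rw [← this]; rfl

theorem Y2_vv (p : MvPolynomial (Fin 3) K) : Y2 X y z (vv K * p) = Y2 X y (adT X z) p := by
  have : (Y2 (K := K) X y z) ∘ₗ LinearMap.mulLeft K (vv K) = Y2 X y (adT X z) := by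
    apply fn_ext
    intro a b c
    have e1 : (vv K * (MvPolynomial.X 0 ^ a * MvPolynomial.X 1 ^ b * MvPolynomial.X 2 ^ c)) =
        (MvPolynomial.X 0 ^ a * MvPolynomial.X 1 ^ (b + 1) * MvPolynomial.X 2 ^ c) -
        (MvPolynomial.X 0 ^ a * MvPolynomial.X 1 ^ b * MvPolynomial.X 2 ^ (c + 1)) := by
      rw [vv]; ring
    rw [LinearMap.comp_apply, LinearMap.mulLeft_apply, e1, map_sub, Y2_mon, Y2_mon, Y2_mon, adT,
      pow_succ (X * X) b, pow_succ' (X * X) c]
    simp only [mul_sub, sub_mul, mul_assoc]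
  rw [← this]; rfl

theorem Y2_pow (i j : ℕ) : Y2 X y z (uu K ^ i * vv K ^ j) = (adT X)^[i] y * (adT X)^[j] z := by
  induction i generalizing y with
  | zero =>
    induction j generalizing z with
    | zero =>
      have := Y2_mon (K := K) (X := X) (y := y) (z := z) 0 0 0
      simpa using this
    | succ j ih =>
      rw [pow_succ' (vv K), mul_left_comm, Y2_vv, ih, Function.iterate_succ_apply]
  | succ i ih =>
    rw [pow_succ' (uu K), mul_assoc, Y2_uu, ih, Function.iterate_succ_apply]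

theorem Y2_int (c : ℤ) (p : MvPolynomial (Fin 3) K) :
    Y2 X y z ((c : MvPolynomial (Fin 3) K) * p) = c • Y2 X y z p := by
  rw [← zsmul_eq_mul, map_zsmul]

theorem Y2_Bs (n : ℕ) : Y2 X y z (Bs n (uu K) (vv K)) =
    ∑ p ∈ antidiagonal (2 * n), bc n p • ((adT X)^[p.1] y * (adT X)^[p.2] z) := by
  rw [Bs, map_sum]
  exact sum_congr rfl fun p _ => by rw [Y2_int, Y2_pow]

theorem Y2_Gs (n : ℕ) : Y2 X y z (Gs n (uu K) (vv K)) =
    ∑ p ∈ antidiagonal (2 * n + 1), gc n p • ((adT X)^[p.1] y * (adT X)^[p.2] z) := by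
  rw [Gs, map_sum]
  exact sum_congr rfl fun p _ => by rw [Y2_int, Y2_pow]

theorem Psi_eq (k : ℕ) : Psi K k X y z =
    -((2 * (k + 1) : ℤ) • ∑ p ∈ antidiagonal (2 * (k + 1)), bc (k + 1) p •
      ((adT X)^[p.1 + 1] y * (adT X)^[p.2] z - (adT X)^[p.1] y * (adT X)^[p.2 + 1] z))
    - (5 * (2 * k + 5) : ℤ) • ∑ p ∈ antidiagonal (2 * (k + 1) + 1), gc (k + 1) p •
      ((adT X)^[p.1] y * (adT X)^[p.2] z)
    + (6 * (k + 1) : ℤ) • ∑ p ∈ antidiagonal (2 * (k + 1)), bc (k + 1) p •
      ((adT X)^[p.1] (X * y - y * X) * (adT X)^[p.2] (X * z - z * X)) := by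
  rw [Psi, PA, PB, map_sub, map_neg, map_smul, map_smul, map_smul, sub_mul, map_sub, Y2_uu, Y2_vv,
    Y2_Gs, Y2_Bs, Y2_Bs, Y2_Bs]
  have e1 : ∀ M : Matrix m m Λ, (2 * (k + 1) : K) • M = (2 * (k + 1) : ℤ) • M := fun M => by
    rw [← Int.cast_smul_eq_zsmul K]; push_cast; rfl
  have e2 : ∀ M : Matrix m m Λ, (5 * (2 * k + 5) : K) • M = (5 * (2 * k + 5) : ℤ) • M := fun M => by
    rw [← Int.cast_smul_eq_zsmul K]; push_cast; rfl
  have e3 : ∀ M : Matrix m m Λ, (6 * (k + 1) : K) • M = (6 * (k + 1) : ℤ) • M := fun M => by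
    rw [← Int.cast_smul_eq_zsmul K]; push_cast; rfl
  rw [e1, e2, e3]
  simp only [Function.iterate_succ_apply, smul_sub, Finset.sum_sub_distrib]

end Y2

variable {K : Type*} [Field K] {N : ℕ} {m : Type*} [Fintype m] [DecidableEq m]

theorem yk_even (x : Fin N → Matrix m m K) (y : Matrix m m K) (a : ℕ) :
    yk x y (2 * a) = (adT (XX x))^[a] (cM N y) := by
  induction a with
  | zero => rfl
  | succ a ih =>
    rw [show 2 * (a + 1) = 2 * a + 2 by ring, yk_add_two, ih, Function.iterate_succ_apply', adT]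

theorem yk_odd (x : Fin N → Matrix m m K) (y : Matrix m m K) (a : ℕ) :
    yk x y (2 * a + 1) = (adT (XX x))^[a] (XX x * cM N y - cM N y * XX x) := by
  induction a with
  | zero =>
    rw [mul_zero, yk_succ, yk_zero, pow_zero, one_smul]
    rfl
  | succ a ih =>
    rw [show 2 * (a + 1) + 1 = 2 * a + 1 + 2 by ring, yk_add_two, ih,
      Function.iterate_succ_apply', adT]

/-- the commutator of two iterated commutators -/
def brk (x : Fin N → Matrix m m K) (y : Matrix m m K) (p : ℕ) (L : List (Fin N)) : Matrix m m K :=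
  adl x y (L.take p) * adl x y (L.drop p) - adl x y (L.drop p) * adl x y (L.take p)

theorem TT_brk (x : Fin N → Matrix m m K) (y : Matrix m m K) (M p l : ℕ) (h : M = p + l) :
    TT M (brk x y p) = yk x y p * yk x y l - (-1 : K) ^ (l * p) • (yk x y l * yk x y p) := by
  subst h
  rw [yk, yk, TT_mul, TT_mul', smul_smul, ← mul_pow]
  have h3 : (brk x y p) = (fun L => adl x y (L.take p) * adl x y (L.drop p) +
    (-1 : K) • (adl x y (L.drop p) * adl x y (L.take p))) := by
    funext L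
    rw [neg_one_smul, ← sub_eq_add_neg]
    rfl
  rw [h3, TT_add, TT_smul, neg_one_smul]
  simp
  abel

variable [CharZero K]

theorem comb_TT (k : ℕ) (hN : N = 4 * k + 6) (hn : Fintype.card m = k + 3)
    (x : Fin N → Matrix m m K) (y : Matrix m m K) :
    comb k (fun p => TT N (brk x y p)) = 0 := by
  have hPsi := Psi_eq_zero (K := K) (k := k) hn (XX_mem x) (cM_mem (N := N) y)
  rw [Psi_eq] at hPsi
  simp only [← yk_even, ← yk_odd] at hPsi
  -- the three sums
  have E : ∀ (a b : ℕ), 2 * a + 2 * b = N → TT N (brk x y (2 * a)) =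
      yk x y (2 * a) * yk x y (2 * b) - yk x y (2 * b) * yk x y (2 * a) := by
    intro a b hab
    rw [TT_brk x y N (2 * a) (2 * b) hab.symm, show 2 * b * (2 * a) = 2 * (2 * b * a) by ring,
      pow_mul]
    simp
  have O : ∀ (a b : ℕ), 2 * a + 1 + (2 * b + 1) = N → TT N (brk x y (2 * a + 1)) =
      yk x y (2 * a + 1) * yk x y (2 * b + 1) + yk x y (2 * b + 1) * yk x y (2 * a + 1) := by
    intro a b hab
    rw [TT_brk x y N (2 * a + 1) (2 * b + 1) hab.symm,
      show (2 * b + 1) * (2 * a + 1) = 2 * (2 * b * a + a + b) + 1 by ring, pow_succ, pow_mul]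
    simp
  have s1 : ∑ p ∈ antidiagonal (2 * (k + 1)), bc (k + 1) p • TT N (brk x y (2 * p.1 + 2)) =
      ∑ p ∈ antidiagonal (2 * (k + 1)), bc (k + 1) p • (yk x y (2 * (p.1 + 1)) * yk x y (2 * p.2)
        - yk x y (2 * p.1) * yk x y (2 * (p.2 + 1))) := by
    have : ∀ p ∈ antidiagonal (2 * (k + 1)), bc (k + 1) p • TT N (brk x y (2 * p.1 + 2)) =
        bc (k + 1) p • (yk x y (2 * (p.1 + 1)) * yk x y (2 * p.2)) -
          bc (k + 1) p • (yk x y (2 * p.2) * yk x y (2 * (p.1 + 1))) := by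
      intro p hp
      have h : p.1 + p.2 = 2 * (k + 1) := by simpa using hp
      rw [show 2 * p.1 + 2 = 2 * (p.1 + 1) by ring, E (p.1 + 1) p.2 (by omega), smul_sub]
    rw [sum_congr rfl this, Finset.sum_sub_distrib]
    have sw : ∑ p ∈ antidiagonal (2 * (k + 1)),
        bc (k + 1) p • (yk x y (2 * p.2) * yk x y (2 * (p.1 + 1))) =
        ∑ p ∈ antidiagonal (2 * (k + 1)),
        bc (k + 1) p • (yk x y (2 * p.1) * yk x y (2 * (p.2 + 1))) := by
      rw [← Finset.Nat.sum_antidiagonal_swap]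
      refine sum_congr rfl fun p hp => ?_
      rw [bc_swap _ _ hp, Prod.fst_swap, Prod.snd_swap]
    rw [sw, ← Finset.sum_sub_distrib]
    exact sum_congr rfl fun p _ => by rw [smul_sub]
  have s2 : ∑ p ∈ antidiagonal (2 * (k + 1) + 1), gc (k + 1) p • TT N (brk x y (2 * p.1)) =
      (2 : ℤ) • ∑ p ∈ antidiagonal (2 * (k + 1) + 1), gc (k + 1) p •
        (yk x y (2 * p.1) * yk x y (2 * p.2)) := by
    have : ∀ p ∈ antidiagonal (2 * (k + 1) + 1), gc (k + 1) p • TT N (brk x y (2 * p.1)) =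
        gc (k + 1) p • (yk x y (2 * p.1) * yk x y (2 * p.2)) -
          gc (k + 1) p • (yk x y (2 * p.2) * yk x y (2 * p.1)) := by
      intro p hp
      have h : p.1 + p.2 = 2 * (k + 1) + 1 := by simpa using hp
      rw [E p.1 p.2 (by omega), smul_sub]
    rw [sum_congr rfl this, Finset.sum_sub_distrib]
    have sw : ∑ p ∈ antidiagonal (2 * (k + 1) + 1),
        gc (k + 1) p • (yk x y (2 * p.2) * yk x y (2 * p.1)) =
        - ∑ p ∈ antidiagonal (2 * (k + 1) + 1),
        gc (k + 1) p • (yk x y (2 * p.1) * yk x y (2 * p.2)) := by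
      rw [← Finset.Nat.sum_antidiagonal_swap, ← Finset.sum_neg_distrib]
      refine sum_congr rfl fun p hp => ?_
      rw [gc_swap _ _ hp, Prod.fst_swap, Prod.snd_swap, neg_smul]
    rw [sw, two_smul]
    abel
  have s3 : ∑ p ∈ antidiagonal (2 * (k + 1)), bc (k + 1) p • TT N (brk x y (2 * p.1 + 1)) =
      (2 : ℤ) • ∑ p ∈ antidiagonal (2 * (k + 1)), bc (k + 1) p •
        (yk x y (2 * p.1 + 1) * yk x y (2 * p.2 + 1)) := by
    have : ∀ p ∈ antidiagonal (2 * (k + 1)), bc (k + 1) p • TT N (brk x y (2 * p.1 + 1)) =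
        bc (k + 1) p • (yk x y (2 * p.1 + 1) * yk x y (2 * p.2 + 1)) +
          bc (k + 1) p • (yk x y (2 * p.2 + 1) * yk x y (2 * p.1 + 1)) := by
      intro p hp
      have h : p.1 + p.2 = 2 * (k + 1) := by simpa using hp
      rw [O p.1 p.2 (by omega), smul_add]
    rw [sum_congr rfl this, Finset.sum_add_distrib]
    have sw : ∑ p ∈ antidiagonal (2 * (k + 1)),
        bc (k + 1) p • (yk x y (2 * p.2 + 1) * yk x y (2 * p.1 + 1)) =
        ∑ p ∈ antidiagonal (2 * (k + 1)),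
        bc (k + 1) p • (yk x y (2 * p.1 + 1) * yk x y (2 * p.2 + 1)) := by
      rw [← Finset.Nat.sum_antidiagonal_swap]
      refine sum_congr rfl fun p hp => ?_
      rw [bc_swap _ _ hp, Prod.fst_swap, Prod.snd_swap]
    rw [sw, two_smul]
  rw [comb, s1, s2, s3]
  have h2 := congrArg (fun M => (2 : ℤ) • M) hPsi
  simp only [smul_zero] at h2
  rw [← h2]
  module

/-- The alternating sum vanishes on matrices of size `k + 3`. -/
theorem main_eval (k : ℕ) (hn : Fintype.card m = k + 3)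
    (x : Fin (4 * k + 6) → Matrix m m K) (y : Matrix m m K) :
    ∑ σ : Equiv.Perm (Fin (4 * k + 6)), (Equiv.Perm.sign σ : ℤ) •
      comb k (fun p => brk x y p (List.ofFn σ)) = 0 := by
  have h1 := comb_TT k rfl hn x y
  have h2 : TT (4 * k + 6) (fun L => comb k (fun p => brk x y p L)) = 0 := by
    rw [← h1]
    have h3 := comb_map (TTl (K := K) (N := 4 * k + 6) (m := m) (4 * k + 6)) k (brk x y)
    have h4 : comb k (brk x y) = fun L => comb k (fun p => brk x y p L) := by
      funext L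
      exact comb_map (Pi.evalAddMonoidHom (fun _ : List (Fin (4 * k + 6)) => Matrix m m K) L) k
        (brk x y)
    rw [h4] at h3
    exact h3
  rw [TT_full] at h2
  exact cM_eq_zero _ h2

end Pool.Agent.Helper49.SL
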