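import Mathlib
import Pool.Agent.Helper49.SL.Eval

/-!
The Lie polynomial, its vanishing on matrices and its nonvanishing in general.
-/

set_option linter.unusedSectionVars false

namespace Pool.Agent.Helper49.SL

open Finset

attribute [local instance 100] LieRing.ofAssociativeRing

section General

variable {K : Type*} [Field K] {L L' : Type*} [LieRing L] [LieAlgebra K L] [LieRing L']
  [LieAlgebra K L'] {N : ℕ}

/-- iterated brackets -/
def adL (x : Fin N → L) (y : L) (l : List (Fin N)) : L := l.foldr (fun i z => ⁅x i, z⁆) y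

/-- the alternating Lie polynomial -/
def ffL (k : ℕ) (x : Fin (4 * k + 6) → L) (y : L) : L :=
  ∑ σ : Equiv.Perm (Fin (4 * k + 6)), (Equiv.Perm.sign σ : ℤ) • comb k (fun p =>
    ⁅adL x y ((List.ofFn σ).take p), adL x y ((List.ofFn σ).drop p)⁆)

theorem map_adL (g : L →ₗ⁅K⁆ L') (x : Fin N → L) (y : L) (l : List (Fin N)) :
    g (adL x y l) = adL (fun i => g (x i)) (g y) l := by
  induction l with
  | nil => rfl
  | cons i l ih =>
    simp only [adL, List.foldr_cons] at ih ⊢
    rw [LieHom.map_lie, ih]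

theorem map_ffL (g : L →ₗ⁅K⁆ L') (k : ℕ) (x : Fin (4 * k + 6) → L) (y : L) :
    g (ffL k x y) = ffL k (fun i => g (x i)) (g y) := by
  rw [ffL, ffL, map_sum]
  refine sum_congr rfl fun σ _ => ?_
  rw [map_zsmul, comb_map g]
  simp only [LieHom.map_lie, map_adL]

end General

section Vanish

variable {K : Type*} [Field K] [CharZero K] {m : Type*} [Fintype m] [DecidableEq m]

theorem ffL_matrix (k : ℕ) (hn : Fintype.card m = k + 3) (x : Fin (4 * k + 6) → Matrix m m K)
    (y : Matrix m m K) : ffL k x y = 0 := main_eval k hn x y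

end Vanish

section NonVanish

theorem comb_two {V : Type*} [AddCommGroup V] (k : ℕ) (f : ℕ → V) (v : V) (h0 : f 0 = -v)
    (hN : f (4 * k + 6) = v) (hm : ∀ p, 0 < p → p < 4 * k + 6 → f p = 0) :
    comb k f = (-(24 * (k + 1) * (2 * k + 5)) : ℤ) • v := by
  have h1 : ∑ p ∈ antidiagonal (2 * (k + 1)), bc (k + 1) p • f (2 * p.1 + 2) =
      (2 * k + 5 : ℤ) • v := by
    rw [Finset.sum_eq_single (2 * (k + 1), 0)]
    · rw [show 2 * (2 * (k + 1), 0).1 + 2 = 4 * k + 6 by simp only; ring, hN, bc]
      congr 1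
      simp only
      rw [show 2 * (k + 1) + 2 = 2 * (k + 1) + 1 + 1 by ring, Nat.choose_succ_self_right, pow_mul]
      push_cast
      ring
    · intro p hp hne
      have h : p.1 + p.2 = 2 * (k + 1) := by simpa using hp
      rw [hm _ (by omega), smul_zero]
      by_contra hlt
      apply hne
      ext
      · show p.1 = 2 * (k + 1)
        omega
      · show p.2 = 0
        omega
    · intro h
      exact absurd (by simp) h
  have h3 : ∑ p ∈ antidiagonal (2 * (k + 1)), bc (k + 1) p • f (2 * p.1 + 1) = 0 := by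
    refine sum_eq_zero fun p hp => ?_
    have h : p.1 + p.2 = 2 * (k + 1) := by simpa using hp
    rw [hm _ (by omega) (by omega), smul_zero]
  have h2 : ∑ p ∈ antidiagonal (2 * (k + 1) + 1), gc (k + 1) p • f (2 * p.1) =
      (4 * (k + 1) : ℤ) • v := by
    rw [Finset.Nat.sum_antidiagonal_succ, show 2 * (k + 1) = 2 * k + 1 + 1 by ring,
      Finset.Nat.sum_antidiagonal_succ']
    have hz : ∑ p ∈ antidiagonal (2 * k + 1), gc (k + 1) (p.1 + 1, p.2 + 1) •
        f (2 * (p.1 + 1, p.2 + 1).1) = 0 := by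
      refine sum_eq_zero fun p hp => ?_
      have h : p.1 + p.2 = 2 * k + 1 := by simpa using hp
      rw [hm _ (by simp) (by simp only; omega), smul_zero]
    rw [hz, add_zero]
    simp only
    rw [mul_zero, h0, show 2 * (2 * k + 1 + 1 + 1) = 4 * k + 6 by ring, hN, gc, gc]
    simp only
    rw [show 2 * (k + 1) + 2 = 2 * k + 1 + 1 + 1 + 1 by ring, Nat.choose_succ_self_right,
      Nat.choose_self, Nat.choose_zero_right, Nat.choose_one_right,
      show (-1 : ℤ) ^ (2 * k + 1 + 1 + 1) = -1 by
        rw [show 2 * k + 1 + 1 + 1 = 2 * (k + 1) + 1 by ring, pow_succ, pow_mul]; simp]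
    push_cast
    module
  rw [comb, h1, h2, h3]
  module

variable (K : Type*) [Field K] (N : ℕ)

/-- the test module -/
abbrev WW := LL K N × K × K

/-- the action of the letters `x` -/
noncomputable def xW (i : Fin N) : Module.End K (WW K N) :=
  LinearMap.prod ((LinearMap.mulLeft K (ee K i)) ∘ₗ LinearMap.fst K _ _) 0

/-- the action of the letter `y` -/
noncomputable def yW : Module.End K (WW K N) :=
  LinearMap.prod ((LinearMap.toSpanSingleton K (LL K N) 1) ∘ₗ LinearMap.fst K _ _ ∘ₗ
    LinearMap.snd K _ _) (LinearMap.prod (LinearMap.snd K _ _ ∘ₗ LinearMap.snd K _ _) 0)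

variable {K N}

theorem xW_apply (i : Fin N) (w : WW K N) : xW K N i w = (ee K i * w.1, 0, 0) := rfl

theorem yW_apply (w : WW K N) : yW K N w = (w.2.1 • 1, w.2.2, 0) := rfl

theorem adL_b (l : List (Fin N)) :
    adL (xW K N) (yW K N) l ((0, 1, 0) : WW K N) = ((l.map (ee K)).prod, 0, 0) := by
  induction l with
  | nil => simp [adL, yW_apply]
  | cons i l ih =>
    have e : adL (xW K N) (yW K N) (i :: l) =
      xW K N i * adL (xW K N) (yW K N) l - adL (xW K N) (yW K N) l * xW K N i := rfl
    rw [e, LinearMap.sub_apply, Module.End.mul_apply, Module.End.mul_apply, ih, xW_apply, xW_apply]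
    have z : ((ee K i * ((0, 1, 0) : WW K N).1, 0, 0) : WW K N) = 0 := by simp
    rw [z, map_zero, sub_zero, List.map_cons, List.prod_cons]

theorem adL_c (i : Fin N) (l : List (Fin N)) :
    adL (xW K N) (yW K N) (i :: l) ((0, 0, 1) : WW K N) = 0 := by
  have z : ((ee K i * ((0, 0, 1) : WW K N).1, 0, 0) : WW K N) = 0 := by simp
  induction l generalizing i with
  | nil =>
    have e : adL (xW K N) (yW K N) [i] = xW K N i * yW K N - yW K N * xW K N i := rfl
    rw [e, LinearMap.sub_apply, Module.End.mul_apply, Module.End.mul_apply, xW_apply, xW_apply, z,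
      map_zero, yW_apply]
    simp
  | cons j l ih =>
    have e : adL (xW K N) (yW K N) (i :: j :: l) =
      xW K N i * adL (xW K N) (yW K N) (j :: l) - adL (xW K N) (yW K N) (j :: l) * xW K N i := rfl
    have z' : ((ee K j * ((0, 0, 1) : WW K N).1, 0, 0) : WW K N) = 0 := by simp
    rw [e, LinearMap.sub_apply, Module.End.mul_apply, Module.End.mul_apply, ih j z',
      xW_apply i (0, 0, 1), z, map_zero, map_zero, sub_zero]

theorem brk_mid (l1 l2 : List (Fin N)) (h1 : l1 ≠ []) (h2 : l2 ≠ []) :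
    ⁅adL (xW K N) (yW K N) l1, adL (xW K N) (yW K N) l2⁆ ((0, 0, 1) : WW K N) = 0 := by
  obtain ⟨i, l1, rfl⟩ := List.exists_cons_of_ne_nil h1
  obtain ⟨j, l2, rfl⟩ := List.exists_cons_of_ne_nil h2
  rw [Ring.lie_def, LinearMap.sub_apply, Module.End.mul_apply, Module.End.mul_apply, adL_c, adL_c,
    map_zero, map_zero, sub_zero]

theorem brk_right (l1 : List (Fin N)) (h1 : l1 ≠ []) :
    ⁅adL (xW K N) (yW K N) l1, adL (xW K N) (yW K N) []⁆ ((0, 0, 1) : WW K N) =
      ((l1.map (ee K)).prod, 0, 0) := by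
  obtain ⟨i, l1, rfl⟩ := List.exists_cons_of_ne_nil h1
  have e : adL (xW K N) (yW K N) [] ((0, 0, 1) : WW K N) = (0, 1, 0) := by
    show yW K N _ = _
    rw [yW_apply]; simp
  rw [Ring.lie_def, LinearMap.sub_apply, Module.End.mul_apply, Module.End.mul_apply, adL_c, e,
    map_zero, sub_zero, adL_b]

theorem brk_left (l1 : List (Fin N)) (h1 : l1 ≠ []) :
    ⁅adL (xW K N) (yW K N) [], adL (xW K N) (yW K N) l1⁆ ((0, 0, 1) : WW K N) =
      -((l1.map (ee K)).prod, 0, 0) := by
  rw [← brk_right l1 h1, ← lie_skew, LinearMap.neg_apply]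

theorem prod_ofFn_ee (σ : Equiv.Perm (Fin N)) :
    ((List.ofFn σ).map (ee K)).prod = (Equiv.Perm.sign σ : ℤ) • omg K N := by
  have h2 : ExteriorAlgebra.ιMulti K N
      (fun a => (Pi.single (σ a) 1 : Fin N → K)) = (Equiv.Perm.sign σ : ℤ) • omg K N := by
    have := AlternatingMap.map_perm (ExteriorAlgebra.ιMulti K N)
      (fun i : Fin N => (Pi.single i 1 : Fin N → K)) σ
    exact this
  rw [← h2, ExteriorAlgebra.ιMulti_apply, List.map_ofFn]
  rfl

theorem ffL_xW (k : ℕ) : ffL k (xW K (4 * k + 6)) (yW K (4 * k + 6))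
    ((0, 0, 1) : WW K (4 * k + 6)) =
    ((-(24 * (k + 1) * (2 * k + 5)) * (4 * k + 6).factorial : ℤ) • omg K (4 * k + 6), 0, 0) := by
  have h : ∀ σ : Equiv.Perm (Fin (4 * k + 6)), (Equiv.Perm.sign σ : ℤ) •
      (comb k (fun p => ⁅adL (xW K (4 * k + 6)) (yW K (4 * k + 6)) ((List.ofFn σ).take p),
        adL (xW K (4 * k + 6)) (yW K (4 * k + 6)) ((List.ofFn σ).drop p)⁆)
        ((0, 0, 1) : WW K (4 * k + 6))) =
      ((-(24 * (k + 1) * (2 * k + 5)) : ℤ) • omg K (4 * k + 6), 0, 0) := by
    intro σ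
    have hl : (List.ofFn σ).length = 4 * k + 6 := List.length_ofFn
    have hne : (List.ofFn σ) ≠ [] := by
      intro h
      rw [h] at hl
      simp at hl
    have c1 := comb_map (LinearMap.applyₗ (R := K) (M := WW K (4 * k + 6))
      (M₂ := WW K (4 * k + 6)) ((0, 0, 1) : WW K (4 * k + 6))) k
      (fun p => ⁅adL (xW K (4 * k + 6)) (yW K (4 * k + 6)) ((List.ofFn σ).take p),
        adL (xW K (4 * k + 6)) (yW K (4 * k + 6)) ((List.ofFn σ).drop p)⁆)
    simp only [LinearMap.applyₗ_apply_apply] at c1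
    rw [c1, comb_two k _ (((List.ofFn σ).map (ee K)).prod, 0, 0)]
    · rw [prod_ofFn_ee]
      have hs : (Equiv.Perm.sign σ : ℤ) * (Equiv.Perm.sign σ : ℤ) = 1 := by
        rw [← Units.val_mul, Int.units_mul_self, Units.val_one]
      ext
      · simp only [Prod.smul_mk, smul_smul]
        congr 1
        linear_combination (-(24 * (k + 1) * (2 * k + 5)) : ℤ) * hs
      · simp
      · simp
    · rw [List.take_zero, List.drop_zero]
      exact brk_left _ hne
    · rw [List.take_of_length_le hl.le, List.drop_of_length_le hl.le]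
      exact brk_right _ hne
    · intro p hp1 hp2
      apply brk_mid
      · intro h
        have := congrArg List.length h
        rw [List.length_take, hl] at this
        simp at this
        omega
      · intro h
        have := congrArg List.length h
        rw [List.length_drop, hl] at this
        simp at this
        omega
  rw [ffL, LinearMap.sum_apply]
  simp only [LinearMap.smul_apply]
  rw [sum_congr rfl fun σ _ => h σ, Finset.sum_const, Finset.card_univ, Fintype.card_perm,
    Fintype.card_fin]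
  ext
  · simp only [Prod.smul_mk, smul_zero]
    rw [← natCast_zsmul, smul_smul]
    congr 1
    ring
  · simp
  · simp

theorem ffL_ne_zero [CharZero K] (k : ℕ) : ffL k (xW K (4 * k + 6)) (yW K (4 * k + 6)) ≠ 0 := by
  intro h
  have h1 := ffL_xW (K := K) k
  rw [h, LinearMap.zero_apply] at h1
  have h2 := congrArg Prod.fst h1
  simp only [Prod.fst_zero] at h2
  rw [← Int.cast_smul_eq_zsmul K] at h2
  have h3 := smul_eq_zero.mp h2.symm
  rcases h3 with h3 | h3
  · rw [Int.cast_eq_zero] at h3
    have h4 : ((4 * k + 6).factorial : ℤ) ≠ 0 := by exact_mod_cast Nat.factorial_ne_zero _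
    have h5 := (mul_eq_zero.mp h3).resolve_right h4
    have : (0 : ℤ) < 24 * (k + 1) * (2 * k + 5) := by positivity
    omega
  · exact omg_ne_zero h3

end NonVanish

section Free

variable (K : Type*) [Field K]

/-- the free Lie polynomial -/
noncomputable def ff (k : ℕ) : FreeLieAlgebra K ℕ :=
  ffL k (fun i : Fin (4 * k + 6) => FreeLieAlgebra.of K (i : ℕ)) (FreeLieAlgebra.of K (4 * k + 6))

variable {K}

theorem lift_ff {L : Type*} [LieRing L] [LieAlgebra K L] (k : ℕ) (v : ℕ → L) :
    FreeLieAlgebra.lift K v (ff K k) = ffL k (fun i => v i) (v (4 * k + 6)) := by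
  rw [ff, map_ffL]
  simp only [FreeLieAlgebra.lift_of_apply]

variable [CharZero K]

theorem ff_ne_zero (k : ℕ) : ff K k ≠ 0 := by
  intro h
  apply ffL_ne_zero (K := K) k
  have h1 := lift_ff (K := K) k (fun i : ℕ => if h : i < 4 * k + 6 then xW K (4 * k + 6) ⟨i, h⟩
    else yW K (4 * k + 6))
  rw [h, map_zero] at h1
  rw [h1]
  simp

theorem lift_ff_matrix {m : Type*} [Fintype m] [DecidableEq m] (k : ℕ)
    (hn : Fintype.card m = k + 3) (v : ℕ → Matrix m m K) :
    FreeLieAlgebra.lift K v (ff K k) = 0 := by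
  rw [lift_ff, ffL_matrix k hn]

theorem lift_ff_sl {m : Type*} [Fintype m] [DecidableEq m] (k : ℕ)
    (hn : Fintype.card m = k + 3) (v : ℕ → LieAlgebra.SpecialLinear.sl m K) :
    FreeLieAlgebra.lift K v (ff K k) = 0 := by
  rw [lift_ff]
  have h := map_ffL (LieAlgebra.SpecialLinear.sl m K).incl k (fun i => v i) (v (4 * k + 6))
  rw [ffL_matrix k hn] at h
  exact Subtype.val_injective h

end Free

end Pool.Agent.Helper49.SL
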